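import Pool.Agent.Helper96_TOR.Rel2

set_option autoImplicit false

namespace Pool.Agent.TOR96

open Pool.Agent.TOR.H58 Finsupp

variable {F : Type*} [Group F]

/-- vertices orthogonal to the functional f and to the homology class of w -/
def gd (f : F →* Multiplicative ℤ) (w : F) (v : F × Subgroup F) : Prop :=
  f v.1 = 1 ∧ w ∈ v.2 ⊔ commutator F

/-- an element without coordinate at x -/
theorem IsB.mem_of_coord {b : Set F} (hb : IsB b) {x : F}
    {χ : F →* Multiplicative ℤ} (h1 : χ x = Multiplicative.ofAdd 1)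
    (h2 : ∀ y ∈ b, y ≠ x → χ y = 1) {g : F} (hg : χ g = 1) :
    g ∈ Subgroup.closure (b \ {x}) ⊔ commutator F := by
  classical
  obtain ⟨r, hr⟩ := hb.hom_exists (fun y => if y = x then (1 : F) else y)
  let A : F →* Abelianization F := Abelianization.of
  let B : F →* Abelianization F := (Abelianization.of.comp r) *
    ((zpowersHom (Abelianization F) (Abelianization.of x)).comp χ)
  have hAB : A = B := by
    refine hb.hom_ext _ _ fun y hy => ?_
    change Abelianization.of y = Abelianization.of (r y) *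
      (zpowersHom (Abelianization F) (Abelianization.of x)) (χ y)
    rw [hr y hy]
    by_cases h : y = x
    · rw [if_pos h, h, h1, map_one, one_mul, zpowersHom_apply]
      simp
    · rw [if_neg h, h2 y hy h, map_one, mul_one]
  have h3 := DFunLike.congr_fun hAB g
  change Abelianization.of g = Abelianization.of (r g) *
      (zpowersHom (Abelianization F) (Abelianization.of x)) (χ g) at h3
  rw [hg, map_one, mul_one] at h3
  have h4 : (r g)⁻¹ * g ∈ commutator F := by
    rw [← Abelianization.ker_of, MonoidHom.mem_ker, map_mul, map_inv, h3, inv_mul_cancel]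
  have h5 : r g ∈ Subgroup.closure (b \ {x}) := by
    have h6 : Subgroup.closure b ≤ (Subgroup.closure (b \ {x})).comap r := by
      rw [Subgroup.closure_le]
      intro y hy
      change r y ∈ Subgroup.closure (b \ {x})
      rw [hr y hy]
      split_ifs with h
      · exact Subgroup.one_mem _
      · exact Subgroup.subset_closure ⟨hy, h⟩
    rw [hb.closure] at h6
    exact h6 (Subgroup.mem_top g)
  have h6 : g = r g * ((r g)⁻¹ * g) := by group
  rw [h6]
  exact Subgroup.mul_mem_sup h5 h4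

/-- automorphisms which change only a part of a basis -/
def AT (b T : Set F) (φ : F ≃* F) : Prop :=
  (∀ x ∈ b \ T, φ x = x) ∧ (Subgroup.closure T).map φ.toMonoidHom = Subgroup.closure T

theorem AT.comp {b T : Set F} {φ ε : F ≃* F} (h1 : AT b T φ) (h2 : AT b T ε) :
    AT b T (ε.trans φ) := by
  refine ⟨fun x hx => ?_, ?_⟩
  · change φ (ε x) = x
    rw [h2.1 x hx, h1.1 x hx]
  · have : (ε.trans φ).toMonoidHom = φ.toMonoidHom.comp ε.toMonoidHom := rfl
    rw [this, ← Subgroup.map_map, h2.2, h1.2]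

theorem AT.refl (b T : Set F) : AT b T (MulEquiv.refl F) :=
  ⟨fun _ _ => rfl, Subgroup.map_id _⟩

/-- elementary moves -/
theorem exists_move {b T : Set F} (hb : IsB b) (hT : T ⊆ b) {s t : F} (hs : s ∈ T) (ht : t ∈ T)
    (hst : s ≠ t) (k : ℤ) : ∃ ε : F ≃* F, AT b T ε ∧ ε s = s * t ^ k ∧ ε.symm s = s * t ^ (-k) ∧
      (∀ x ∈ b, x ≠ s → ε x = x) ∧ (∀ x ∈ b, x ≠ s → ε.symm x = x) := by
  have h0 : t ∈ Subgroup.closure (b \ {s}) :=
    Subgroup.subset_closure ⟨hT ht, fun h => hst h.symm⟩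
  obtain ⟨ε, h1, h2⟩ := hb.auto (hT hs) 1 (t ^ k) (Subgroup.one_mem _)
    (Subgroup.zpow_mem _ h0 k)
  rw [one_mul] at h1
  have h3 : ∀ x ∈ b, x ≠ s → ε x = x := fun x hx hxs =>
    h2 x (Subgroup.subset_closure ⟨hx, hxs⟩)
  have h4 : ε t = t := h3 t (hT ht) (fun h => hst h.symm)
  have h5 : ε.symm s = s * t ^ (-k) := by
    rw [MulEquiv.symm_apply_eq, map_mul, map_zpow, h1, h4, mul_assoc, ← zpow_add]
    simp
  have h6 : ∀ x ∈ b, x ≠ s → ε.symm x = x := fun x hx hxs => by
    rw [MulEquiv.symm_apply_eq, h3 x hx hxs]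
  refine ⟨ε, ⟨fun x hx => h3 x hx.1 (fun h => hx.2 (h ▸ hs)), ?_⟩, h1, h5, h3, h6⟩
  have hsT : s ∈ Subgroup.closure T := Subgroup.subset_closure hs
  have htT : t ∈ Subgroup.closure T := Subgroup.subset_closure ht
  apply le_antisymm
  · rw [MonoidHom.map_closure, Subgroup.closure_le]
    rintro _ ⟨x, hx, rfl⟩
    change ε x ∈ Subgroup.closure T
    by_cases h : x = s
    · rw [h, h1]
      exact Subgroup.mul_mem _ hsT (Subgroup.zpow_mem _ htT _)
    · rw [h3 x (hT hx) h]
      exact Subgroup.subset_closure hx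
  · rw [Subgroup.closure_le]
    intro x hx
    by_cases h : x = s
    · refine ⟨s * t ^ (-k), Subgroup.mul_mem _ hsT (Subgroup.zpow_mem _ htT _), ?_⟩
      change ε (s * t ^ (-k)) = x
      rw [h, ← h5, MulEquiv.apply_symm_apply]
    · exact ⟨x, Subgroup.subset_closure hx, h3 x (hT hx) h⟩

theorem int_move {a c : ℤ} (hc : c ≠ 0) (h : c.natAbs ≤ a.natAbs) :
    ∃ k : ℤ, (a + k * c).natAbs < a.natAbs := by
  rcases le_total 0 a with ha | ha <;> rcases le_total 0 c with hc' | hc'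
  · exact ⟨-1, by omega⟩
  · exact ⟨1, by omega⟩
  · exact ⟨1, by omega⟩
  · exact ⟨-1, by omega⟩

/-- among three letters there is a handle orthogonal to (w, f) after a change of basis -/
theorem exists_handle {b T : Set F} (hb : IsB b) (hT : T ⊆ b) (hT3 : T.ncard = 3)
    (f : F →* Multiplicative ℤ) (w : F) :
    ∃ (φ : F ≃* F) (t : F), t ∈ T ∧ AT b T φ ∧
      gd f w (φ t, (Subgroup.closure (b \ {t})).map φ.toMonoidHom) := by
  classical
  obtain ⟨t0, t1, t2, h01, h02, h12, hTe⟩ := Set.ncard_eq_three.mp hT3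
  have m0 : t0 ∈ T := by rw [hTe]; simp
  have m1 : t1 ∈ T := by rw [hTe]; simp
  have m2 : t2 ∈ T := by rw [hTe]; simp
  -- coordinates
  have hχ : ∀ x : F, ∃ χ : F →* Multiplicative ℤ, ∀ y ∈ b,
      χ y = if y = x then Multiplicative.ofAdd 1 else 1 := fun x => hb.hom_exists _
  choose χ hχ using hχ
  let a : (F ≃* F) → F → ℤ := fun φ x => Multiplicative.toAdd (f (φ x))
  let c : (F ≃* F) → F → ℤ := fun φ x => Multiplicative.toAdd (χ x (φ.symm w))
  -- effect of the moves
  have mv : ∀ φ : F ≃* F, AT b T φ → ∀ s ∈ T, ∀ t ∈ T, s ≠ t → ∀ k : ℤ,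
      ∃ φ' : F ≃* F, AT b T φ' ∧ a φ' s = a φ s + k * a φ t ∧ (∀ x ∈ b, x ≠ s → a φ' x = a φ x) ∧
        c φ' t = c φ t - k * c φ s ∧ (∀ x ∈ b, x ≠ t → c φ' x = c φ x) := by
    intro φ hφ s hs t ht hst k
    obtain ⟨ε, h1, h2, h3, h4, h5⟩ := exists_move hb hT hs ht hst k
    refine ⟨ε.trans φ, hφ.comp h1, ?_, ?_, ?_, ?_⟩
    · change Multiplicative.toAdd (f (φ (ε s))) = _
      rw [h2, map_mul, map_mul, map_zpow, map_zpow, toAdd_mul, toAdd_zpow, smul_eq_mul]
    · intro x hx hxs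
      change Multiplicative.toAdd (f (φ (ε x))) = _
      rw [h4 x hx hxs]
    · have h6 : (χ t).comp ε.symm.toMonoidHom = χ t * (χ s) ^ (-k) := by
        refine hb.hom_ext _ _ fun x hx => ?_
        change χ t (ε.symm x) = χ t x * (χ s x) ^ (-k)
        by_cases h : x = s
        · rw [h, h3, map_mul, map_zpow, hχ s s (hT hs), hχ t t (hT ht), if_pos rfl, if_pos rfl]
        · rw [h5 x hx h, hχ s x hx, if_neg h, one_zpow, mul_one]
      have h7 := DFunLike.congr_fun h6 (φ.symm w)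
      change χ t (ε.symm (φ.symm w)) = χ t (φ.symm w) * (χ s (φ.symm w)) ^ (-k) at h7
      change Multiplicative.toAdd (χ t (ε.symm (φ.symm w))) = _
      rw [h7, toAdd_mul, toAdd_zpow, smul_eq_mul]
      change c φ t + -k * c φ s = _
      ring
    · intro x hx hxt
      have h6 : (χ x).comp ε.symm.toMonoidHom = χ x := by
        refine hb.hom_ext _ _ fun y hy => ?_
        change χ x (ε.symm y) = χ x y
        by_cases h : y = s
        · rw [h, h3, map_mul, map_zpow, hχ x t (hT ht), if_neg (fun h => hxt h.symm), one_zpow,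
            mul_one]
        · rw [h5 y hy h]
      have h7 := DFunLike.congr_fun h6 (φ.symm w)
      exact congrArg Multiplicative.toAdd h7
  -- stage 1
  obtain ⟨φ, hφ, hmin⟩ := (measure (fun φ : F ≃* F =>
    (a φ t0).natAbs + (a φ t1).natAbs + (a φ t2).natAbs)).wf.has_min {φ | AT b T φ}
    ⟨_, AT.refl b T⟩
  have stage1 : ∀ s ∈ T, ∀ t ∈ T, s ≠ t → a φ s = 0 ∨ a φ t = 0 := by
    have key : ∀ s ∈ T, ∀ t ∈ T, s ≠ t → a φ t ≠ 0 → ¬ (a φ t).natAbs ≤ (a φ s).natAbs := by
      intro s hs t ht hst h0 hle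
      obtain ⟨k, hk⟩ := int_move h0 hle
      obtain ⟨φ', h1, h2, h3, _, _⟩ := mv φ hφ s hs t ht hst k
      apply hmin φ' h1
      change (a φ' t0).natAbs + (a φ' t1).natAbs + (a φ' t2).natAbs <
        (a φ t0).natAbs + (a φ t1).natAbs + (a φ t2).natAbs
      have h4 : ∀ x ∈ T, (a φ' x).natAbs ≤ (a φ x).natAbs := by
        intro x hx
        by_cases h : x = s
        · rw [h, h2]; exact hk.le
        · rw [h3 x (hT hx) h]
      have e0 := h4 t0 m0
      have e1 := h4 t1 m1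
      have e2 := h4 t2 m2
      have h5 : (a φ' s).natAbs < (a φ s).natAbs := by rw [h2]; exact hk
      rw [hTe] at hs
      rcases hs with rfl | rfl | rfl <;> omega
    intro s hs t ht hst
    by_contra hcon
    push Not at hcon
    rcases le_total (a φ t).natAbs (a φ s).natAbs with h | h
    · exact key s hs t ht hst hcon.2 h
    · exact key t ht s hs (fun h => hst h.symm) hcon.1 h
  have hst : ∃ s ∈ T, ∃ t ∈ T, s ≠ t ∧ a φ s = 0 ∧ a φ t = 0 := by
    by_cases h : a φ t0 = 0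
    · rcases stage1 t1 m1 t2 m2 h12 with h' | h'
      · exact ⟨t0, m0, t1, m1, h01, h, h'⟩
      · exact ⟨t0, m0, t2, m2, h02, h, h'⟩
    · exact ⟨t1, m1, t2, m2, h12, (stage1 t0 m0 t1 m1 h01).resolve_left h,
        (stage1 t0 m0 t2 m2 h02).resolve_left h⟩
  obtain ⟨s, hs, t, ht, hst, has, hat⟩ := hst
  -- stage 2
  obtain ⟨ψ, ⟨hψ, hψs, hψt⟩, hmin2⟩ := (measure (fun φ : F ≃* F =>
    (c φ s).natAbs + (c φ t).natAbs)).wf.has_min {φ | AT b T φ ∧ a φ s = 0 ∧ a φ t = 0}
    ⟨φ, hφ, has, hat⟩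
  have stage2 : c ψ s = 0 ∨ c ψ t = 0 := by
    have key : ∀ s' ∈ T, ∀ t' ∈ T, s' ≠ t' → a ψ s' = 0 → a ψ t' = 0 → c ψ s' ≠ 0 →
        ((s' = s ∧ t' = t) ∨ (s' = t ∧ t' = s)) → ¬ (c ψ s').natAbs ≤ (c ψ t').natAbs := by
      intro s' hs' t' ht' hst' h0 h0' hc hor hle
      obtain ⟨k, hk⟩ := int_move hc hle
      obtain ⟨φ', h1, h2, h3, h4, h5⟩ := mv ψ hψ s' hs' t' ht' hst' (-k)
      have h6 : a φ' s' = 0 := by rw [h2, h0, h0']; ring
      have h7 : a φ' t' = 0 := by rw [h3 t' (hT ht') (fun h => hst' h.symm), h0']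
      have h8 : c φ' s' = c ψ s' := h5 s' (hT hs') hst'
      have h9 : (c φ' t').natAbs < (c ψ t').natAbs := by
        rw [h4]
        have : c ψ t' - -k * c ψ s' = c ψ t' + k * c ψ s' := by ring
        rw [this]
        exact hk
      rcases hor with ⟨rfl, rfl⟩ | ⟨rfl, rfl⟩
      · refine hmin2 φ' ⟨h1, h6, h7⟩ ?_
        change (c φ' s').natAbs + (c φ' t').natAbs < (c ψ s').natAbs + (c ψ t').natAbs
        rw [h8]; omega
      · refine hmin2 φ' ⟨h1, h7, h6⟩ ?_
        change (c φ' t').natAbs + (c φ' s').natAbs < (c ψ t').natAbs + (c ψ s').natAbs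
        rw [h8]; omega
    by_contra hcon
    push Not at hcon
    rcases le_total (c ψ s).natAbs (c ψ t).natAbs with h | h
    · exact key s hs t ht hst hψs hψt hcon.1 (Or.inl ⟨rfl, rfl⟩) h
    · exact key t ht s hs (fun h => hst h.symm) hψt hψs hcon.2 (Or.inr ⟨rfl, rfl⟩) h
  have hx : ∃ x ∈ T, a ψ x = 0 ∧ c ψ x = 0 := by
    rcases stage2 with h | h
    · exact ⟨s, hs, hψs, h⟩
    · exact ⟨t, ht, hψt, h⟩
  obtain ⟨x, hxT, hax, hcx⟩ := hx
  refine ⟨ψ, x, hxT, hψ, ?_, ?_⟩
  · exact toAdd_eq_zero.mp hax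
  · have h1 : χ x (ψ.symm w) = 1 := toAdd_eq_zero.mp hcx
    have h2 := hb.mem_of_coord (x := x) (χ := χ x)
      (by rw [hχ x x (hT hxT), if_pos rfl]) (fun y hy h => by rw [hχ x y hy, if_neg h]) h1
    have h3 : (commutator F).map ψ.toMonoidHom ≤ commutator F := by
      rw [Subgroup.map_le_iff_le_comap]
      intro y hy
      have h4 : (commutator F).comap ψ.toMonoidHom = commutator F :=
        (inferInstance : (commutator F).Characteristic).fixed ψ
      rw [h4]
      exact hy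
    have h4 : ψ (ψ.symm w) ∈ (Subgroup.closure (b \ {x}) ⊔ commutator F).map ψ.toMonoidHom :=
      ⟨_, h2, rfl⟩
    rw [MulEquiv.apply_symm_apply, Subgroup.map_sup] at h4
    exact (sup_le_sup_left h3 _) h4

end Pool.Agent.TOR96
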