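import Pool.Agent.Helper96_TOR.StdS
import Pool.Agent.Helper96_TOR.Euc
import Pool.Agent.Helper29_TOR.If3

/-! The stabiliser of the boundary word acts transitively on primitive homology classes. -/

set_option autoImplicit false

namespace Pool.Agent.TOR96

open Pool.Agent.TOR.H59 Pool.Agent.TOR.H29

/-! ### automorphisms supported in a block of handles -/

/-- extension of an automorphism of a block of s handles -/
theorem exists_block (i s r : ℕ) (ψ : MulAut (FreeGroup (Fin 2 × Fin s)))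
    (hψ : ψ (zeta s) = zeta s) :
    ∃ Ψ : MulAut (FreeGroup (Fin 2 × Fin (i + (s + r)))),
      Ψ (zeta (i + (s + r))) = zeta (i + (s + r)) ∧
      (∀ w, Ψ (FreeGroup.map (fun x => hiE i (s + r) (loE s r x)) w) =
        FreeGroup.map (fun x => hiE i (s + r) (loE s r x)) (ψ w)) ∧
      ∀ x, (∀ y, hiE i (s + r) (loE s r y) ≠ x) → Ψ (FreeGroup.of x) = FreeGroup.of x := by
  have h1 : Pool.Agent.TST.upE (loE s r) ψ (zeta (s + r)) = zeta (s + r) := by
    rw [zeta_add, map_mul, Pool.Agent.TST.upE_map, hψ]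
    congr 1
    have : (Pool.Agent.TST.upE (loE s r) ψ : _ ≃* _).toMonoidHom.comp
        (FreeGroup.map (hiE s r)) = FreeGroup.map (hiE s r) := by
      refine FreeGroup.ext_hom _ _ fun x => ?_
      change Pool.Agent.TST.upE (loE s r) ψ (FreeGroup.map (hiE s r) (FreeGroup.of x)) = _
      rw [FreeGroup.map.of]
      refine Pool.Agent.TST.upE_new _ _ _ fun y hy => ?_
      exact (not_hi_iff s r _).mpr ⟨y, rfl⟩ x hy.symm
    exact DFunLike.congr_fun this _
  have h2 := (std_stab i (s + r) (Pool.Agent.TST.upE (hiE i (s + r))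
    (Pool.Agent.TST.upE (loE s r) ψ))).mpr ⟨_, h1, rfl⟩
  refine ⟨_, h2.1, fun w => ?_, fun x hx => ?_⟩
  · have e1 : ∀ w, FreeGroup.map (fun x => hiE i (s + r) (loE s r x)) w =
        FreeGroup.map (hiE i (s + r)) (FreeGroup.map (loE s r) w) := by
      intro w
      rw [FreeGroup.map.comp]
      rfl
    rw [e1, e1, Pool.Agent.TST.upE_map, Pool.Agent.TST.upE_map]
  · by_cases hx1 : ∃ z, hiE i (s + r) z = x
    · obtain ⟨z, rfl⟩ := hx1
      have e1 : (FreeGroup.of (hiE i (s + r) z) : FreeGroup (Fin 2 × Fin (i + (s + r)))) =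
          FreeGroup.map (hiE i (s + r)) (FreeGroup.of z) := by rw [FreeGroup.map.of]
      rw [e1, Pool.Agent.TST.upE_map]
      congr 1
      refine Pool.Agent.TST.upE_new _ _ _ fun y hy => hx y (by rw [hy])
    · push Not at hx1
      exact Pool.Agent.TST.upE_new _ _ _ hx1

theorem zeta_one : zeta 1 = FreeGroup.of ((0 : Fin 2), (0 : Fin 1)) * FreeGroup.of ((1 : Fin 2), 0) *
    (FreeGroup.of ((0 : Fin 2), 0))⁻¹ * (FreeGroup.of ((1 : Fin 2), 0))⁻¹ := by
  unfold zeta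
  simp [List.finRange_succ]

theorem zeta_two : zeta 2 = FreeGroup.of ((0 : Fin 2), (0 : Fin 2)) * FreeGroup.of ((1 : Fin 2), 0) *
    (FreeGroup.of ((0 : Fin 2), 0))⁻¹ * (FreeGroup.of ((1 : Fin 2), 0))⁻¹ *
    (FreeGroup.of ((0 : Fin 2), (1 : Fin 2)) * FreeGroup.of ((1 : Fin 2), 1) *
    (FreeGroup.of ((0 : Fin 2), 1))⁻¹ * (FreeGroup.of ((1 : Fin 2), 1))⁻¹) := by
  unfold zeta
  simp [List.finRange_succ]

/-- x ↦ x y^k in one handle -/
theorem tw1 (j r : ℕ) (k : ℤ) (n : ℕ) (hn : n = j + (1 + r)) (i : Fin n) (hi : i.val = j) :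
    ∃ Ψ : MulAut (FreeGroup (Fin 2 × Fin n)), Ψ (zeta n) = zeta n ∧
      Ψ (FreeGroup.of (0, i)) = FreeGroup.of (0, i) * FreeGroup.of (1, i) ^ k ∧
      ∀ x, x ≠ (0, i) → Ψ (FreeGroup.of x) = FreeGroup.of x := by
  subst hn
  have hi' : i = Fin.natAdd j (Fin.castAdd r 0) := Fin.ext (by simp [hi])
  subst hi'
  have hb := isB_of (Fin 2 × Fin 1)
  have hm : (FreeGroup.of ((1 : Fin 2), (0 : Fin 1))) ∈ Subgroup.closure
      (Set.range (FreeGroup.of : Fin 2 × Fin 1 → FreeGroup (Fin 2 × Fin 1)) \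
        {FreeGroup.of (0, 0)}) :=
    Subgroup.subset_closure ⟨⟨_, rfl⟩, fun h => by
      have := FreeGroup.of_injective h
      simp at this⟩
  obtain ⟨ψ, h1, h2⟩ := hb.auto (η := FreeGroup.of ((0 : Fin 2), (0 : Fin 1))) ⟨_, rfl⟩ 1
    (FreeGroup.of (1, 0) ^ k) (Subgroup.one_mem _) (Subgroup.zpow_mem _ hm k)
  have h3 : ψ (FreeGroup.of (1, 0)) = FreeGroup.of (1, 0) := h2 _ hm
  rw [one_mul] at h1
  have h4 : ψ (zeta 1) = zeta 1 := by
    rw [zeta_one]
    simp only [map_mul, map_inv, h1, h3]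
    group
  obtain ⟨Ψ, g1, g2, g3⟩ := exists_block j 1 r ψ h4
  refine ⟨Ψ, g1, ?_, ?_⟩
  · have e := g2 (FreeGroup.of (0, 0))
    rw [h1, FreeGroup.map.of, map_mul, map_zpow, FreeGroup.map.of, FreeGroup.map.of] at e
    exact e
  · rintro ⟨a, l⟩ hx
    by_cases hl : l = Fin.natAdd j (Fin.castAdd r 0)
    · subst hl
      have ha : a = 1 := by
        fin_cases a
        · exact absurd rfl hx
        · rfl
      subst ha
      have e := g2 (FreeGroup.of (1, 0))
      rw [h3, FreeGroup.map.of] at e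
      exact e
    · refine g3 _ ?_
      rintro ⟨b, z⟩ h
      apply hl
      have h5 := congrArg Prod.snd h
      have hz : z = 0 := Subsingleton.elim _ _
      subst hz
      exact h5.symm

/-- y ↦ y x^k in one handle -/
theorem tw2 (j r : ℕ) (k : ℤ) (n : ℕ) (hn : n = j + (1 + r)) (i : Fin n) (hi : i.val = j) :
    ∃ Ψ : MulAut (FreeGroup (Fin 2 × Fin n)), Ψ (zeta n) = zeta n ∧
      Ψ (FreeGroup.of (1, i)) = FreeGroup.of (1, i) * FreeGroup.of (0, i) ^ k ∧
      ∀ x, x ≠ (1, i) → Ψ (FreeGroup.of x) = FreeGroup.of x := by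
  subst hn
  have hi' : i = Fin.natAdd j (Fin.castAdd r 0) := Fin.ext (by simp [hi])
  subst hi'
  have hb := isB_of (Fin 2 × Fin 1)
  have hm : (FreeGroup.of ((0 : Fin 2), (0 : Fin 1))) ∈ Subgroup.closure
      (Set.range (FreeGroup.of : Fin 2 × Fin 1 → FreeGroup (Fin 2 × Fin 1)) \
        {FreeGroup.of (1, 0)}) :=
    Subgroup.subset_closure ⟨⟨_, rfl⟩, fun h => by
      have := FreeGroup.of_injective h
      simp at this⟩
  obtain ⟨ψ, h1, h2⟩ := hb.auto (η := FreeGroup.of ((1 : Fin 2), (0 : Fin 1))) ⟨_, rfl⟩ 1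
    (FreeGroup.of (0, 0) ^ k) (Subgroup.one_mem _) (Subgroup.zpow_mem _ hm k)
  have h3 : ψ (FreeGroup.of (0, 0)) = FreeGroup.of (0, 0) := h2 _ hm
  rw [one_mul] at h1
  have h4 : ψ (zeta 1) = zeta 1 := by
    rw [zeta_one]
    simp only [map_mul, map_inv, h1, h3]
    group
  obtain ⟨Ψ, g1, g2, g3⟩ := exists_block j 1 r ψ h4
  refine ⟨Ψ, g1, ?_, ?_⟩
  · have e := g2 (FreeGroup.of (1, 0))
    rw [h1, FreeGroup.map.of, map_mul, map_zpow, FreeGroup.map.of, FreeGroup.map.of] at e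
    exact e
  · rintro ⟨a, l⟩ hx
    by_cases hl : l = Fin.natAdd j (Fin.castAdd r 0)
    · subst hl
      have ha : a = 0 := by
        fin_cases a
        · rfl
        · exact absurd rfl hx
      subst ha
      have e := g2 (FreeGroup.of (0, 0))
      rw [h3, FreeGroup.map.of] at e
      exact e
    · refine g3 _ ?_
      rintro ⟨b, z⟩ h
      apply hl
      have h5 := congrArg Prod.snd h
      have hz : z = 0 := Subsingleton.elim _ _
      subst hz
      exact h5.symm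

/-- the automorphism of two handles -/
theorem two_handles : ∃ ψ : MulAut (FreeGroup (Fin 2 × Fin 2)), ψ (zeta 2) = zeta 2 ∧
    ψ (FreeGroup.of (0, 0)) = FreeGroup.of (0, 0) * ((FreeGroup.of (1, 0))⁻¹ *
      FreeGroup.of (0, 1) * FreeGroup.of (1, 1) * (FreeGroup.of (0, 1))⁻¹) ∧
    ψ (FreeGroup.of (1, 0)) = ((FreeGroup.of (1, 0))⁻¹ *
      FreeGroup.of (0, 1) * FreeGroup.of (1, 1) * (FreeGroup.of (0, 1))⁻¹)⁻¹ *
      FreeGroup.of (1, 0) * ((FreeGroup.of (1, 0))⁻¹ *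
      FreeGroup.of (0, 1) * FreeGroup.of (1, 1) * (FreeGroup.of (0, 1))⁻¹) ∧
    ψ (FreeGroup.of (0, 1)) = ((FreeGroup.of (1, 0))⁻¹ *
      FreeGroup.of (0, 1) * FreeGroup.of (1, 1) * (FreeGroup.of (0, 1))⁻¹)⁻¹ *
      FreeGroup.of (0, 1) ∧
    ψ (FreeGroup.of (1, 1)) = FreeGroup.of (1, 1) := by
  set x0 : FreeGroup (Fin 2 × Fin 2) := FreeGroup.of (0, 0) with hx0
  set y0 : FreeGroup (Fin 2 × Fin 2) := FreeGroup.of (1, 0) with hy0
  set x1 : FreeGroup (Fin 2 × Fin 2) := FreeGroup.of (0, 1) with hx1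
  set y1 : FreeGroup (Fin 2 × Fin 2) := FreeGroup.of (1, 1) with hy1
  set c : FreeGroup (Fin 2 × Fin 2) := y0⁻¹ * x1 * y1 * x1⁻¹ with hc
  let fF : Fin 2 × Fin 2 → FreeGroup (Fin 2 × Fin 2) := fun z =>
    if z = (0, 0) then x0 * c else if z = (1, 0) then c⁻¹ * y0 * c else
      if z = (0, 1) then c⁻¹ * x1 else y1
  let gF : Fin 2 × Fin 2 → FreeGroup (Fin 2 × Fin 2) := fun z =>
    if z = (0, 0) then x0 * c⁻¹ else if z = (1, 0) then c * y0 * c⁻¹ else
      if z = (0, 1) then c * x1 else y1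
  have f1 : FreeGroup.lift fF x0 = x0 * c := by rw [hx0, FreeGroup.lift_apply_of]; rfl
  have f2 : FreeGroup.lift fF y0 = c⁻¹ * y0 * c := by rw [hy0, FreeGroup.lift_apply_of]; rfl
  have f3 : FreeGroup.lift fF x1 = c⁻¹ * x1 := by rw [hx1, FreeGroup.lift_apply_of]; rfl
  have f4 : FreeGroup.lift fF y1 = y1 := by rw [hy1, FreeGroup.lift_apply_of]; rfl
  have f5 : FreeGroup.lift fF c = c := by
    conv_lhs => rw [hc]
    simp only [map_mul, map_inv, f2, f3, f4]
    have : (c⁻¹ * y0 * c)⁻¹ * (c⁻¹ * x1) * y1 * (c⁻¹ * x1)⁻¹ =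
      c⁻¹ * (y0⁻¹ * x1 * y1 * x1⁻¹) * c := by group
    rw [this, ← hc]
    group
  have g1 : FreeGroup.lift gF x0 = x0 * c⁻¹ := by rw [hx0, FreeGroup.lift_apply_of]; rfl
  have g2 : FreeGroup.lift gF y0 = c * y0 * c⁻¹ := by rw [hy0, FreeGroup.lift_apply_of]; rfl
  have g3 : FreeGroup.lift gF x1 = c * x1 := by rw [hx1, FreeGroup.lift_apply_of]; rfl
  have g4 : FreeGroup.lift gF y1 = y1 := by rw [hy1, FreeGroup.lift_apply_of]; rfl
  have g5 : FreeGroup.lift gF c = c := by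
    conv_lhs => rw [hc]
    simp only [map_mul, map_inv, g2, g3, g4]
    have : (c * y0 * c⁻¹)⁻¹ * (c * x1) * y1 * (c * x1)⁻¹ =
      c * (y0⁻¹ * x1 * y1 * x1⁻¹) * c⁻¹ := by group
    rw [this, ← hc]
    group
  have hall : ∀ z : Fin 2 × Fin 2, z = (0, 0) ∨ z = (1, 0) ∨ z = (0, 1) ∨ z = (1, 1) := by
    decide
  have e1 : (FreeGroup.lift gF).comp (FreeGroup.lift fF) = MonoidHom.id _ := by
    refine FreeGroup.ext_hom _ _ fun z => ?_
    rcases hall z with h | h | h | h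
    · rw [h, MonoidHom.comp_apply, ← hx0, f1, map_mul, g1, g5]
      simp
    · rw [h, MonoidHom.comp_apply, ← hy0, f2, map_mul, map_mul, map_inv, g2, g5, MonoidHom.id_apply]
      group
    · rw [h, MonoidHom.comp_apply, ← hx1, f3, map_mul, map_inv, g3, g5]
      simp
    · rw [h, MonoidHom.comp_apply, ← hy1, f4, g4]
      rfl
  have e2 : (FreeGroup.lift fF).comp (FreeGroup.lift gF) = MonoidHom.id _ := by
    refine FreeGroup.ext_hom _ _ fun z => ?_
    rcases hall z with h | h | h | h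
    · rw [h, MonoidHom.comp_apply, ← hx0, g1, map_mul, map_inv, f1, f5]
      simp
    · rw [h, MonoidHom.comp_apply, ← hy0, g2, map_mul, map_mul, map_inv, f2, f5, MonoidHom.id_apply]
      group
    · rw [h, MonoidHom.comp_apply, ← hx1, g3, map_mul, f3, f5]
      simp
    · rw [h, MonoidHom.comp_apply, ← hy1, g4, f4]
      rfl
  refine ⟨MonoidHom.toMulEquiv (FreeGroup.lift fF) (FreeGroup.lift gF) e1 e2, ?_, f1, f2, f3, f4⟩
  change FreeGroup.lift fF (zeta 2) = zeta 2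
  rw [zeta_two, ← hx0, ← hy0, ← hx1, ← hy1]
  simp only [map_mul, map_inv, f1, f2, f3, f4]
  have h1 : x0 * c * (c⁻¹ * y0 * c) * (x0 * c)⁻¹ * (c⁻¹ * y0 * c)⁻¹ *
      (c⁻¹ * x1 * y1 * (c⁻¹ * x1)⁻¹ * y1⁻¹) =
      x0 * y0 * x0⁻¹ * c⁻¹ * (y0⁻¹ * x1 * y1 * x1⁻¹) * c * y1⁻¹ := by group
  rw [h1, ← hc]
  have h2 : x0 * y0 * x0⁻¹ * c⁻¹ * c * c * y1⁻¹ = x0 * y0 * x0⁻¹ * c * y1⁻¹ := by group
  rw [h2, hc]
  group

/-- the automorphism of two neighbouring handles -/
theorem tw3 (j r : ℕ) (n : ℕ) (hn : n = j + (2 + r)) (i i' : Fin n) (hi : i.val = j)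
    (hi' : i'.val = j + 1) :
    ∃ Ψ : MulAut (FreeGroup (Fin 2 × Fin n)), Ψ (zeta n) = zeta n ∧
      ev (Ψ (FreeGroup.of (0, i))) = ev (FreeGroup.of (0, i)) +
        (ev (FreeGroup.of (1, i')) - ev (FreeGroup.of (1, i))) ∧
      ev (Ψ (FreeGroup.of (0, i'))) = ev (FreeGroup.of (0, i')) -
        (ev (FreeGroup.of (1, i')) - ev (FreeGroup.of (1, i))) ∧
      ∀ x, x ≠ (0, i) → x ≠ (0, i') → ev (Ψ (FreeGroup.of x)) = ev (FreeGroup.of x) := by
  subst hn
  have e0 : i = Fin.natAdd j (Fin.castAdd r 0) := Fin.ext (by simp [hi])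
  have e1 : i' = Fin.natAdd j (Fin.castAdd r 1) := Fin.ext (by simp [hi'])
  subst e0
  subst e1
  obtain ⟨ψ, h0, h1, h2, h3, h4⟩ := two_handles
  obtain ⟨Ψ, g1, g2, g3⟩ := exists_block j 2 r ψ h0
  have k1 := g2 (FreeGroup.of (0, 0))
  have k2 := g2 (FreeGroup.of (1, 0))
  have k3 := g2 (FreeGroup.of (0, 1))
  have k4 := g2 (FreeGroup.of (1, 1))
  rw [h1] at k1
  rw [h2] at k2
  rw [h3] at k3
  rw [h4] at k4
  simp only [map_mul, map_inv, FreeGroup.map.of] at k1 k2 k3 k4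
  have c1 : hiE j (2 + r) (loE 2 r (0, 0)) = (0, Fin.natAdd j (Fin.castAdd r 0)) := rfl
  have c2 : hiE j (2 + r) (loE 2 r (1, 0)) = (1, Fin.natAdd j (Fin.castAdd r 0)) := rfl
  have c3 : hiE j (2 + r) (loE 2 r (0, 1)) = (0, Fin.natAdd j (Fin.castAdd r 1)) := rfl
  have c4 : hiE j (2 + r) (loE 2 r (1, 1)) = (1, Fin.natAdd j (Fin.castAdd r 1)) := rfl
  rw [c1, c2, c3, c4] at k1
  rw [c2, c3, c4] at k2
  rw [c2, c3, c4] at k3
  rw [c4] at k4
  refine ⟨Ψ, g1, ?_, ?_, ?_⟩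
  · rw [k1]
    simp only [ev_mul, ev_inv]
    abel
  · rw [k3]
    simp only [ev_mul, ev_inv]
    abel
  · rintro ⟨a, l⟩ hx hx'
    by_cases hl : l = Fin.natAdd j (Fin.castAdd r 0)
    · subst hl
      have ha : a = 1 := by
        fin_cases a
        · exact absurd rfl hx
        · rfl
      subst ha
      rw [k2]
      simp only [ev_mul, ev_inv]
      abel
    · by_cases hl' : l = Fin.natAdd j (Fin.castAdd r 1)
      · subst hl'
        have ha : a = 1 := by
          fin_cases a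
          · exact absurd rfl hx'
          · rfl
        subst ha
        rw [k4]
      · rw [g3]
        rintro ⟨b, z⟩ h
        have h5 := congrArg Prod.snd h
        fin_cases z
        · exact hl h5.symm
        · exact hl' h5.symm


/-! ### the action on homology -/

section act
variable {n : ℕ}

/-- equivalence of homology classes under the stabiliser of the boundary word -/
def Rv (v v' : Fin 2 × Fin n → ℤ) : Prop :=
  ∃ φ : MulAut (FreeGroup (Fin 2 × Fin n)), φ (zeta n) = zeta n ∧ ∀ g, ev g = v → ev (φ g) = v'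

theorem ev_auto {φ : MulAut (FreeGroup (Fin 2 × Fin n))} {g h : FreeGroup (Fin 2 × Fin n)}
    (e : ev g = ev h) : ev (φ g) = ev (φ h) := by
  rw [← ab_iff_ev] at e ⊢
  have := congrArg (Abelianization.map φ.toMonoidHom) e
  rwa [Abelianization.map_of, Abelianization.map_of] at this

theorem ev_surj (v : Fin 2 × Fin n → ℤ) : ∃ g : FreeGroup (Fin 2 × Fin n), ev g = v := by
  classical
  have h : ∀ s : Finset (Fin 2 × Fin n), ∃ g : FreeGroup (Fin 2 × Fin n),
      ev g = ∑ x ∈ s, v x • ev (FreeGroup.of x) := by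
    intro s
    induction s using Finset.induction_on with
    | empty => exact ⟨1, by rw [ev_one, Finset.sum_empty]⟩
    | insert a s ha ih =>
      obtain ⟨g, hg⟩ := ih
      refine ⟨FreeGroup.of a ^ v a * g, ?_⟩
      rw [ev_mul, hg, Finset.sum_insert ha]
      congr 1
      unfold ev
      rw [map_zpow]
      rfl
  obtain ⟨g, hg⟩ := h Finset.univ
  refine ⟨g, ?_⟩
  rw [hg]
  ext y
  simp [ev_of, Finset.sum_apply, Pi.single_apply]

theorem Rv.refl (v : Fin 2 × Fin n → ℤ) : Rv v v := ⟨1, rfl, fun _ h => h⟩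

theorem Rv.trans {u v w : Fin 2 × Fin n → ℤ} (h : Rv u v) (h' : Rv v w) : Rv u w := by
  obtain ⟨φ, h1, h2⟩ := h
  obtain ⟨ψ, g1, g2⟩ := h'
  refine ⟨ψ * φ, ?_, fun g hg => g2 _ (h2 g hg)⟩
  change ψ (φ _) = _
  rw [h1, g1]

theorem Rv.symm {u v : Fin 2 × Fin n → ℤ} (h : Rv u v) : Rv v u := by
  obtain ⟨φ, h1, h2⟩ := h
  refine ⟨φ⁻¹, ?_, fun g hg => ?_⟩
  · conv_lhs => rw [← h1]
    exact MulAut.inv_apply_self _ _ _
  · obtain ⟨f, hf⟩ := ev_surj u
    have e : ev (φ f) = ev g := by rw [h2 f hf, hg]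
    have e2 := ev_auto (φ := φ⁻¹) e
    rw [MulAut.inv_apply_self] at e2
    rw [← e2, hf]

theorem ev_lin (Ψ : MulAut (FreeGroup (Fin 2 × Fin n))) (l : Fin 2 × Fin n → ℤ)
    (u : Fin 2 × Fin n → ℤ) (h : ∀ x, ev (Ψ (FreeGroup.of x)) = ev (FreeGroup.of x) + l x • u)
    (g : FreeGroup (Fin 2 × Fin n)) : ev (Ψ g) = ev g + (∑ x, l x * ev g x) • u := by
  induction g using FreeGroup.induction_on with
  | C1 => simp [ev_one]
  | of x =>
    rw [h x, ev_of]
    simp [Pi.single_apply]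
  | inv_of x hx =>
    have e1 : ev (FreeGroup.of x)⁻¹ = - ev (FreeGroup.of x) := ev_inv _
    rw [map_inv, ev_inv, hx, e1]
    simp [Pi.neg_apply, Finset.sum_neg_distrib]
    abel
  | mul x y hx hy =>
    rw [map_mul, ev_mul, hx, hy, ev_mul]
    simp only [Pi.add_apply, mul_add, Finset.sum_add_distrib, add_smul]
    abel

theorem Rv.lin {Ψ : MulAut (FreeGroup (Fin 2 × Fin n))} (h0 : Ψ (zeta n) = zeta n)
    (l : Fin 2 × Fin n → ℤ) (u : Fin 2 × Fin n → ℤ)
    (h : ∀ x, ev (Ψ (FreeGroup.of x)) = ev (FreeGroup.of x) + l x • u) (v v' : Fin 2 × Fin n → ℤ)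
    (hv : v' = v + (∑ x, l x * v x) • u) : Rv v v' :=
  ⟨Ψ, h0, fun g hg => by rw [ev_lin Ψ l u h g, hg, hv]⟩

/-- change of the content of a handle -/
def st (v : Fin 2 × Fin n → ℤ) (i : Fin n) (p q : ℤ) : Fin 2 × Fin n → ℤ :=
  fun x => if x.2 = i then (if x.1 = 0 then p else q) else v x

theorem st_self (v : Fin 2 × Fin n → ℤ) (i : Fin n) : st v i (v (0, i)) (v (1, i)) = v := by
  ext ⟨a, j⟩
  unfold st
  by_cases hj : j = i
  · subst hj
    rcases (by decide +revert : a = 0 ∨ a = 1) with h | h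
    · subst h; simp
    · subst h; simp
  · simp [hj]

theorem st_st (v : Fin 2 × Fin n → ℤ) (i : Fin n) (p q p' q' : ℤ) :
    st (st v i p q) i p' q' = st v i p' q' := by
  ext x
  unfold st
  by_cases hj : x.2 = i <;> simp [hj]

theorem st_comm (v : Fin 2 × Fin n → ℤ) {i j : Fin n} (h : i ≠ j) (p q p' q' : ℤ) :
    st (st v i p q) j p' q' = st (st v j p' q') i p q := by
  ext x
  unfold st
  by_cases hj : x.2 = i
  · have : x.2 ≠ j := fun h' => h (hj.symm.trans h')
    simp [hj, h]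
  · simp [hj]

theorem st_0 (v : Fin 2 × Fin n → ℤ) (i : Fin n) (p q : ℤ) : st v i p q (0, i) = p := by
  simp [st]

theorem st_1 (v : Fin 2 × Fin n → ℤ) (i : Fin n) (p q : ℤ) : st v i p q (1, i) = q := by
  simp [st]

theorem st_ne (v : Fin 2 × Fin n → ℤ) {i j : Fin n} (h : j ≠ i) (p q : ℤ) (a : Fin 2) :
    st v i p q (a, j) = v (a, j) := by
  simp [st, h]

theorem sum_single (w : Fin 2 × Fin n → ℤ) (y : Fin 2 × Fin n) (k : ℤ) :
    ∑ x, (Pi.single y k : Fin 2 × Fin n → ℤ) x * w x = k * w y := by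
  rw [Finset.sum_eq_single y]
  · rw [Pi.single_eq_same]
  · intro x _ hx
    rw [Pi.single_eq_of_ne hx, zero_mul]
  · simp

theorem mT1 (v : Fin 2 × Fin n → ℤ) (i : Fin n) (a b k : ℤ) :
    Rv (st v i a b) (st v i a (b + k * a)) := by
  obtain ⟨Ψ, h0, h1, h2⟩ := tw1 i.val (n - (i.val + 1)) k n (by omega) i rfl
  refine Rv.lin h0 (Pi.single (0, i) k) (ev (FreeGroup.of (1, i))) ?_ _ _ ?_
  · intro x
    by_cases hx : x = (0, i)
    · subst hx
      rw [h1, ev_mul, Pi.single_eq_same]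
      congr 1
      unfold ev
      rw [map_zpow]
      rfl
    · rw [h2 x hx, Pi.single_eq_of_ne hx, zero_smul, add_zero]
  · have e : ∑ x, (Pi.single (0, i) k : Fin 2 × Fin n → ℤ) x * st v i a b x = k * a := by
      rw [sum_single, st_0]
    rw [e, ev_of]
    ext ⟨c, j⟩
    simp only [st, Pi.add_apply, Pi.smul_apply, Pi.single_apply, smul_eq_mul, Prod.mk.injEq]
    by_cases hj : j = i
    · rcases (by decide +revert : c = 0 ∨ c = 1) with h | h <;> subst h <;> simp [hj]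
    · simp [hj]

theorem mT2 (v : Fin 2 × Fin n → ℤ) (i : Fin n) (a b k : ℤ) :
    Rv (st v i a b) (st v i (a + k * b) b) := by
  obtain ⟨Ψ, h0, h1, h2⟩ := tw2 i.val (n - (i.val + 1)) k n (by omega) i rfl
  refine Rv.lin h0 (Pi.single (1, i) k) (ev (FreeGroup.of (0, i))) ?_ _ _ ?_
  · intro x
    by_cases hx : x = (1, i)
    · subst hx
      rw [h1, ev_mul, Pi.single_eq_same]
      congr 1
      unfold ev
      rw [map_zpow]
      rfl
    · rw [h2 x hx, Pi.single_eq_of_ne hx, zero_smul, add_zero]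
  · have e : ∑ x, (Pi.single (1, i) k : Fin 2 × Fin n → ℤ) x * st v i a b x = k * b := by
      rw [sum_single, st_1]
    rw [e, ev_of]
    ext ⟨c, j⟩
    simp only [st, Pi.add_apply, Pi.smul_apply, Pi.single_apply, smul_eq_mul, Prod.mk.injEq]
    by_cases hj : j = i
    · rcases (by decide +revert : c = 0 ∨ c = 1) with h | h <;> subst h <;> simp [hj]
    · simp [hj]

theorem mT3 (v : Fin 2 × Fin n → ℤ) {i i' : Fin n} (hi : i'.val = i.val + 1) (a b a' b' : ℤ) :
    Rv (st (st v i a b) i' a' b') (st (st v i a (b - (a - a'))) i' a' (b' + (a - a'))) := by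
  obtain ⟨Ψ, h0, h1, h2, h3⟩ := tw3 i.val (n - (i.val + 2)) n (by omega) i i' rfl hi
  have hne : i ≠ i' := fun h => by rw [h] at hi; omega
  have hne' : ((0 : Fin 2), i) ≠ (0, i') := fun h => hne (congrArg Prod.snd h)
  refine Rv.lin h0 (Pi.single (0, i) 1 - Pi.single (0, i') 1)
    (ev (FreeGroup.of (1, i')) - ev (FreeGroup.of (1, i))) ?_ _ _ ?_
  · intro x
    by_cases hx : x = (0, i)
    · subst hx
      rw [h1, Pi.sub_apply, Pi.single_eq_same, Pi.single_eq_of_ne hne', sub_zero, one_smul]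
    · by_cases hx' : x = (0, i')
      · subst hx'
        rw [h2, Pi.sub_apply, Pi.single_eq_same, Pi.single_eq_of_ne hne'.symm]
        simp only [zero_sub, neg_smul, one_smul]
        abel
      · rw [h3 x hx hx', Pi.sub_apply, Pi.single_eq_of_ne hx, Pi.single_eq_of_ne hx']
        simp
  · have e : ∑ x, (Pi.single (0, i) 1 - Pi.single (0, i') 1 : Fin 2 × Fin n → ℤ) x *
        st (st v i a b) i' a' b' x = a - a' := by
      simp only [Pi.sub_apply, sub_mul, Finset.sum_sub_distrib, sum_single]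
      rw [st_0, st_ne _ hne, st_0, one_mul, one_mul]
    rw [e, ev_of, ev_of]
    ext ⟨c, j⟩
    simp only [st, Pi.add_apply, Pi.sub_apply, Pi.smul_apply, Pi.single_apply, smul_eq_mul,
      Prod.mk.injEq]
    by_cases hj : j = i
    · subst hj
      rcases (by decide +revert : c = 0 ∨ c = 1) with h | h <;> subst h <;> simp [hne]
      ring
    · by_cases hj' : j = i'
      · subst hj'
        rcases (by decide +revert : c = 0 ∨ c = 1) with h | h <;> subst h <;> simp [hj]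
      · simp [hj, hj']

/-- rotation in one handle -/
theorem mrot (v : Fin 2 × Fin n → ℤ) (i : Fin n) (a b : ℤ) : Rv (st v i a b) (st v i (-b) a) := by
  have h1 := mT2 v i a b (-1)
  have h2 := mT1 v i (a + -1 * b) b 1
  have h3 := mT2 v i (a + -1 * b) (b + 1 * (a + -1 * b)) (-1)
  have e1 : b + 1 * (a + -1 * b) = a := by ring
  rw [e1] at h2 h3
  have e2 : a + -1 * b + -1 * a = -b := by ring
  rw [e2] at h3
  exact (h1.trans h2).trans h3

/-- sign change in one handle -/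
theorem mneg (v : Fin 2 × Fin n → ℤ) (i : Fin n) (a b : ℤ) :
    Rv (st v i a b) (st v i (-a) (-b)) := by
  have h1 := mrot v i a b
  have h2 := mrot v i (-b) a
  exact h1.trans h2

/-- normal forms of one handle -/
theorem one_handle (v : Fin 2 × Fin n → ℤ) (i : Fin n) (h : v (0, i) = 0 ∨ v (1, i) = 0) :
    ∃ p : ℤ, p.natAbs = (v (0, i)).natAbs + (v (1, i)).natAbs ∧ Rv v (st v i p 0) ∧
      Rv v (st v i 0 p) := by
  rcases h with h | h
  · refine ⟨-(v (1, i)), by rw [h]; simp, ?_, ?_⟩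
    · have h1 := mrot v i (v (0, i)) (v (1, i))
      rw [st_self, h] at h1
      exact h1
    · have h1 := mrot v i (v (0, i)) (v (1, i))
      rw [st_self, h] at h1
      have h2 := mrot v i (-(v (1, i))) 0
      rw [neg_zero] at h2
      exact h1.trans h2
  · refine ⟨v (0, i), by rw [h]; simp, ?_, ?_⟩
    · have h1 := Rv.refl v
      have h2 := st_self v i
      rw [h] at h2
      rw [h2]
      exact h1
    · have h1 := mrot v i (v (0, i)) (v (1, i))
      rw [st_self, h, neg_zero] at h1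
      exact h1

/-- two neighbouring handles -/
theorem two_1 (v : Fin 2 × Fin n → ℤ) {i i' : Fin n} (hi : i'.val = i.val + 1) (p q : ℤ) :
    Rv (st (st v i p 0) i' 0 q) (st (st v i p 0) i' 0 (q + p)) := by
  have hne : i ≠ i' := fun h => by rw [h] at hi; omega
  have h1 := mT3 v hi p 0 0 q
  have h2 := mT1 (st v i' 0 (q + p)) i p (0 - (p - 0)) 1
  rw [st_comm _ hne.symm, st_comm _ hne.symm] at h2
  have e1 : 0 - (p - 0) + 1 * p = 0 := by ring
  have e2 : q + (p - 0) = q + p := by ring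
  rw [e1] at h2
  rw [e2] at h1
  exact h1.trans h2

theorem two_1' (v : Fin 2 × Fin n → ℤ) {i i' : Fin n} (hi : i'.val = i.val + 1) (p q : ℤ) :
    Rv (st (st v i p 0) i' 0 q) (st (st v i p 0) i' 0 (q - p)) := by
  have h := (two_1 v hi p (q - p)).symm
  rwa [sub_add_cancel] at h

theorem two_2 (v : Fin 2 × Fin n → ℤ) {i i' : Fin n} (hi : i'.val = i.val + 1) (p q : ℤ) :
    Rv (st (st v i p 0) i' 0 q) (st (st v i (p - q) 0) i' 0 q) := by
  have hne : i ≠ i' := fun h => by rw [h] at hi; omega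
  have h1 : Rv (st (st v i p 0) i' 0 q) (st (st v i 0 p) i' 0 q) := by
    have := mrot (st v i' 0 q) i p 0
    rw [neg_zero, st_comm _ hne.symm, st_comm _ hne.symm] at this
    exact this
  have h2 : Rv (st (st v i 0 p) i' 0 q) (st (st v i 0 p) i' (-q) 0) := mrot _ i' 0 q
  have h3 := mT3 v hi 0 p (-q) 0
  have e1 : p - (0 - -q) = p - q := by ring
  have e2 : (0 : ℤ) + (0 - -q) = q := by ring
  rw [e1, e2] at h3
  have h4 := mT1 (st v i 0 (p - q)) i' (-q) q 1
  have e3 : q + 1 * -q = 0 := by ring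
  rw [e3] at h4
  have h5 : Rv (st (st v i 0 (p - q)) i' (-q) 0) (st (st v i 0 (p - q)) i' 0 q) := by
    have a1 := mrot (st v i 0 (p - q)) i' (-q) 0
    rw [neg_zero] at a1
    have a2 := mneg (st v i 0 (p - q)) i' 0 (-q)
    rw [neg_zero, neg_neg] at a2
    exact a1.trans a2
  have h6 : Rv (st (st v i 0 (p - q)) i' 0 q) (st (st v i (p - q) 0) i' 0 q) := by
    have := mrot (st v i' 0 q) i (p - q) 0
    rw [neg_zero, st_comm _ hne.symm, st_comm _ hne.symm] at this
    exact this.symm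
  exact ((((h1.trans h2).trans h3).trans h4).trans h5).trans h6

theorem two_2' (v : Fin 2 × Fin n → ℤ) {i i' : Fin n} (hi : i'.val = i.val + 1) (p q : ℤ) :
    Rv (st (st v i p 0) i' 0 q) (st (st v i (p + q) 0) i' 0 q) := by
  have h := (two_2 v hi (p + q) q).symm
  rwa [add_sub_cancel_right] at h

/-- the measure -/
def mu (v : Fin 2 × Fin n → ℤ) : ℕ :=
  ∑ i : Fin n, (i.val + 1) * ((v (0, i)).natAbs + (v (1, i)).natAbs)

theorem mu_st (v : Fin 2 × Fin n → ℤ) (i : Fin n) (a b : ℤ) :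
    mu (st v i a b) + (i.val + 1) * ((v (0, i)).natAbs + (v (1, i)).natAbs) =
      mu v + (i.val + 1) * (a.natAbs + b.natAbs) := by
  unfold mu
  rw [← Finset.add_sum_erase _ _ (Finset.mem_univ i), ← Finset.add_sum_erase _
    (fun i : Fin n => (i.val + 1) * ((v (0, i)).natAbs + (v (1, i)).natAbs)) (Finset.mem_univ i)]
  rw [st_0, st_1]
  have : ∑ x ∈ Finset.univ.erase i, (x.val + 1) * ((st v i a b (0, x)).natAbs +
      (st v i a b (1, x)).natAbs) = ∑ x ∈ Finset.univ.erase i, (x.val + 1) *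
        ((v (0, x)).natAbs + (v (1, x)).natAbs) := by
    refine Finset.sum_congr rfl fun x hx => ?_
    rw [st_ne _ (Finset.ne_of_mem_erase hx), st_ne _ (Finset.ne_of_mem_erase hx)]
  rw [this]
  ring

theorem mu_two (v : Fin 2 × Fin n → ℤ) {i i' : Fin n} (hne : i ≠ i') (a b a' b' : ℤ) :
    mu (st (st v i a b) i' a' b') + (i.val + 1) * ((v (0, i)).natAbs + (v (1, i)).natAbs) +
      (i'.val + 1) * ((v (0, i')).natAbs + (v (1, i')).natAbs) =
      mu v + (i.val + 1) * (a.natAbs + b.natAbs) + (i'.val + 1) * (a'.natAbs + b'.natAbs) := by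
  have h1 := mu_st v i a b
  have h2 := mu_st (st v i a b) i' a' b'
  rw [st_ne _ hne.symm, st_ne _ hne.symm] at h2
  omega

theorem int_red {a c : ℤ} (hc : c ≠ 0) (h : c.natAbs ≤ a.natAbs) :
    (a + c).natAbs < a.natAbs ∨ (a - c).natAbs < a.natAbs := by
  rcases le_total 0 a with ha | ha <;> rcases le_total 0 c with hc' | hc' <;> omega

/-- the reduction step -/
theorem step (v : Fin 2 × Fin n → ℤ) (hmin : ∀ v', Rv v v' → mu v ≤ mu v') :
    (∀ i : Fin n, v (0, i) = 0 ∨ v (1, i) = 0) ∧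
      ∀ i : Fin n, i.val ≠ 0 → v (0, i) = 0 ∧ v (1, i) = 0 := by
  have h1 : ∀ i : Fin n, v (0, i) = 0 ∨ v (1, i) = 0 := by
    intro i
    by_contra hc
    push Not at hc
    rcases le_total (v (1, i)).natAbs (v (0, i)).natAbs with hle | hle
    · obtain ⟨k, hk⟩ := int_move hc.2 hle
      have a1 := mT2 v i (v (0, i)) (v (1, i)) k
      rw [st_self] at a1
      have a2 := hmin _ a1
      have a3 := mu_st v i (v (0, i) + k * v (1, i)) (v (1, i))
      have a4 : (i.val + 1) * ((v (0, i) + k * v (1, i)).natAbs + (v (1, i)).natAbs) <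
        (i.val + 1) * ((v (0, i)).natAbs + (v (1, i)).natAbs) :=
        Nat.mul_lt_mul_of_pos_left (by omega) (by omega)
      omega
    · obtain ⟨k, hk⟩ := int_move hc.1 hle
      have a1 := mT1 v i (v (0, i)) (v (1, i)) k
      rw [st_self] at a1
      have a2 := hmin _ a1
      have a3 := mu_st v i (v (0, i)) (v (1, i) + k * v (0, i))
      have a4 : (i.val + 1) * ((v (0, i)).natAbs + (v (1, i) + k * v (0, i)).natAbs) <
        (i.val + 1) * ((v (0, i)).natAbs + (v (1, i)).natAbs) :=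
        Nat.mul_lt_mul_of_pos_left (by omega) (by omega)
      omega
  refine ⟨h1, fun i' hi0 => ?_⟩
  by_contra hq0
  have hq1 : 0 < (v (0, i')).natAbs + (v (1, i')).natAbs := by
    by_contra h
    exact hq0 ⟨by omega, by omega⟩
  obtain ⟨i, hi⟩ : ∃ i : Fin n, i'.val = i.val + 1 :=
    ⟨⟨i'.val - 1, by omega⟩, by simp only; omega⟩
  have hne : i ≠ i' := fun h => by rw [h] at hi; omega
  obtain ⟨p, hp, hp1, hp2⟩ := one_handle v i (h1 i)
  have hst0 : st v i p 0 (0, i') = v (0, i') := st_ne _ hne.symm _ _ _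
  have hst1 : st v i p 0 (1, i') = v (1, i') := st_ne _ hne.symm _ _ _
  obtain ⟨q, hq, hq2, hq3⟩ := one_handle (st v i p 0) i' (by rw [hst0, hst1]; exact h1 i')
  rw [hst0, hst1] at hq
  have hW : Rv v (st (st v i p 0) i' 0 q) := hp1.trans hq3
  -- any other pair
  have key : ∀ p' q' : ℤ, Rv (st (st v i p 0) i' 0 q) (st (st v i p' 0) i' 0 q') →
      (i.val + 1) * p.natAbs + (i.val + 2) * q.natAbs ≤
        (i.val + 1) * p'.natAbs + (i.val + 2) * q'.natAbs := by
    intro p' q' h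
    have a1 := hmin _ (hW.trans h)
    have a2 := mu_two v hne p' 0 0 q'
    rw [← hp, ← hq, hi] at a2
    simp only [Int.natAbs_zero, add_zero, zero_add] at a2
    have e : i.val + 1 + 1 = i.val + 2 := rfl
    rw [e] at a2
    omega
  have hqpos : 0 < q.natAbs := by omega
  have hqne : q ≠ 0 := by omega
  by_cases hp0 : p = 0
  · subst hp0
    have a1 := (two_2' v hi 0 q).trans (two_1' v hi (0 + q) q)
    have e1 : q - (0 + q) = 0 := by ring
    rw [e1, zero_add] at a1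
    have a2 := key _ _ a1
    simp only [Int.natAbs_zero, mul_zero, zero_add, add_zero] at a2
    have a3 : (i.val + 1) * q.natAbs < (i.val + 2) * q.natAbs :=
      Nat.mul_lt_mul_of_pos_right (by omega) hqpos
    omega
  · rcases le_total p.natAbs q.natAbs with hle | hle
    · rcases int_red hp0 hle with hr | hr
      · have a2 := key _ _ (two_1 v hi p q)
        have a3 : (i.val + 2) * (q + p).natAbs < (i.val + 2) * q.natAbs :=
          Nat.mul_lt_mul_of_pos_left hr (by omega)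
        omega
      · have a2 := key _ _ (two_1' v hi p q)
        have a3 : (i.val + 2) * (q - p).natAbs < (i.val + 2) * q.natAbs :=
          Nat.mul_lt_mul_of_pos_left hr (by omega)
        omega
    · rcases int_red hqne hle with hr | hr
      · have a2 := key _ _ (two_2' v hi p q)
        have a3 : (i.val + 1) * (p + q).natAbs < (i.val + 1) * p.natAbs :=
          Nat.mul_lt_mul_of_pos_left hr (by omega)
        omega
      · have a2 := key _ _ (two_2 v hi p q)
        have a3 : (i.val + 1) * (p - q).natAbs < (i.val + 1) * p.natAbs :=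
          Nat.mul_lt_mul_of_pos_left hr (by omega)
        omega

theorem exists_min (v : Fin 2 × Fin n → ℤ) : ∃ v', Rv v v' ∧ ∀ w, Rv v w → mu v' ≤ mu w := by
  classical
  have h : ∃ k, ∃ v', Rv v v' ∧ mu v' = k := ⟨_, v, Rv.refl v, rfl⟩
  obtain ⟨v', h1, h2⟩ := Nat.find_spec h
  refine ⟨v', h1, fun w hw => ?_⟩
  rw [h2]
  exact Nat.find_min' h ⟨w, hw, rfl⟩

/-- transitivity on primitive classes -/
theorem trv (hn : 0 < n) (v : Fin 2 × Fin n → ℤ) (hv : ∃ w, sf v w = 1) :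
    ∃ φ : MulAut (FreeGroup (Fin 2 × Fin n)), φ (zeta n) = zeta n ∧
      ev (φ (FreeGroup.of (0, ⟨0, hn⟩))) = v := by
  obtain ⟨v', h1, h2⟩ := exists_min v
  obtain ⟨h3, h4⟩ := step v' fun w hw => h2 w (h1.trans hw)
  have hv' : ∃ w, sf v' w = 1 := by
    obtain ⟨w, hw⟩ := hv
    obtain ⟨φ, g1, g2⟩ := h1
    obtain ⟨a, ha⟩ := ev_surj v
    obtain ⟨b, hb⟩ := ev_surj w
    refine ⟨ev (φ b), ?_⟩
    rw [← g2 a ha, sf_ap hn φ g1, ha, hb, hw]
  obtain ⟨p, hp, hp1, -⟩ := one_handle v' ⟨0, hn⟩ (h3 _)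
  have he : st v' ⟨0, hn⟩ p 0 = p • ev (FreeGroup.of ((0 : Fin 2), (⟨0, hn⟩ : Fin n))) := by
    rw [ev_of]
    ext ⟨a, j⟩
    simp only [st, Pi.smul_apply, Pi.single_apply, smul_eq_mul, Prod.mk.injEq]
    by_cases hj : j = ⟨0, hn⟩
    · rcases (by decide +revert : a = 0 ∨ a = 1) with h | h <;> subst h <;> simp [hj]
    · have hj' : j.val ≠ 0 := fun h => hj (Fin.ext h)
      obtain ⟨b0, b1⟩ := h4 j hj'
      rcases (by decide +revert : a = 0 ∨ a = 1) with h | h
      · subst h; simp [hj, b0]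
      · subst h; simp [hj, b1]
  rw [he] at hp1
  have hv2 : ∃ w, sf (p • ev (FreeGroup.of ((0 : Fin 2), (⟨0, hn⟩ : Fin n)))) w = 1 := by
    obtain ⟨w, hw⟩ := hv'
    obtain ⟨φ, g1, g2⟩ := hp1
    obtain ⟨a, ha⟩ := ev_surj v'
    obtain ⟨b, hb⟩ := ev_surj w
    refine ⟨ev (φ b), ?_⟩
    rw [← g2 a ha, sf_ap hn φ g1, ha, hb, hw]
  obtain ⟨w, hw⟩ := hv2
  rw [sf_smul_left] at hw
  have hp3 : p = 1 ∨ p = -1 := Int.isUnit_iff.mp (IsUnit.of_mul_eq_one _ hw)
  have hfin : Rv v (ev (FreeGroup.of ((0 : Fin 2), (⟨0, hn⟩ : Fin n)))) := by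
    refine (h1.trans hp1).trans ?_
    rcases hp3 with h | h
    · rw [h, one_smul]
      exact Rv.refl _
    · rw [h]
      have a1 := mneg (0 : Fin 2 × Fin n → ℤ) ⟨0, hn⟩ (-1) 0
      have e : ∀ c : ℤ, st (0 : Fin 2 × Fin n → ℤ) ⟨0, hn⟩ c 0 =
          c • ev (FreeGroup.of ((0 : Fin 2), (⟨0, hn⟩ : Fin n))) := by
        intro c
        rw [ev_of]
        ext ⟨a, j⟩
        simp only [st, Pi.smul_apply, Pi.single_apply, smul_eq_mul, Prod.mk.injEq, Pi.zero_apply]
        by_cases hj : j = ⟨0, hn⟩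
        · rcases (by decide +revert : a = 0 ∨ a = 1) with h | h <;> subst h <;> simp [hj]
        · simp [hj]
      rw [neg_zero, neg_neg, e, e, one_smul] at a1
      exact a1
  obtain ⟨φ, g1, g2⟩ := hfin.symm
  exact ⟨φ, g1, g2 _ rfl⟩

end act

end Pool.Agent.TOR96
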