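import Pool.Agent.Helper96_TOR.Cla

/-! Change of coordinates: a boundary word which contains handle blocks is standard, with the
handles as the first standard handles. -/

set_option autoImplicit false

namespace Pool.Agent.TOR96

open Pool.Agent.TOR.H59

section conj

variable {β : Type}

/-- the commutator of two letters -/
def cab (a b : β) : FreeGroup β := FreeGroup.of a * FreeGroup.of b * (FreeGroup.of a)⁻¹ *
  (FreeGroup.of b)⁻¹

theorem cab_fix {a b : β} (f : FreeGroup β →* FreeGroup β) (h1 : f (FreeGroup.of a) = FreeGroup.of a)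
    (h2 : f (FreeGroup.of b) = FreeGroup.of b) : f (cab a b) = cab a b := by
  unfold cab
  simp only [map_mul, map_inv, h1, h2]

/-- conjugation of the letters by powers of the commutator -/
theorem exists_conj (a b : β) (e : β × Bool → ℤ) (h1 : e (a, true) = 0) (h2 : e (a, false) = 0)
    (h3 : e (b, true) = 0) (h4 : e (b, false) = 0) :
    ∃ θ : FreeGroup β ≃* FreeGroup β,
      (∀ l : β × Bool, θ (lt l) = cab a b ^ (-e l) * lt l * cab a b ^ (e (iv l))) ∧
      θ (cab a b) = cab a b := by
  let f : FreeGroup β →* FreeGroup β := FreeGroup.lift fun x =>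
    cab a b ^ (-e (x, true)) * FreeGroup.of x * cab a b ^ (e (x, false))
  let g : FreeGroup β →* FreeGroup β := FreeGroup.lift fun x =>
    cab a b ^ (e (x, true)) * FreeGroup.of x * cab a b ^ (-e (x, false))
  have fo : ∀ x, f (FreeGroup.of x) =
      cab a b ^ (-e (x, true)) * FreeGroup.of x * cab a b ^ (e (x, false)) := fun x => by
    change FreeGroup.lift _ _ = _
    rw [FreeGroup.lift_apply_of]
  have go : ∀ x, g (FreeGroup.of x) =
      cab a b ^ (e (x, true)) * FreeGroup.of x * cab a b ^ (-e (x, false)) := fun x => by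
    change FreeGroup.lift _ _ = _
    rw [FreeGroup.lift_apply_of]
  have fc : f (cab a b) = cab a b := by
    refine cab_fix f ?_ ?_
    · rw [fo, h1, h2]; simp
    · rw [fo, h3, h4]; simp
  have gc : g (cab a b) = cab a b := by
    refine cab_fix g ?_ ?_
    · rw [go, h1, h2]; simp
    · rw [go, h3, h4]; simp
  have e1 : g.comp f = MonoidHom.id _ := by
    refine FreeGroup.ext_hom _ _ fun x => ?_
    rw [MonoidHom.comp_apply, fo, map_mul, map_mul, map_zpow, map_zpow, gc, go, MonoidHom.id_apply]
    group
  have e2 : f.comp g = MonoidHom.id _ := by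
    refine FreeGroup.ext_hom _ _ fun x => ?_
    rw [MonoidHom.comp_apply, go, map_mul, map_mul, map_zpow, map_zpow, fc, fo, MonoidHom.id_apply]
    group
  refine ⟨MonoidHom.toMulEquiv f g e1 e2, ?_, fc⟩
  rintro ⟨x, s⟩
  cases s
  · have : lt (x, false) = (FreeGroup.of x)⁻¹ := rfl
    rw [this]
    change f (FreeGroup.of x)⁻¹ = _
    rw [map_inv, fo]
    have : iv (x, false) = (x, true) := rfl
    rw [this]
    group
  · exact fo x

end conj

section chain

variable {β : Type} {r : β × Bool → ℕ} {S S' : Set (β × Bool)} {M : ℕ}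

/-- the automorphism on a segment -/
theorem conj_seg {c : FreeGroup β} {e : β × Bool → ℤ} {θ : FreeGroup β ≃* FreeGroup β}
    (hθ : ∀ l : β × Bool, θ (lt l) = c ^ (-e l) * lt l * c ^ (e (iv l))) :
    ∀ (w : List (β × Bool)) (l : β × Bool),
      (∀ U p q V, l :: w = U ++ p :: q :: V → e (iv p) = e q) →
      θ (FreeGroup.mk (l :: w)) = c ^ (-e l) * FreeGroup.mk (l :: w) *
        c ^ (e (iv ((l :: w).getLast (List.cons_ne_nil _ _))))
  | [], l, _ => by
    change θ (lt l) = _
    rw [hθ]
    rfl
  | q :: w, l, h => by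
    have e0 : ∀ w' : List (β × Bool), FreeGroup.mk (l :: w') = lt l * FreeGroup.mk w' := by
      intro w'
      rw [lt, FreeGroup.mul_mk]; rfl
    have h1 := conj_seg hθ w q fun U p q' V hh => h (l :: U) p q' V (by rw [hh]; rfl)
    have h2 := h [] l q w rfl
    rw [e0, map_mul, h1, hθ, h2, List.getLast_cons (List.cons_ne_nil _ _)]
    group

theorem Bg.pair : ∀ (U : List (β × Bool)) (a : ℕ) {p q : β × Bool} {V : List (β × Bool)},
    Bg r S M a (U ++ p :: q :: V) → Nx r S (r (iv p)) (r q)
  | [], _, _, _, _, h => h.2.1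
  | _ :: U, _, _, _, _, h => Bg.pair U _ h.2

theorem Bg.last : ∀ (w : List (β × Bool)) (l : β × Bool) (a : ℕ), Bg r S M a (l :: w) →
    Nx r S (r (iv ((l :: w).getLast (List.cons_ne_nil _ _)))) M
  | [], _, _, h => h.2
  | q :: w, l, _, h => by
    rw [List.getLast_cons (List.cons_ne_nil _ _)]
    exact Bg.last w q _ h.2

theorem ev_last : ∀ (w : List (β × Bool)) (l : β × Bool) (a : ℕ),
    ev r a (l :: w) = r (iv ((l :: w).getLast (List.cons_ne_nil _ _)))
  | [], _, _ => rfl
  | q :: w, l, a => by
    rw [List.getLast_cons (List.cons_ne_nil _ _)]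
    exact ev_last w q (r (iv l))

/-- the block of a handle -/
def blk (a b : β) : List (β × Bool) := [(a, true), (b, true), (a, false), (b, false)]

theorem Bg.blk {a b : β} {U V : List (β × Bool)} {x : ℕ}
    (h : Bg r S M x (U ++ (blk a b ++ V))) :
    Nx r S (ev r x U) (r (a, true)) ∧ Nx r S (r (a, true)) (r (b, false)) ∧
      Nx r S (r (b, false)) (r (a, false)) ∧ Nx r S (r (a, false)) (r (b, true)) ∧
      Bg r S M (r (b, true)) V ∧ Sg r S x U := by
  rw [bg_append] at h
  obtain ⟨h0, h1, h2, h3, h4, h5⟩ := h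
  exact ⟨h1, h4, h3, h2, h5, h0⟩

theorem Bg.cutblk (hr : Function.Injective r) {a b : β} {P Q : List (β × Bool)}
    (h : Bg r S M 0 (P ++ (TOR96.blk a b ++ Q))) :
    Bg r ((((S \ {(a, true)}) \ {(b, false)}) \ {(a, false)}) \ {(b, true)}) M 0 (P ++ Q) := by
  obtain ⟨h1, h2, h3, h4, h5, h0⟩ := h.blk
  have s1 : S \ {(a, true)} ⊆ S := Set.sdiff_subset
  have s2 : (S \ {(a, true)}) \ {(b, false)} ⊆ S \ {(a, true)} := Set.sdiff_subset
  have s3 : ((S \ {(a, true)}) \ {(b, false)}) \ {(a, false)} ⊆ (S \ {(a, true)}) \ {(b, false)} :=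
    Set.sdiff_subset
  have s4 : (((S \ {(a, true)}) \ {(b, false)}) \ {(a, false)}) \ {(b, true)} ⊆
    ((S \ {(a, true)}) \ {(b, false)}) \ {(a, false)} := Set.sdiff_subset
  have b1 := h1.shift hr h2
  have b2 := b1.shift hr (Nx.mono s1 h3)
  have b3 := b2.shift hr (Nx.mono (s2.trans s1) h4)
  have b4 := Bg.shift hr b3 Q (Bg.mono (s3.trans (s2.trans s1)) Q h5)
  rw [bg_append]
  exact ⟨Sg.mono (s4.trans (s3.trans (s2.trans s1))) P h0, b4⟩

theorem blk_split {P Q U V B B' : List (β × Bool)} (hB : B ≠ []) (hB' : B' ≠ [])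
    (hd : ∀ x ∈ B, x ∉ B') (h : P ++ (B ++ Q) = U ++ (B' ++ V)) :
    ∃ U' V', P ++ Q = U' ++ (B' ++ V') := by
  rw [List.append_eq_append_iff] at h
  rcases h with ⟨as, h1, h2⟩ | ⟨bs, h1, h2⟩
  · -- U = P ++ as, B ++ Q = as ++ (B' ++ V)
    rw [List.append_eq_append_iff] at h2
    rcases h2 with ⟨cs, h3, h4⟩ | ⟨cs, h3, h4⟩
    · exact ⟨P ++ cs, V, by rw [h4]; simp⟩
    · -- B = as ++ cs, B' ++ V = cs ++ Q
      cases cs with
      | nil =>
        exact ⟨P, V, by rw [List.nil_append] at h4; rw [← h4]⟩
      | cons x cs =>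
        exfalso
        cases B' with
        | nil => exact hB' rfl
        | cons y B' =>
          rw [List.cons_append, List.cons_append, List.cons.injEq] at h4
          exact hd x (by rw [h3]; simp) (by rw [← h4.1]; simp)
  · -- P = U ++ bs, B' ++ V = bs ++ (B ++ Q)
    rw [List.append_eq_append_iff] at h2
    rcases h2 with ⟨cs, h3, h4⟩ | ⟨cs, h3, h4⟩
    · -- bs = B' ++ cs
      exact ⟨U, cs ++ Q, by rw [h1, h3]; simp⟩
    · -- B' = bs ++ cs, B ++ Q = cs ++ V
      cases cs with
      | nil =>
        rw [List.append_nil] at h3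
        exact ⟨U, Q, by rw [h1, h3]; simp⟩
      | cons x cs =>
        exfalso
        cases B with
        | nil => exact hB rfl
        | cons y B =>
          rw [List.cons_append, List.cons_append, List.cons.injEq] at h4
          exact hd y (by simp) (by rw [h3, h4.1]; simp)

end chain

section main

variable {β : Type}

theorem cpr_append (ps qs : List (β × β)) : cpr (ps ++ qs) = cpr ps * cpr qs := by
  unfold cpr
  rw [List.map_append, List.prod_append]

theorem lp_append (ps qs : List (β × β)) : lp (ps ++ qs) = lp ps ++ lp qs := by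
  unfold lp
  rw [List.flatMap_append]

theorem lp_cons (p : β × β) (ps : List (β × β)) : lp (p :: ps) = p.1 :: p.2 :: lp ps := rfl

/-- CHANGE OF COORDINATES, relative form. -/
theorem cc_rel {r : β × Bool → ℕ} (hr : Function.Injective r) {M : ℕ} :
    ∀ (hs : List (β × β)) (Z : List (β × Bool)), Z.Nodup → (∀ l ∈ Z, iv l ∈ Z) →
      (∀ l ∈ Z, r l < M) → Bg r {l | l ∈ Z} M 0 Z →
      (∀ p ∈ hs, ∃ U V, Z = U ++ (blk p.1 p.2 ++ V)) →
      hs.Pairwise (fun p q => r (p.2, true) < r (q.1, true)) →
      ∃ (φ : FreeGroup β ≃* FreeGroup β) (ps : List (β × β)), φ (cpr (hs ++ ps)) = FreeGroup.mk Z ∧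
        (lp (hs ++ ps)).Nodup ∧ (∀ b, b ∈ lp (hs ++ ps) ↔ (b, true) ∈ Z) ∧
        (∀ b ∈ lp hs, φ (FreeGroup.of b) = FreeGroup.of b) ∧
        ∀ b, (b, true) ∉ Z → φ (FreeGroup.of b) = FreeGroup.of b := by
  intro hs
  induction hs with
  | nil =>
    intro Z hnd hcl _ hB _ _
    obtain ⟨φ, ps, h1, h2, h3, h4⟩ := cla_rel hr Z.length Z rfl hnd hcl hB
    exact ⟨φ, ps, h1, h2, h3, fun b hb => by simp [lp] at hb, h4⟩
  | cons p hs ih =>
    intro Z hnd hcl hM hB hblk hord
    obtain ⟨a, b⟩ := p
    obtain ⟨P, Q, hZ⟩ := hblk (a, b) List.mem_cons_self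
    simp only at hZ
    subst hZ
    rw [List.pairwise_cons] at hord
    obtain ⟨hord1, hord2⟩ := hord
    obtain ⟨g1, g2, g3, g4, g5, g0⟩ := hB.blk
    -- order of the germs of the other handles
    have hor : ∀ q ∈ hs, r (a, true) < r (q.1, true) ∧ r (b, false) < r (q.1, true) ∧
        r (a, false) < r (q.1, true) ∧ r (b, true) < r (q.1, true) ∧
        r (q.1, true) < r (q.2, false) ∧ r (q.2, false) < r (q.1, false) ∧
        r (q.1, false) < r (q.2, true) := by
      intro q hq
      obtain ⟨U, V, hUV⟩ := hblk q (List.mem_cons_of_mem _ hq)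
      have h' := hB
      rw [hUV] at h'
      obtain ⟨k1, k2, k3, k4, _, _⟩ := h'.blk
      have k0 := hord1 q hq
      have n1 := g2.1
      have n2 := g3.1
      have n3 := g4.1
      simp only at k0
      exact ⟨by omega, by omega, by omega, by omega, k2.1, k3.1, k4.1⟩
    have hperm : (P ++ (blk a b ++ Q)).Perm (blk a b ++ (P ++ Q)) := by
      rw [← List.append_assoc, ← List.append_assoc]
      exact List.Perm.append_right _ List.perm_append_comm
    have hnd2 := hperm.nodup_iff.mp hnd
    have hmem : ∀ x, x ∈ P ++ (blk a b ++ Q) ↔ x ∈ blk a b ∨ x ∈ P ++ Q := fun x => by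
      rw [hperm.mem_iff, List.mem_append]
    rw [List.nodup_append] at hnd2
    obtain ⟨nb, nPQ, hdis⟩ := hnd2
    have hbm : ∀ x, x ∈ blk a b ↔ x = (a, true) ∨ x = (b, true) ∨ x = (a, false) ∨ x = (b, false) :=
      fun x => by simp [blk]
    have hbm' : ∀ x, x ∈ blk a b ↔ x.1 = a ∨ x.1 = b := by
      rintro ⟨x, s⟩
      rw [hbm]
      cases s <;> simp
    have hS : (((({l | l ∈ P ++ (blk a b ++ Q)} \ {(a, true)}) \ {(b, false)}) \ {(a, false)}) \
        {(b, true)} : Set (β × Bool)) = {l | l ∈ P ++ Q} := by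
      ext x
      have h1 := hmem x
      have h2 := hbm x
      simp only [Set.mem_sdiff, Set.mem_ofPred_eq, Set.mem_singleton_iff]
      rw [h1, h2]
      constructor
      · rintro ⟨⟨⟨⟨(h | h | h | h) | h, h5⟩, h6⟩, h7⟩, h8⟩
        · exact absurd h h5
        · exact absurd h h8
        · exact absurd h h7
        · exact absurd h h6
        · exact h
      · intro h
        have hx : x ∉ blk a b := fun h' => hdis x h' x h rfl
        rw [hbm] at hx
        push Not at hx
        exact ⟨⟨⟨⟨Or.inr h, hx.1⟩, hx.2.2.2⟩, hx.2.2.1⟩, hx.2.1⟩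
    have hB' := hB.cutblk hr
    rw [hS] at hB'
    have hcl' : ∀ l ∈ P ++ Q, iv l ∈ P ++ Q := by
      intro l hl
      rcases (hmem _).mp (hcl l ((hmem l).mpr (Or.inr hl))) with h | h
      · exfalso
        rw [hbm'] at h
        exact hdis l ((hbm' l).mpr h) l hl rfl
      · exact h
    have hM' : ∀ l ∈ P ++ Q, r l < M := fun l hl => hM l ((hmem l).mpr (Or.inr hl))
    have hblk' : ∀ q ∈ hs, ∃ U V, P ++ Q = U ++ (blk q.1 q.2 ++ V) := by
      intro q hq
      obtain ⟨U, V, hUV⟩ := hblk q (List.mem_cons_of_mem _ hq)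
      refine blk_split (B := blk a b) (by simp [blk]) (by simp [blk]) ?_ hUV
      intro x hx hx'
      obtain ⟨o1, o2, o3, o4, o5, o6, o7⟩ := hor q hq
      rw [hbm] at hx
      have hx2 : x = (q.1, true) ∨ x = (q.2, true) ∨ x = (q.1, false) ∨ x = (q.2, false) := by
        simpa [blk] using hx'
      have m1 : r x < r (q.1, true) := by
        rcases hx with h | h | h | h <;> rw [h]
        · exact o1
        · exact o4
        · exact o3
        · exact o2
      have m2 : r (q.1, true) ≤ r x := by
        rcases hx2 with h | h | h | h <;> rw [h]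
        · omega
        · omega
        · omega
      omega
    obtain ⟨φ', ps, i1, i2, i3, i4, i5⟩ := ih _ nPQ hcl' hM' hB' hblk' hord2
    -- the conjugation
    classical
    let e : β × Bool → ℤ := fun l => if l ∈ P ++ Q ∧ r l < r (a, true) then 1 else 0
    have e0 : ∀ l, l ∉ P ++ Q → e l = 0 := fun l hl => by
      change (if _ then _ else _) = _
      rw [if_neg fun h => hl h.1]
    have e1 : ∀ l, l ∈ P ++ Q → r l < r (a, true) → e l = 1 := fun l hl h => by
      change (if _ then _ else _) = _
      rw [if_pos ⟨hl, h⟩]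
    have e2 : ∀ l, ¬ r l < r (a, true) → e l = 0 := fun l h => by
      change (if _ then _ else _) = _
      rw [if_neg fun h' => h h'.2]
    have hba : ∀ x ∈ blk a b, x ∉ P ++ Q := fun x hx h => hdis x hx x h rfl
    obtain ⟨θ, t1, t2⟩ := exists_conj a b e (e0 _ (hba _ (by simp [blk])))
      (e0 _ (hba _ (by simp [blk]))) (e0 _ (hba _ (by simp [blk]))) (e0 _ (hba _ (by simp [blk])))
    have haZ : (a, true) ∈ P ++ (blk a b ++ Q) := (hmem _).mpr (Or.inl (by simp [blk]))
    have hapos : 0 < r (a, true) := by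
      -- the first letter
      cases P with
      | nil => exact g1.1
      | cons l P =>
        have h1 := hB.1
        rcases h1.2 _ haZ with h | h
        · exact absurd h (by
            have h2 := g1.1
            omega)
        · exact h1.1.trans_le h
    -- consecutive letters
    have hcons : ∀ p q : β × Bool, p ∈ P ++ Q → q ∈ P ++ Q →
        Nx r {l | l ∈ P ++ (blk a b ++ Q)} (r (iv p)) (r q) → e (iv p) = e q := by
      intro p q hp hq hn
      by_cases h : r q < r (a, true)
      · rw [e1 q hq h, e1 _ (hcl' p hp) (hn.1.trans h)]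
      · rw [e2 q h]
        refine e2 _ fun h' => ?_
        rcases hn.2 _ haZ with h3 | h3
        · exact absurd h' (not_lt.mpr h3)
        · have h4 : q = (a, true) := hr (by omega)
          exact hba _ (by simp [blk]) (h4 ▸ hq)
    have hP : θ (FreeGroup.mk P) = (cab a b)⁻¹ * FreeGroup.mk P * cab a b := by
      cases P with
      | nil => rw [← FreeGroup.one_eq_mk, map_one]; group
      | cons l P =>
        rw [conj_seg t1]
        · have h1 : e l = 1 := by
            refine e1 l (by simp) ?_
            rcases hB.1.2 _ haZ with h | h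
            · omega
            · rcases Nat.lt_or_eq_of_le h with h' | h'
              · exact h'
              · exact absurd (by simp) (hba _ (by simp [blk] : (a, true) ∈ blk a b) ∘
                  fun h2 : l ∈ (l :: P) ++ Q => (hr h') ▸ h2)
          have h2 : e (iv ((l :: P).getLast (List.cons_ne_nil _ _))) = 1 := by
            refine e1 _ (hcl' _ (List.mem_append_left _ (List.getLast_mem _))) ?_
            rw [← ev_last (r := r) P l 0]
            exact g1.1
          rw [h1, h2, zpow_neg, zpow_one]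
        · intro U p q V hU
          refine hcons p q ?_ ?_ ?_
          · rw [hU]; simp
          · rw [hU]; simp
          · refine Bg.pair (a := 0) (V := V ++ (blk a b ++ Q)) U ?_ (M := M)
            have : U ++ p :: q :: (V ++ (blk a b ++ Q)) = (l :: P) ++ (blk a b ++ Q) := by
              rw [hU]; simp
            rw [this]
            exact hB
    have hQ : θ (FreeGroup.mk Q) = FreeGroup.mk Q := by
      cases Q with
      | nil => rw [← FreeGroup.one_eq_mk, map_one]
      | cons l Q =>
        have o1 := g2.1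
        have o2 := g3.1
        have o3 := g4.1
        rw [conj_seg t1]
        · have h1 : e l = 0 := by
            refine e2 l ?_
            have := g5.1.1
            omega
          have h2 : e (iv ((l :: Q).getLast (List.cons_ne_nil _ _))) = 0 := by
            refine e2 _ ?_
            rcases (Bg.last Q l _ g5).2 _ haZ with h | h
            · omega
            · have := hM _ haZ
              omega
          rw [h1, h2, neg_zero, zpow_zero]
          group
        · intro U p q V hU
          refine hcons p q ?_ ?_ ?_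
          · rw [hU]; simp
          · rw [hU]; simp
          · exact Bg.pair (a := r (b, true)) (V := V) U (by rw [← hU]; exact g5)
    have hφc : φ' (cab a b) = cab a b := by
      refine cab_fix φ'.toMonoidHom ?_ ?_
      · exact i5 a (hba _ (by simp [blk]))
      · exact i5 b (hba _ (by simp [blk]))
    refine ⟨φ'.trans θ, ps, ?_, ?_, ?_, ?_, ?_⟩
    · change θ (φ' (cpr ((a, b) :: hs ++ ps))) = _
      have ee : cpr ((a, b) :: hs ++ ps) = cab a b * cpr (hs ++ ps) := by
        unfold cpr cab
        rw [List.cons_append, List.map_cons, List.prod_cons]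
      rw [ee, map_mul, hφc, i1, map_mul, t2, ← FreeGroup.mul_mk, map_mul, hP, hQ,
        ← FreeGroup.mul_mk, ← FreeGroup.mul_mk]
      have : FreeGroup.mk (blk a b) = cab a b := by
        unfold cab blk
        change FreeGroup.mk ([(a, true)] ++ ([(b, true)] ++ ([(a, false)] ++ [(b, false)]))) = _
        rw [← FreeGroup.mul_mk, ← FreeGroup.mul_mk, ← FreeGroup.mul_mk]
        change FreeGroup.of a * (FreeGroup.of b * ((FreeGroup.of a)⁻¹ * (FreeGroup.of b)⁻¹)) = _
        group
      rw [this]
      group
    · rw [List.cons_append, lp_cons, List.nodup_cons, List.nodup_cons]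
      refine ⟨?_, ?_, i2⟩
      · rw [List.mem_cons]
        rintro (h | h)
        · simp only at h
          unfold blk at nb
          rw [h] at nb
          simp at nb
        · exact hba _ (by simp [blk]) ((i3 _).mp h)
      · intro h
        exact hba _ (by simp [blk]) ((i3 _).mp h)
    · intro x
      rw [List.cons_append, lp_cons, List.mem_cons, List.mem_cons, i3, hmem, hbm']
      tauto
    · intro x hx
      rw [lp_cons, List.mem_cons, List.mem_cons] at hx
      change θ (φ' (FreeGroup.of x)) = FreeGroup.of x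
      have key : ∀ y, e (y, true) = 0 → e (y, false) = 0 →
          θ (FreeGroup.of y) = FreeGroup.of y := by
        intro y h1 h2
        have h3 := t1 (y, true)
        rw [h1] at h3
        have h4 : iv (y, true) = (y, false) := rfl
        rw [h4, h2, neg_zero, zpow_zero, one_mul, mul_one] at h3
        exact h3
      rcases hx with h | h | h
      · simp only at h
        subst h
        rw [i5 _ (hba _ (by simp [blk]))]
        exact key _ (e0 _ (hba _ (by simp [blk]))) (e0 _ (hba _ (by simp [blk])))
      · simp only at h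
        subst h
        rw [i5 _ (hba _ (by simp [blk]))]
        exact key _ (e0 _ (hba _ (by simp [blk]))) (e0 _ (hba _ (by simp [blk])))
      · rw [i4 x h]
        unfold lp at h
        rw [List.mem_flatMap] at h
        obtain ⟨q, hq, hx⟩ := h
        obtain ⟨o1, o2, o3, o4, o5, o6, o7⟩ := hor q hq
        have hx' : x = q.1 ∨ x = q.2 := by simpa using hx
        rcases hx' with h | h
        · rw [h]
          exact key _ (e2 _ (by omega)) (e2 _ (by omega))
        · rw [h]
          exact key _ (e2 _ (by omega)) (e2 _ (by omega))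
    · intro x hx
      rw [hmem, hbm'] at hx
      push Not at hx
      change θ (φ' (FreeGroup.of x)) = FreeGroup.of x
      rw [i5 _ hx.2]
      have h3 := t1 (x, true)
      have h4 : iv (x, true) = (x, false) := rfl
      have h5 : (x, false) ∉ P ++ Q := fun h => hx.2 (hcl' _ h)
      rw [h4, e0 _ hx.2, e0 _ h5, neg_zero, zpow_zero, one_mul, mul_one] at h3
      exact h3

theorem list_std (L : List (β × β)) (h : (lp L).Nodup) (n : ℕ) (hn : L.length = n) :
    ∃ e : Fin 2 × Fin n → β, Function.Injective e ∧ (∀ b, b ∈ lp L ↔ ∃ x, e x = b) ∧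
      cpr L = FreeGroup.map e (zeta n) ∧
      ∀ (i : Fin n) (hi : i.val < L.length), e (0, i) = L[i.val].1 ∧ e (1, i) = L[i.val].2 := by
  subst hn
  refine ⟨pe L, pe_inj L h, lp_eq L, cpr_eq L, fun i hi => ?_⟩
  simp [pe]

/-- CHANGE OF COORDINATES: handle blocks in a boundary word. -/
theorem cc2 (R : Rib β) {Z : List (β × Bool)} (hZ : Bd R 0 Z) (hall : ∀ l, l ∈ Z) {m : ℕ}
    (a b : Fin m → β)
    (hblk : ∀ i, ∃ U V, Z = U ++ [(a i, true), (b i, true), (a i, false), (b i, false)] ++ V)
    (hord : ∀ i i', i < i' → R.r (b i, true) < R.r (a i', true)) :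
    ∃ (g : ℕ) (Φ : FreeGroup (Fin 2 × Fin (m + g)) ≃* FreeGroup β),
      Φ (zeta (m + g)) = FreeGroup.mk Z ∧
      ∀ i : Fin m, Φ (FreeGroup.of (0, Fin.castAdd g i)) = FreeGroup.of (a i) ∧
        Φ (FreeGroup.of (1, Fin.castAdd g i)) = FreeGroup.of (b i) := by
  set hs : List (β × β) := List.ofFn fun i => (a i, b i) with hhs
  have hlen : hs.length = m := by rw [hhs, List.length_ofFn]
  obtain ⟨φ, ps, h1, h2, h3, h4, -⟩ := cc_rel R.inj (M := R.N + 1) hs Z (bd_nodup R hZ)
    (fun l _ => hall _) (fun l _ => Nat.lt_succ_of_le (R.le l))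
    (Bg.mono (Set.subset_univ _) Z (bd_bg R Z 0 hZ)) (by
      intro p hp
      rw [hhs, List.mem_ofFn] at hp
      obtain ⟨i, rfl⟩ := hp
      obtain ⟨U, V, h⟩ := hblk i
      exact ⟨U, V, by rw [h]; simp [blk]⟩) (by
      rw [hhs, List.pairwise_ofFn]
      intro i j hij
      exact hord i j hij)
  have hl : (hs ++ ps).length = m + ps.length := by rw [List.length_append, hlen]
  obtain ⟨e, k1, k2, k3, k4⟩ := list_std (hs ++ ps) h2 (m + ps.length) hl
  let E : Fin 2 × Fin (m + ps.length) ≃ β :=
    Equiv.ofBijective e ⟨k1, fun x => (k2 x).mp ((h3 x).mpr (hall _))⟩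
  have hget : ∀ i : Fin m, e (0, Fin.castAdd ps.length i) = a i ∧
      e (1, Fin.castAdd ps.length i) = b i := by
    intro i
    have hi : (Fin.castAdd ps.length i).val < (hs ++ ps).length := by
      rw [hl]; exact (Fin.castAdd ps.length i).2
    obtain ⟨q1, q2⟩ := k4 (Fin.castAdd ps.length i) hi
    have hi' : i.val < hs.length := by rw [hlen]; exact i.2
    have hg : (hs ++ ps)[(Fin.castAdd ps.length i).val] = (a i, b i) := by
      have : (hs ++ ps)[i.val]'(by rw [hl]; omega) = (a i, b i) := by
        rw [List.getElem_append_left hi']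
        simp [hhs]
      exact this
    rw [q1, q2, hg]
    exact ⟨rfl, rfl⟩
  refine ⟨ps.length, (FreeGroup.freeGroupCongr E).trans φ, ?_, fun i => ?_⟩
  · rw [← h1, k3]
    rfl
  · obtain ⟨q1, q2⟩ := hget i
    have m1 : a i ∈ lp hs := by
      unfold lp
      rw [List.mem_flatMap]
      exact ⟨(a i, b i), by rw [hhs, List.mem_ofFn]; exact ⟨i, rfl⟩, by simp⟩
    have m2 : b i ∈ lp hs := by
      unfold lp
      rw [List.mem_flatMap]
      exact ⟨(a i, b i), by rw [hhs, List.mem_ofFn]; exact ⟨i, rfl⟩, by simp⟩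
    constructor
    · change φ (FreeGroup.of (e (0, Fin.castAdd ps.length i))) = _
      rw [q1, h4 _ m1]
    · change φ (FreeGroup.of (e (1, Fin.castAdd ps.length i))) = _
      rw [q2, h4 _ m2]

end main

end Pool.Agent.TOR96
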