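import Pool.Agent.Helper96_TOR.Wvf

set_option autoImplicit false

namespace Pool.Agent.TOR96

open Pool.Agent.TOR Pool.Agent.TOR.H58 Finsupp
open scoped Pointwise

universe u

/-! ### from list chains to ordered tuples, one degree at a time -/

section tup

variable {V : Type u} {M : Type u} [AddCommGroup M] {K : Set V → Prop}

theorem exact0_of_acn (hK : ∀ s t, s ⊆ t → K t → K s) (ha : AcN M K 1) (c : OX K 0 →₀ M)
    (hc : auM (OX K 0) M c = 0) : ∃ b, bdM (OX K) (ofc hK) M 0 b = c := by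
  obtain ⟨b, hb, hbc⟩ := ha _ (tau_mem 0 c) (by rw [bd_tau0, hc, Finsupp.single_zero])
  obtain ⟨b', hb'⟩ := lift_tau 1 _ hb
  refine ⟨b', tau_inj 0 ?_⟩
  rw [← bd_tau, hb', hbc]

theorem exact_of_acn (hK : ∀ s t, s ⊆ t → K t → K s) (p : ℕ) (ha : AcN M K (p + 2))
    (c : OX K (p + 1) →₀ M) (hc : bdM (OX K) (ofc hK) M p c = 0) :
    ∃ b, bdM (OX K) (ofc hK) M (p + 1) b = c := by
  obtain ⟨b, hb, hbc⟩ := ha _ (tau_mem (p + 1) c) (by rw [bd_tau hK, hc, map_zero])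
  obtain ⟨b', hb'⟩ := lift_tau (p + 2) _ hb
  refine ⟨b', tau_inj _ ?_⟩
  rw [← bd_tau, hb', hbc]

theorem nonempty_of_acn (ha : AcN ℤ K 0) (hK : K ∅) : Nonempty (OX K 0) := by
  obtain ⟨b, hb, hbc⟩ := ha (single [] 1) (single_mem_Sup ⟨by
    have : {a | a ∈ ([] : List V)} = (∅ : Set V) := by ext a; simp
    change K {a | a ∈ ([] : List V)}
    rw [this]; exact hK, rfl⟩ _) (by rw [bd_single, bd1_nil])
  have h1 : b ≠ 0 := by
    intro h
    rw [h, map_zero] at hbc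
    have := DFunLike.congr_fun hbc []
    simp at this
  obtain ⟨l, hl⟩ := Finsupp.ne_iff.mp h1
  obtain ⟨h2, h3⟩ := hb l hl
  obtain ⟨v, rfl⟩ := List.length_eq_one_iff.mp h3
  refine ⟨⟨fun _ => v, ?_⟩⟩
  have h4 : Set.range (fun _ : Fin (0 + 1) => v) = {a | a ∈ [v]} := by
    ext a
    simp [eq_comm]
  rw [h4]
  exact h2

/-- action on ordered simplices -/
@[reducible] def oxAct {G V : Type*} [Group G] [MulAction G V] {K : Set V → Prop}
    (hK : ∀ (g : G) (s : Set V), K s → K ((fun v => g • v) '' s)) (p : ℕ) :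
    MulAction G (OX K p) where
  smul g t := ⟨fun i => g • t.1 i, by
    have h := hK g _ t.2
    rwa [← Set.range_comp] at h⟩
  one_smul t := Subtype.ext (funext fun i => one_smul G (t.1 i))
  mul_smul g h t := Subtype.ext (funext fun i => mul_smul g h (t.1 i))

end tup

/-! ### the complex of split systems -/

section W

variable {F : Type*} [Group F]

/-- simplices of the complex of split systems -/
def WK (s : Set (F × Subgroup F)) : Prop :=
  ∃ b : Set F, IsB b ∧ ∀ v ∈ s, v.1 ∈ b ∧ v.2 = Subgroup.closure (b \ {v.1})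

theorem WK.mono {s t : Set (F × Subgroup F)} (h : s ⊆ t) (ht : WK t) : WK s := by
  obtain ⟨b, h1, h2⟩ := ht
  exact ⟨b, h1, fun v hv => h2 v (h hv)⟩

theorem wk_iff (s : Set (F × Subgroup F)) : WK s ↔ RW ∅ ⊤ s := by
  constructor
  · rintro ⟨b, h1, h2⟩
    refine ⟨b, h1, Set.empty_subset _, by rw [Set.sdiff_empty]; exact h1.closure, fun v hv => ?_⟩
    exact ⟨(h2 v hv).1, Set.notMem_empty _, (h2 v hv).2⟩
  · rintro ⟨b, h1, _, _, h2⟩
    exact ⟨b, h1, fun v hv => ⟨(h2 v hv).1, (h2 v hv).2.2⟩⟩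

/-- the vertex of a basis is determined by the letter -/
theorem smul_vertex (φ : MulAut F) (v : F × Subgroup F) :
    φ • v = (φ v.1, v.2.map φ.toMonoidHom) := rfl

theorem WK.smul (φ : MulAut F) {s : Set (F × Subgroup F)} (hs : WK s) :
    WK ((fun v => φ • v) '' s) := by
  obtain ⟨b, h1, h2⟩ := hs
  refine ⟨φ '' b, h1.image φ, ?_⟩
  rintro _ ⟨v, hv, rfl⟩
  obtain ⟨h3, h4⟩ := h2 v hv
  refine ⟨⟨v.1, h3, rfl⟩, ?_⟩
  change v.2.map φ.toMonoidHom = Subgroup.closure (φ '' b \ {φ v.1})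
  rw [h4, MonoidHom.map_closure]
  congr 1
  ext x
  constructor
  · rintro ⟨y, ⟨hy, h⟩, rfl⟩
    exact ⟨⟨y, hy, rfl⟩, fun h' => h (φ.injective h')⟩
  · rintro ⟨⟨y, hy, rfl⟩, h⟩
    exact ⟨y, ⟨hy, fun h' => h (congrArg φ h')⟩, rfl⟩

theorem gd_smul {f : F →* Multiplicative ℤ} {w : F} (φ : MulAut F) (hf : ∀ x, f (φ x) = f x)
    (hw : w⁻¹ * φ w ∈ commutator F) {v : F × Subgroup F} (hv : gd f w v) : gd f w (φ • v) := by
  refine ⟨(hf v.1).trans hv.1, ?_⟩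
  change w ∈ v.2.map φ.toMonoidHom ⊔ commutator F
  have h3 : (commutator F).map φ.toMonoidHom ≤ commutator F := by
    rw [Subgroup.map_le_iff_le_comap]
    intro y hy
    have h4 : (commutator F).comap φ.toMonoidHom = commutator F :=
      (inferInstance : (commutator F).Characteristic).fixed φ
    rw [h4]
    exact hy
  have h4 : φ w ∈ (v.2 ⊔ commutator F).map φ.toMonoidHom := ⟨_, hv.2, rfl⟩
  rw [Subgroup.map_sup] at h4
  have h5 : φ w ∈ v.2.map φ.toMonoidHom ⊔ commutator F := sup_le_sup_left h3 _ h4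
  have h6 : w = φ w * (w⁻¹ * φ w)⁻¹ := by group
  rw [h6]
  exact Subgroup.mul_mem _ h5 (Subgroup.inv_mem _ (Subgroup.mem_sup_right hw))

/-- the link of ρ in the complex of split systems, vertices restricted to those which are
orthogonal to (w, f) -/
def KG (f : F →* Multiplicative ℤ) (w : F) (ρ s : Set (F × Subgroup F)) : Prop :=
  (∀ v ∈ s, gd f w v) ∧ (∀ v ∈ s, v ∉ ρ) ∧ WK (s ∪ ρ)

/-- the link of ρ in the complex of split systems -/
def KL0 (ρ s : Set (F × Subgroup F)) : Prop := (∀ v ∈ s, v ∉ ρ) ∧ WK (s ∪ ρ)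

theorem KG.mono (f : F →* Multiplicative ℤ) (w : F) (ρ : Set (F × Subgroup F)) :
    ∀ s t, s ⊆ t → KG f w ρ t → KG f w ρ s := fun _ _ h ht =>
  ⟨fun v hv => ht.1 v (h hv), fun v hv => ht.2.1 v (h hv),
    ht.2.2.mono (Set.union_subset_union_left _ h)⟩

theorem KL0.mono (ρ : Set (F × Subgroup F)) :
    ∀ s t, s ⊆ t → KL0 ρ t → KL0 ρ s := fun _ _ h ht =>
  ⟨fun v hv => ht.1 v (h hv), ht.2.mono (Set.union_subset_union_left _ h)⟩

theorem link_iff {ρ : Set (F × Subgroup F)} (hρf : ρ.Finite) (hρ : WK ρ) :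
    ∃ b P : Set F, IsB b ∧ P ⊆ b ∧ P.ncard ≤ ρ.ncard ∧ ∀ s, KL0 ρ s ↔
      RW P (Subgroup.closure (b \ P)) s := by
  obtain ⟨b, h1, _, h3, h2⟩ := (wk_iff ρ).mp hρ
  have hlink := RW.link hρf h1 (Set.empty_subset b) h3 h2
  refine ⟨b, ∅ ∪ Prod.fst '' ρ, h1, ?_, ?_, fun s => ?_⟩
  · rintro x (hx | ⟨v, hv, rfl⟩)
    · exact absurd hx (Set.notMem_empty _)
    · exact (h2 v hv).1
  · rw [Set.empty_union]
    exact Set.ncard_image_le hρf
  · rw [← hlink s, ← wk_iff, Set.disjoint_left]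
    exact ⟨fun h => ⟨h.2, fun v hv => h.1 v hv⟩, fun h => ⟨fun v hv => h.2 hv, h.1⟩⟩

variable {M : Type*} [AddCommGroup M]

/-- exactness of links in the complex of split systems -/
theorem link_acn {b0 : Set F} (hb0 : IsB b0) (hf0 : b0.Finite) {ρ : Set (F × Subgroup F)}
    (hρf : ρ.Finite) (hρ : WK ρ) (m : ℕ) (hm : ρ.ncard + 2 * m + 1 ≤ b0.ncard) :
    AcN M (KL0 ρ) m := by
  obtain ⟨b, P, hb, hP, hc, h⟩ := link_iff hρf hρ
  have h1 := hb0.fin_card hb hf0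
  have h2 := rw_acl (M := M) ordy_true hb hP (h1.1.subset Set.sdiff_subset) rfl m (by
    rw [Set.ncard_sdiff hP (h1.1.subset hP)]
    omega)
  exact AcL.congr (fun l => ⟨fun h3 => (h _).mpr h3.2, fun h3 => ⟨trivial, (h _).mp h3⟩⟩) h2

/-- exactness of the orthogonal part of links in the complex of split systems -/
theorem wvf_acn {b0 : Set F} (hb0 : IsB b0) (hf0 : b0.Finite) (f : F →* Multiplicative ℤ)
    (w : F) {ρ : Set (F × Subgroup F)} (hρf : ρ.Finite) (hρ : WK ρ) (m : ℕ)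
    (hm : ρ.ncard + 4 * m + 3 ≤ b0.ncard) : AcN M (KG f w ρ) m := by
  obtain ⟨b, P, hb, hP, hc, h⟩ := link_iff hρf hρ
  have h1 := hb0.fin_card hb hf0
  have h2 := wvf_acl (M := M) f w m b P hb h1.1 hP (by omega)
  refine AcL.congr (fun l => ?_) h2
  constructor
  · rintro ⟨h3, h4⟩
    have h5 := (h _).mpr h4
    exact ⟨h3, h5.1, h5.2⟩
  · rintro ⟨h3, h4, h5⟩
    exact ⟨h3, (h _).mp ⟨h4, h5⟩⟩

end W

section final

variable {F : Type u} [Group F] {M : Type u} [AddCommGroup M] {b0 : Set F} (hb0 : IsB b0)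
  (hf0 : b0.Finite) (f : F →* Multiplicative ℤ) (w : F) {ρ : Set (F × Subgroup F)}
  (hρf : ρ.Finite) (hρ : WK ρ)

include hb0 hf0 hρf hρ

/-- hypothesis h0 of van_of_action -/
theorem wvf_h0 (hn : ρ.ncard + 7 ≤ b0.ncard) (c : OX (KG f w ρ) 0 →₀ M)
    (hc : auM (OX (KG f w ρ) 0) M c = 0) :
    ∃ b, bdM (OX (KG f w ρ)) (ofc (KG.mono f w ρ)) M 0 b = c :=
  exact0_of_acn (KG.mono f w ρ) (wvf_acn hb0 hf0 f w hρf hρ 1 (by omega)) c hc

/-- hypothesis hex of van_of_action -/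
theorem wvf_hex (p : ℕ) (hn : ρ.ncard + 4 * (p + 2) + 3 ≤ b0.ncard)
    (c : OX (KG f w ρ) (p + 1) →₀ M)
    (hc : bdM (OX (KG f w ρ)) (ofc (KG.mono f w ρ)) M p c = 0) :
    ∃ b, bdM (OX (KG f w ρ)) (ofc (KG.mono f w ρ)) M (p + 1) b = c :=
  exact_of_acn (KG.mono f w ρ) p (wvf_acn hb0 hf0 f w hρf hρ (p + 2) hn) c hc

theorem wvf_nonempty (hn : ρ.ncard + 3 ≤ b0.ncard) : Nonempty (OX (KG f w ρ) 0) :=
  nonempty_of_acn (wvf_acn hb0 hf0 f w hρf hρ 0 hn)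
    ⟨fun v hv => absurd hv (Set.notMem_empty _), fun v hv => absurd hv (Set.notMem_empty _),
      by rwa [Set.empty_union]⟩

/-- the same for the whole link -/
theorem link_h0 (hn : ρ.ncard + 3 ≤ b0.ncard) (c : OX (KL0 ρ) 0 →₀ M)
    (hc : auM (OX (KL0 ρ) 0) M c = 0) :
    ∃ b, bdM (OX (KL0 ρ)) (ofc (KL0.mono ρ)) M 0 b = c :=
  exact0_of_acn (KL0.mono ρ) (link_acn hb0 hf0 hρf hρ 1 (by omega)) c hc

theorem link_hex (p : ℕ) (hn : ρ.ncard + 2 * (p + 2) + 1 ≤ b0.ncard)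
    (c : OX (KL0 ρ) (p + 1) →₀ M)
    (hc : bdM (OX (KL0 ρ)) (ofc (KL0.mono ρ)) M p c = 0) :
    ∃ b, bdM (OX (KL0 ρ)) (ofc (KL0.mono ρ)) M (p + 1) b = c :=
  exact_of_acn (KL0.mono ρ) p (link_acn hb0 hf0 hρf hρ (p + 2) hn) c hc

theorem link_nonempty (hn : ρ.ncard + 1 ≤ b0.ncard) : Nonempty (OX (KL0 ρ) 0) :=
  nonempty_of_acn (link_acn hb0 hf0 hρf hρ 0 hn)
    ⟨fun v hv => absurd hv (Set.notMem_empty _), by rwa [Set.empty_union]⟩

end final

/-- the standard basis -/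
theorem isB_std (n : ℕ) : IsB (Set.range (FreeGroup.of : Fin n → FreeGroup (Fin n))) ∧
    (Set.range (FreeGroup.of : Fin n → FreeGroup (Fin n))).Finite ∧
    (Set.range (FreeGroup.of : Fin n → FreeGroup (Fin n))).ncard = n :=
  ⟨isB_of _, (isB_of (Fin n)).card_eq⟩

end Pool.Agent.TOR96
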