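import Pool.Agent.Helper41_TOR.Sd
import Pool.Agent.Helper79_TOR.Defs

/-! Stabilisers of standard handles: wrapper of `std_gen`. -/

set_option autoImplicit false

namespace Pool.Agent.TOR96

open Pool.Agent.TOR.H59 Pool.Agent.TOR.H41

section gen

variable {α β : Type}

/-- an automorphism which preserves a free factor in both directions and fixes the other letters
is an extension -/
theorem exists_restr (e : β ↪ α) (φ : MulAut (FreeGroup α))
    (h1 : ∀ g : FreeGroup β, ∃ h : FreeGroup β, φ (FreeGroup.map e g) = FreeGroup.map e h)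
    (h2 : ∀ g : FreeGroup β, ∃ h : FreeGroup β, φ⁻¹ (FreeGroup.map e g) = FreeGroup.map e h)
    (h3 : ∀ b : α, (∀ i, e i ≠ b) → φ (FreeGroup.of b) = FreeGroup.of b) :
    ∃ φ' : MulAut (FreeGroup β), φ = Pool.Agent.TST.upE e φ' := by
  have hinj : Function.Injective (FreeGroup.map e : FreeGroup β →* FreeGroup α) :=
    FreeGroup.map_injective e.injective
  choose f hf using h1
  choose k hk using h2
  let fh : FreeGroup β →* FreeGroup β := MonoidHom.mk' f fun x y => by
    apply hinj
    rw [← hf, map_mul, map_mul, hf, hf, map_mul]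
  let kh : FreeGroup β →* FreeGroup β := MonoidHom.mk' k fun x y => by
    apply hinj
    rw [← hk, map_mul, map_mul, hk, hk, map_mul]
  have e1 : kh.comp fh = MonoidHom.id _ := by
    refine MonoidHom.ext fun x => hinj ?_
    change FreeGroup.map e (k (f x)) = FreeGroup.map e x
    rw [← hk, ← hf]
    exact MulAut.inv_apply_self _ φ _
  have e2 : fh.comp kh = MonoidHom.id _ := by
    refine MonoidHom.ext fun x => hinj ?_
    change FreeGroup.map e (f (k x)) = FreeGroup.map e x
    rw [← hf, ← hk]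
    exact MulAut.apply_inv_self _ φ _
  let φ' : MulAut (FreeGroup β) := MonoidHom.toMulEquiv fh kh e1 e2
  refine ⟨φ', ?_⟩
  have h4 : (φ : FreeGroup α ≃* FreeGroup α).toMonoidHom =
      (Pool.Agent.TST.upE e φ' : FreeGroup α ≃* FreeGroup α).toMonoidHom := by
    refine FreeGroup.ext_hom _ _ fun b => ?_
    by_cases hb : ∃ i, e i = b
    · obtain ⟨i, rfl⟩ := hb
      change φ (FreeGroup.of (e i)) = Pool.Agent.TST.upE e φ' (FreeGroup.of (e i))
      have h5 : (FreeGroup.of (e i) : FreeGroup α) = FreeGroup.map e (FreeGroup.of i) := by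
        rw [FreeGroup.map.of]
      rw [h5, Pool.Agent.TST.upE_map, hf]
      rfl
    · push Not at hb
      change φ (FreeGroup.of b) = Pool.Agent.TST.upE e φ' (FreeGroup.of b)
      rw [h3 b hb, Pool.Agent.TST.upE_new e φ' b hb]
  refine MulEquiv.ext fun x => ?_
  exact DFunLike.congr_fun h4 x

end gen

/-- the inclusion of the last n handles -/
def hiE (m n : ℕ) : Fin 2 × Fin n ↪ Fin 2 × Fin (m + n) where
  toFun x := (x.1, Fin.natAdd m x.2)
  inj' := by
    rintro ⟨a, i⟩ ⟨b, j⟩ h
    have h1 := congrArg Prod.fst h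
    have h2 := congrArg Prod.snd h
    simp only [Fin.natAdd_inj] at h1 h2
    rw [h1, h2]

/-- the inclusion of the first m handles -/
def loE (m n : ℕ) : Fin 2 × Fin m ↪ Fin 2 × Fin (m + n) where
  toFun x := (x.1, Fin.castAdd n x.2)
  inj' := by
    rintro ⟨a, i⟩ ⟨b, j⟩ h
    have h1 := congrArg Prod.fst h
    have h2 := congrArg Prod.snd h
    simp only [Fin.castAdd_inj] at h1 h2
    rw [h1, h2]

theorem zeta_add (m n : ℕ) : zeta (m + n) =
    FreeGroup.map (loE m n) (zeta m) * FreeGroup.map (hiE m n) (zeta n) := by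
  have h : ∀ n, zeta n = (List.ofFn fun j : Fin n => FreeGroup.of ((0 : Fin 2), j) *
      FreeGroup.of ((1 : Fin 2), j) * (FreeGroup.of ((0 : Fin 2), j))⁻¹ *
      (FreeGroup.of ((1 : Fin 2), j))⁻¹).prod := by
    intro n
    unfold zeta
    rw [List.ofFn_eq_map]
  rw [h (m + n), List.ofFn_add, List.prod_append, h m, h n, map_list_prod, map_list_prod,
    List.map_ofFn, List.map_ofFn]
  have e1 : (fun j : Fin m => FreeGroup.of ((0 : Fin 2), Fin.castLE (Nat.le_add_right m n) j) *
      FreeGroup.of ((1 : Fin 2), Fin.castLE (Nat.le_add_right m n) j) *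
      (FreeGroup.of ((0 : Fin 2), Fin.castLE (Nat.le_add_right m n) j))⁻¹ *
      (FreeGroup.of ((1 : Fin 2), Fin.castLE (Nat.le_add_right m n) j))⁻¹) =
      (FreeGroup.map (loE m n)) ∘ (fun j : Fin m => FreeGroup.of ((0 : Fin 2), j) *
      FreeGroup.of ((1 : Fin 2), j) * (FreeGroup.of ((0 : Fin 2), j))⁻¹ *
      (FreeGroup.of ((1 : Fin 2), j))⁻¹) := by
    funext j
    simp only [Function.comp_apply, map_mul, map_inv, FreeGroup.map.of]
    rfl
  have e2 : (fun j : Fin n => FreeGroup.of ((0 : Fin 2), Fin.natAdd m j) *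
      FreeGroup.of ((1 : Fin 2), Fin.natAdd m j) *
      (FreeGroup.of ((0 : Fin 2), Fin.natAdd m j))⁻¹ *
      (FreeGroup.of ((1 : Fin 2), Fin.natAdd m j))⁻¹) =
      (FreeGroup.map (hiE m n)) ∘ (fun j : Fin n => FreeGroup.of ((0 : Fin 2), j) *
      FreeGroup.of ((1 : Fin 2), j) * (FreeGroup.of ((0 : Fin 2), j))⁻¹ *
      (FreeGroup.of ((1 : Fin 2), j))⁻¹) := by
    funext j
    simp only [Function.comp_apply, map_mul, map_inv, FreeGroup.map.of]
    rfl
  rw [e1, e2]

theorem not_hi_iff (m n : ℕ) (b : Fin 2 × Fin (m + n)) :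
    (∀ i, hiE m n i ≠ b) ↔ ∃ i, loE m n i = b := by
  obtain ⟨a, j⟩ := b
  induction j using Fin.addCases with
  | left i =>
    constructor
    · intro _
      exact ⟨(a, i), rfl⟩
    · rintro _ ⟨a', i'⟩ h
      have h2 : (Fin.natAdd m i').val = (Fin.castAdd n i).val :=
        congrArg (fun x => (Prod.snd x : Fin (m + n)).val) h
      rw [Fin.val_natAdd, Fin.val_castAdd] at h2
      omega
  | right i =>
    constructor
    · intro h
      exact absurd rfl (h (a, i))
    · rintro ⟨⟨a', i'⟩, h⟩
      have h2 : (Fin.castAdd n i').val = (Fin.natAdd m i).val :=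
        congrArg (fun x => (Prod.snd x : Fin (m + n)).val) h
      rw [Fin.val_natAdd, Fin.val_castAdd] at h2
      omega

/-- STD: the pointwise stabiliser of the first m standard handles in the stabiliser of the
boundary word is the stabiliser of the smaller standard surface. -/
theorem std_stab (m n : ℕ) (φ : MulAut (FreeGroup (Fin 2 × Fin (m + n)))) :
    (φ (zeta (m + n)) = zeta (m + n) ∧
      ∀ x, φ (FreeGroup.of (loE m n x)) = FreeGroup.of (loE m n x)) ↔
    ∃ φ' : MulAut (FreeGroup (Fin 2 × Fin n)), φ' (zeta n) = zeta n ∧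
      φ = Pool.Agent.TST.upE (hiE m n) φ' := by
  constructor
  · rintro ⟨h1, h2⟩
    have h3 : ∀ g, φ (FreeGroup.map (loE m n) g) = FreeGroup.map (loE m n) g := by
      intro g
      have : (φ : _ ≃* _).toMonoidHom.comp (FreeGroup.map (loE m n)) =
          FreeGroup.map (loE m n) := by
        refine FreeGroup.ext_hom _ _ fun x => ?_
        change φ (FreeGroup.map (loE m n) (FreeGroup.of x)) = _
        rw [FreeGroup.map.of]
        exact h2 x
      exact DFunLike.congr_fun this g
    have h4 : φ (FreeGroup.map (hiE m n) (zeta n)) = FreeGroup.map (hiE m n) (zeta n) := by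
      rw [zeta_add, map_mul, h3] at h1
      exact mul_left_cancel h1
    have h5 : φ⁻¹ (FreeGroup.map (hiE m n) (zeta n)) = FreeGroup.map (hiE m n) (zeta n) := by
      conv_lhs => rw [← h4]
      exact MulAut.inv_apply_self _ φ _
    obtain ⟨φ', h6⟩ := exists_restr (hiE m n) φ
      (fun g => std_gen (hiE m n) (hiE m n).injective φ (zeta n) h4
        (fun X hX1 hX2 g h => rigid_std hX1 hX2 g h) g)
      (fun g => std_gen (hiE m n) (hiE m n).injective φ⁻¹ (zeta n) h5
        (fun X hX1 hX2 g h => rigid_std hX1 hX2 g h) g)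
      (fun b hb => by
        obtain ⟨i, rfl⟩ := (not_hi_iff m n b).mp hb
        exact h2 i)
    refine ⟨φ', ?_, h6⟩
    apply FreeGroup.map_injective (hiE m n).injective
    rw [← Pool.Agent.TST.upE_map, ← h6, h4]
  · rintro ⟨φ', h1, rfl⟩
    have h2 : ∀ x, Pool.Agent.TST.upE (hiE m n) φ' (FreeGroup.of (loE m n x)) =
        FreeGroup.of (loE m n x) := fun x =>
      Pool.Agent.TST.upE_new _ _ _ ((not_hi_iff m n _).mpr ⟨x, rfl⟩)
    refine ⟨?_, h2⟩
    have h3 : ∀ g, Pool.Agent.TST.upE (hiE m n) φ' (FreeGroup.map (loE m n) g) =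
        FreeGroup.map (loE m n) g := by
      intro g
      have : (Pool.Agent.TST.upE (hiE m n) φ' : _ ≃* _).toMonoidHom.comp
          (FreeGroup.map (loE m n)) = FreeGroup.map (loE m n) := by
        refine FreeGroup.ext_hom _ _ fun x => ?_
        change Pool.Agent.TST.upE (hiE m n) φ' (FreeGroup.map (loE m n) (FreeGroup.of x)) = _
        rw [FreeGroup.map.of]
        exact h2 x
      exact DFunLike.congr_fun this g
    rw [zeta_add, map_mul, h3, Pool.Agent.TST.upE_map, h1]

end Pool.Agent.TOR96
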