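import Pool.Agent.Helper96_TOR.Out
import Pool.Agent.Helper57_TOR.Nu1

/-! Normal form of pointwise stabilisers of simplices in the complex of split systems. -/

set_option autoImplicit false

namespace Pool.Agent.TOR96

open Pool.Agent.TOR Pool.Agent.TOR.H57
open scoped Pointwise

section general

variable {F : Type} [Group F]

theorem exists_restr' {H : Type} [Group H] (la : H →* F) (hla : Function.Injective la)
    (g : MulAut F) (h1 : ∀ a, ∃ a', g (la a) = la a') (h2 : ∀ a, ∃ a', g⁻¹ (la a) = la a') :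
    ∃ φ : MulAut H, ∀ a, g (la a) = la (φ a) := by
  choose f hf using h1
  choose k hk using h2
  let fh : H →* H := MonoidHom.mk' f fun x y => by
    apply hla
    rw [← hf, map_mul, map_mul, hf, hf, map_mul]
  let kh : H →* H := MonoidHom.mk' k fun x y => by
    apply hla
    rw [← hk, map_mul, map_mul, hk, hk, map_mul]
  have e1 : kh.comp fh = MonoidHom.id _ := by
    refine MonoidHom.ext fun x => hla ?_
    change la (k (f x)) = la x
    rw [← hk, ← hf]
    exact MulAut.inv_apply_self _ g _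
  have e2 : fh.comp kh = MonoidHom.id _ := by
    refine MonoidHom.ext fun x => hla ?_
    change la (f (k x)) = la x
    rw [← hf, ← hk]
    exact MulAut.apply_inv_self _ g _
  exact ⟨MonoidHom.toMulEquiv fh kh e1 e2, fun a => hf a⟩

/-- automorphisms which fix a part of a basis and preserve the complement -/
theorem map_compl {b P : Set F} (hP : P ⊆ b) (g : MulAut F) (h1 : ∀ p ∈ P, g p = p)
    (h2 : (Subgroup.closure (b \ P)).map g.toMonoidHom = Subgroup.closure (b \ P)) {X : Set F}
    (hX : X ⊆ P) : (Subgroup.closure (b \ X)).map g.toMonoidHom = Subgroup.closure (b \ X) := by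
  rw [closure_split hP hX, Subgroup.map_sup, h2]
  congr 1
  rw [MonoidHom.map_closure]
  congr 1
  ext x
  constructor
  · rintro ⟨y, hy, rfl⟩
    change g y ∈ P \ X
    rw [h1 y hy.1]
    exact hy
  · intro hx
    exact ⟨x, hx, h1 x hx.1⟩

/-- the pointwise stabiliser of a simplex -/
theorem stab_iff {b : Set F} (hb : IsB b) {ρ : Set (F × Subgroup F)} (hf : ρ.Finite)
    (hv : ∀ v ∈ ρ, v.1 ∈ b ∧ v.2 = Subgroup.closure (b \ {v.1})) (g : MulAut F) :
    (∀ v ∈ ρ, g • v = v) ↔ (∀ p ∈ Prod.fst '' ρ, g p = p) ∧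
      (Subgroup.closure (b \ Prod.fst '' ρ)).map g.toMonoidHom =
        Subgroup.closure (b \ Prod.fst '' ρ) := by
  constructor
  · intro h
    have h1 : ∀ g : MulAut F, (∀ v ∈ ρ, g • v = v) → ∀ x ∈ Subgroup.closure (b \ Prod.fst '' ρ),
        g x ∈ Subgroup.closure (b \ Prod.fst '' ρ) := by
      intro g h x hx
      rw [closure_compl hb _ (hf.image _)] at hx ⊢
      rintro _ ⟨v, hvρ, rfl⟩
      have h2 := hx v.1 ⟨v, hvρ, rfl⟩
      rw [← (hv v hvρ).2] at h2 ⊢
      have h3 : v.2.map g.toMonoidHom = v.2 := congrArg Prod.snd (h v hvρ)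
      rw [← h3]
      exact ⟨x, h2, rfl⟩
    refine ⟨?_, ?_⟩
    · rintro _ ⟨v, hvρ, rfl⟩
      exact congrArg Prod.fst (h v hvρ)
    · apply le_antisymm
      · rintro _ ⟨x, hx, rfl⟩
        exact h1 g h x hx
      · intro x hx
        have h4 : ∀ v ∈ ρ, g⁻¹ • v = v := fun v hvρ => by
          rw [inv_smul_eq_iff, h v hvρ]
        exact ⟨g⁻¹ x, h1 g⁻¹ h4 x hx, MulAut.apply_inv_self _ g x⟩
  · rintro ⟨h1, h2⟩ v hvρ
    have hP : Prod.fst '' ρ ⊆ b := by
      rintro _ ⟨v, hvρ, rfl⟩
      exact (hv v hvρ).1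
    apply Prod.ext
    · exact h1 v.1 ⟨v, hvρ, rfl⟩
    · change v.2.map g.toMonoidHom = v.2
      rw [(hv v hvρ).2]
      exact map_compl hP g h1 h2 (Set.singleton_subset_iff.mpr ⟨v, hvρ, rfl⟩)

/-- an element without coordinates at P is homologous to its projection -/
theorem ab_proj {b P : Set F} (hb : IsB b) (hPf : P.Finite) {R : F →* F}
    (hR1 : ∀ x ∈ b, x ∉ P → R x = x) (hR2 : ∀ x ∈ P, R x = 1) {w : F}
    (hw : ∀ p ∈ P, w ∈ Subgroup.closure (b \ {p}) ⊔ commutator F) :
    Abelianization.of (R w) = Abelianization.of w := by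
  classical
  have hχ : ∀ x : F, ∃ χ : F →* Multiplicative ℤ, ∀ y ∈ b,
      χ y = if y = x then Multiplicative.ofAdd 1 else 1 := fun x => hb.hom_exists _
  choose χ hχ using hχ
  have h1 : ∀ p ∈ P, χ p w = 1 := by
    intro p hp
    have h2 : Subgroup.closure (b \ {p}) ⊔ commutator F ≤ (χ p).ker := by
      refine sup_le ?_ (Abelianization.commutator_subset_ker _)
      rw [Subgroup.closure_le]
      intro y hy
      rw [SetLike.mem_coe, MonoidHom.mem_ker, hχ p y hy.1]
      exact if_neg hy.2
    exact h2 (hw p hp)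
  let Φ : F →* Abelianization F := ∏ p ∈ hPf.toFinset,
    ((zpowersHom (Abelianization F) (Abelianization.of p)).comp (χ p))
  have h2 : (Abelianization.of : F →* Abelianization F) = (Abelianization.of.comp R) * Φ := by
    refine hb.hom_ext _ _ fun y hy => ?_
    rw [MonoidHom.mul_apply, MonoidHom.finsetProd_apply]
    have h3 : ∀ p ∈ hPf.toFinset, ((zpowersHom (Abelianization F) (Abelianization.of p)).comp
        (χ p)) y = if p = y then Abelianization.of y else 1 := by
      intro p _
      rw [MonoidHom.comp_apply, hχ p y hy]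
      by_cases h : p = y
      · rw [if_pos h.symm, if_pos h, h, zpowersHom_apply]
        simp
      · rw [if_neg (fun h' => h h'.symm), if_neg h, map_one]
    rw [Finset.prod_congr rfl h3, Finset.prod_ite_eq', MonoidHom.comp_apply]
    by_cases h : y ∈ P
    · rw [hR2 y h, map_one, one_mul, if_pos (by simpa using h)]
    · rw [hR1 y hy h, if_neg (by simpa using h), mul_one]
  have h3 := DFunLike.congr_fun h2 w
  rw [MonoidHom.mul_apply, MonoidHom.finsetProd_apply] at h3
  have h4 : ∏ p ∈ hPf.toFinset, ((zpowersHom (Abelianization F) (Abelianization.of p)).comp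
      (χ p)) w = 1 := by
    refine Finset.prod_eq_one fun p hp => ?_
    rw [MonoidHom.comp_apply, h1 p (by simpa using hp), map_one]
  rw [h4, mul_one] at h3
  exact h3.symm

/-- conjugation by an isomorphism -/
theorem congr_IA {H : Type} [Group H] (E : H ≃* F) (φ : MulAut H) (hφ : φ ∈ IA H) :
    MulAut.congr E φ ∈ IA F := by
  intro x
  change Abelianization.of (E (φ (E.symm x))) = Abelianization.of x
  have h1 := ab_congr E.toMonoidHom (hφ (E.symm x))
  exact h1.trans (congrArg Abelianization.of (E.apply_symm_apply x))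

end general

/-- NORMAL FORM: the pointwise stabilisers of two nested simplices. -/
theorem nf {F : Type} [Group F] {b : Set F} (hb : IsB b) (hbf : b.Finite)
    {ρ ρ' : Set (F × Subgroup F)} (h : ρ ⊆ ρ')
    (hv : ∀ v ∈ ρ', v.1 ∈ b ∧ v.2 = Subgroup.closure (b \ {v.1})) (f : F →* Multiplicative ℤ)
    (w : F) (hfw : f w = 1) (hgd : ∀ v ∈ ρ', gd f w v) {m K : ℕ}
    (hm : m + ρ'.ncard = b.ncard) (hK : ρ.ncard + K = ρ'.ncard) :
    ∃ (e : MulAut (FreeGroup (Fin m ⊕ Fin K)) →* MulAut F) (w0 : FreeGroup (Fin m))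
      (f0 : FreeGroup (Fin m) →* Multiplicative ℤ), Function.Injective e ∧ f0 w0 = 1 ∧
      (∀ g : MulAut F, (∀ v ∈ ρ, g • v = v) ↔ ∃ φ, e φ = g) ∧
      (∀ g : MulAut F, (∀ v ∈ ρ', g • v = v) ↔
        ∃ φ : MulAut (FreeGroup (Fin m)), e (H57.st φ) = g) ∧
      (∀ φ, e φ ∈ H57.IA F ↔ φ ∈ H57.IA (FreeGroup (Fin m ⊕ Fin K))) ∧
      (∀ φ, (∀ x : F, Abelianization.of (e φ x) =
          Abelianization.of (x * w ^ Multiplicative.toAdd (f x))) ↔
        ((∀ i, Abelianization.of (φ (FreeGroup.of (Sum.inl i))) =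
          Abelianization.of (FreeGroup.of (Sum.inl i) *
            H57.inn w0 ^ Multiplicative.toAdd (f0 (FreeGroup.of i)))) ∧
        ∀ j, Abelianization.of (φ (FreeGroup.of (Sum.inr j))) =
          Abelianization.of (FreeGroup.of (Sum.inr j)))) := by
  classical
  set P : Set F := Prod.fst '' ρ with hPd
  set P' : Set F := Prod.fst '' ρ' with hPd'
  have hPP' : P ⊆ P' := Set.image_mono h
  have hP'b : P' ⊆ b := by
    rintro _ ⟨v, hvρ, rfl⟩
    exact (hv v hvρ).1
  have hPb : P ⊆ b := hPP'.trans hP'b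
  have hinjf : Set.InjOn Prod.fst ρ' := by
    intro v hv1 w hw1 hvw
    apply Prod.ext hvw
    rw [(hv v hv1).2, (hv w hw1).2, hvw]
  have hP'f : P'.Finite := hbf.subset hP'b
  have hPf : P.Finite := hbf.subset hPb
  have hρ'f : ρ'.Finite := Set.Finite.of_finite_image hP'f hinjf
  have hρf : ρ.Finite := hρ'f.subset h
  have c1 : P'.ncard = ρ'.ncard := Set.InjOn.ncard_image hinjf
  have c2 : P.ncard = ρ.ncard := Set.InjOn.ncard_image (hinjf.mono h)
  have c3 : (b \ P').ncard = m := by
    rw [Set.ncard_sdiff hP'b hP'f, c1]; omega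
  have c4 : (P' \ P).ncard = K := by
    rw [Set.ncard_sdiff hPP' hPf, c1, c2]; omega
  have fin1 : Finite (b \ P' : Set F) := hbf.subset Set.sdiff_subset
  have fin2 : Finite (P' \ P : Set F) := hP'f.subset Set.sdiff_subset
  rw [← Nat.card_coe_set_eq] at c3 c4
  let e1 : Fin m ≃ (b \ P' : Set F) := (Finite.equivFinOfCardEq c3).symm
  let e2 : Fin K ≃ (P' \ P : Set F) := (Finite.equivFinOfCardEq c4).symm
  -- the letters
  let c : (Fin m ⊕ Fin K) ⊕ P → F :=
    Sum.elim (Sum.elim (fun i => (e1 i : F)) (fun j => (e2 j : F))) (fun p => (p : F))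
  have hcb : ∀ s, c s ∈ b := by
    rintro ((i | j) | p)
    · exact (e1 i).2.1
    · exact hP'b (e2 j).2.1
    · exact hPb p.2
  let cb : ((Fin m ⊕ Fin K) ⊕ P) ≃ b := Equiv.ofBijective (fun s => ⟨c s, hcb s⟩) (by
    constructor
    · intro s t hst
      have hst' : c s = c t := congrArg Subtype.val hst
      rcases s with (i | j) | p <;> rcases t with (i' | j') | p'
      · have := e1.injective (Subtype.ext hst')
        rw [this]
      · exfalso
        have h1 : (e1 i : F) = e2 j' := hst'
        exact (e1 i).2.2 (h1 ▸ (e2 j').2.1)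
      · exfalso
        have h1 : (e1 i : F) = p' := hst'
        exact (e1 i).2.2 (h1 ▸ hPP' p'.2)
      · exfalso
        have h1 : (e2 j : F) = e1 i' := hst'
        exact (e1 i').2.2 (h1 ▸ (e2 j).2.1)
      · have := e2.injective (Subtype.ext hst')
        rw [this]
      · exfalso
        have h1 : (e2 j : F) = p' := hst'
        exact (e2 j).2.2 (h1 ▸ p'.2)
      · exfalso
        have h1 : (p : F) = e1 i' := hst'
        exact (e1 i').2.2 (h1 ▸ hPP' p.2)
      · exfalso
        have h1 : (p : F) = e2 j' := hst'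
        exact (e2 j').2.2 (h1 ▸ p.2)
      · have : p = p' := Subtype.ext hst'
        rw [this]
    · rintro ⟨x, hx⟩
      by_cases h1 : x ∈ P
      · exact ⟨Sum.inr ⟨x, h1⟩, rfl⟩
      · by_cases h2 : x ∈ P'
        · refine ⟨Sum.inl (Sum.inr (e2.symm ⟨x, h2, h1⟩)), Subtype.ext ?_⟩
          change (e2 (e2.symm ⟨x, h2, h1⟩) : F) = x
          rw [Equiv.apply_symm_apply]
        · refine ⟨Sum.inl (Sum.inl (e1.symm ⟨x, hx, h2⟩)), Subtype.ext ?_⟩
          change (e1 (e1.symm ⟨x, hx, h2⟩) : F) = x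
          rw [Equiv.apply_symm_apply])
  let E0 : FreeGroup ((Fin m ⊕ Fin K) ⊕ P) ≃* F :=
    (FreeGroup.freeGroupCongr cb).trans (MulEquiv.ofBijective _ hb)
  have hE0 : ∀ s, E0 (FreeGroup.of s) = c s := by
    intro s
    change FreeGroup.lift (fun x : b => (x : F)) (FreeGroup.freeGroupCongr cb (FreeGroup.of s)) = _
    rw [FreeGroup.freeGroupCongr_apply, FreeGroup.map.of, FreeGroup.lift_apply_of]
    rfl
  let la : FreeGroup (Fin m ⊕ Fin K) →* F := E0.toMonoidHom.comp inn
  have hla : ∀ s, la (FreeGroup.of s) = c (Sum.inl s) := by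
    intro s
    change E0 (inn (FreeGroup.of s)) = _
    rw [inn_of, hE0]
  let r : F →* FreeGroup (Fin m ⊕ Fin K) :=
    (FreeGroup.lift (Sum.elim FreeGroup.of (fun _ => 1))).comp E0.symm.toMonoidHom
  have hr : ∀ a, r (la a) = a := by
    intro a
    have h1 : r.comp la = MonoidHom.id _ := by
      refine FreeGroup.ext_hom _ _ fun s => ?_
      change FreeGroup.lift (Sum.elim FreeGroup.of (fun _ => 1))
        (E0.symm (E0 (inn (FreeGroup.of s)))) = FreeGroup.of s
      rw [MulEquiv.symm_apply_apply, inn_of, FreeGroup.lift_apply_of]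
      rfl
    exact DFunLike.congr_fun h1 a
  have hlainj : Function.Injective la := Function.LeftInverse.injective hr
  let mu : FreeGroup (Fin m) →* F := la.comp inn
  have hmu : ∀ i, mu (FreeGroup.of i) = e1 i := by
    intro i
    change la (inn (FreeGroup.of i)) = _
    rw [inn_of, hla]
    rfl
  let r' : F →* FreeGroup (Fin m) :=
    (FreeGroup.lift (Sum.elim FreeGroup.of (fun _ => 1))).comp r
  have hr' : ∀ a, r' (mu a) = a := by
    intro a
    have h1 : r'.comp mu = MonoidHom.id _ := by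
      refine FreeGroup.ext_hom _ _ fun s => ?_
      change FreeGroup.lift (Sum.elim FreeGroup.of (fun _ => 1))
        (r (la (inn (FreeGroup.of s)))) = FreeGroup.of s
      rw [hr, inn_of, FreeGroup.lift_apply_of]
      rfl
    exact DFunLike.congr_fun h1 a
  have hmuinj : Function.Injective mu := Function.LeftInverse.injective hr'
  have hmur : mu.range = Subgroup.closure (b \ P') := by
    rw [MonoidHom.range_eq_map, ← FreeGroup.closure_range_of, MonoidHom.map_closure]
    congr 1
    ext x
    constructor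
    · rintro ⟨_, ⟨i, rfl⟩, rfl⟩
      rw [hmu]
      exact (e1 i).2
    · intro hx
      refine ⟨FreeGroup.of (e1.symm ⟨x, hx⟩), ⟨_, rfl⟩, ?_⟩
      rw [hmu, Equiv.apply_symm_apply]
  have hlar : la.range = Subgroup.closure (b \ P) := by
    rw [MonoidHom.range_eq_map, ← FreeGroup.closure_range_of, MonoidHom.map_closure]
    congr 1
    ext x
    constructor
    · rintro ⟨_, ⟨s, rfl⟩, rfl⟩
      rw [hla]
      rcases s with i | j
      · exact ⟨(e1 i).2.1, fun h1 => (e1 i).2.2 (hPP' h1)⟩
      · exact ⟨hP'b (e2 j).2.1, (e2 j).2.2⟩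
    · intro hx
      by_cases h2 : x ∈ P'
      · refine ⟨FreeGroup.of (Sum.inr (e2.symm ⟨x, h2, hx.2⟩)), ⟨_, rfl⟩, ?_⟩
        rw [hla]
        change (e2 (e2.symm ⟨x, h2, hx.2⟩) : F) = x
        rw [Equiv.apply_symm_apply]
      · refine ⟨FreeGroup.of (Sum.inl (e1.symm ⟨x, hx.1, h2⟩)), ⟨_, rfl⟩, ?_⟩
        rw [hla]
        change (e1 (e1.symm ⟨x, hx.1, h2⟩) : F) = x
        rw [Equiv.apply_symm_apply]
  -- the embedding of automorphisms
  let e : MulAut (FreeGroup (Fin m ⊕ Fin K)) →* MulAut F :=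
    (MulAut.congr E0).toMonoidHom.comp H57.st
  have he : ∀ φ a, e φ (la a) = la (φ a) := by
    intro φ a
    change E0 (H57.st φ (E0.symm (E0 (inn a)))) = E0 (inn (φ a))
    rw [MulEquiv.symm_apply_apply, st_inn]
  have heP : ∀ φ, ∀ p ∈ P, e φ p = p := by
    intro φ p hp
    have h1 : p = E0 (FreeGroup.of (Sum.inr ⟨p, hp⟩)) := by rw [hE0]; rfl
    conv_lhs => rw [h1]
    change E0 (H57.st φ (E0.symm (E0 (FreeGroup.of (Sum.inr ⟨p, hp⟩))))) = p
    rw [MulEquiv.symm_apply_apply, st_inr, ← h1]
  have hcases : ∀ x ∈ b, (∃ s, x = la (FreeGroup.of s)) ∨ x ∈ P := by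
    intro x hx
    obtain ⟨s, hs⟩ := cb.surjective ⟨x, hx⟩
    have hs' : c s = x := congrArg Subtype.val hs
    rcases s with s | p
    · left
      exact ⟨s, by rw [hla, hs']⟩
    · right
      rw [← hs']
      exact p.2
  have hext : ∀ g g' : MulAut F, (∀ s, g (la (FreeGroup.of s)) = g' (la (FreeGroup.of s))) →
      (∀ p ∈ P, g p = g' p) → g = g' := by
    intro g g' h1 h2
    have h3 : (g : F ≃* F).toMonoidHom = (g' : F ≃* F).toMonoidHom := by
      refine hb.hom_ext _ _ fun x hx => ?_
      rcases hcases x hx with ⟨s, rfl⟩ | hp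
      · exact h1 s
      · exact h2 x hp
    exact MulEquiv.ext fun x => DFunLike.congr_fun h3 x
  -- the vector
  obtain ⟨R, hR⟩ := hb.hom_exists (fun x => if x ∈ P' then (1 : F) else x)
  have hR1 : ∀ x ∈ b, x ∉ P' → R x = x := fun x hx h1 => by rw [hR x hx, if_neg h1]
  have hR2 : ∀ x ∈ P', R x = 1 := fun x hx => by rw [hR x (hP'b hx), if_pos hx]
  have hwR : Abelianization.of (R w) = Abelianization.of w := by
    refine ab_proj hb hP'f hR1 hR2 ?_
    rintro _ ⟨v, hvρ, rfl⟩
    have h1 := (hgd v hvρ).2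
    rwa [(hv v hvρ).2] at h1
  have hRw : R w ∈ mu.range := by
    rw [hmur]
    have h6 : Subgroup.closure b ≤ (Subgroup.closure (b \ P')).comap R := by
      rw [Subgroup.closure_le]
      intro y hy
      change R y ∈ Subgroup.closure (b \ P')
      by_cases h1 : y ∈ P'
      · rw [hR2 y h1]; exact Subgroup.one_mem _
      · rw [hR1 y hy h1]; exact Subgroup.subset_closure ⟨hy, h1⟩
    rw [hb.closure] at h6
    exact h6 (Subgroup.mem_top w)
  obtain ⟨w0, hw0⟩ := hRw
  have hw0' : Abelianization.of (mu w0) = Abelianization.of w := by rw [hw0, hwR]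
  have hfP : ∀ p ∈ P', f p = 1 := by
    rintro _ ⟨v, hvρ, rfl⟩
    exact (hgd v hvρ).1
  have hf0 : f (mu w0) = 1 := by
    rw [← hfw]
    have h1 : ∀ x, f x = (Abelianization.lift f) (Abelianization.of x) := fun x => by
      rw [Abelianization.lift_apply_of]
    rw [h1, h1 w, hw0']
  have key5 : ∀ φ : MulAut (FreeGroup (Fin m ⊕ Fin K)), ∀ x : F,
      Abelianization.of (x * w ^ Multiplicative.toAdd (f x)) =
      Abelianization.of (x * (mu w0) ^ Multiplicative.toAdd (f x)) := by
    intro φ x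
    rw [map_mul, map_mul, map_zpow, map_zpow, hw0']
  refine ⟨e, w0, f.comp mu, ?_, hf0, ?_, ?_, ?_, ?_⟩
  · intro φ ψ hφψ
    refine MulEquiv.ext fun a => hlainj ?_
    rw [← he, ← he, hφψ]
  · intro g
    rw [stab_iff hb hρf (fun v hvρ => hv v (h hvρ))]
    constructor
    · rintro ⟨h1, h2⟩
      have h3 : ∀ a, ∃ a', g (la a) = la a' := by
        intro a
        have h4 : g (la a) ∈ la.range := by
          rw [hlar, ← h2]
          exact ⟨la a, by rw [← hlar]; exact ⟨a, rfl⟩, rfl⟩
        obtain ⟨a', ha'⟩ := h4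
        exact ⟨a', ha'.symm⟩
      have h3' : ∀ a, ∃ a', g⁻¹ (la a) = la a' := by
        intro a
        have h4 : la a ∈ (Subgroup.closure (b \ P)).map g.toMonoidHom := by
          rw [h2, ← hlar]
          exact ⟨a, rfl⟩
        obtain ⟨y, hy, hy'⟩ := h4
        rw [← hlar] at hy
        obtain ⟨a', rfl⟩ := hy
        refine ⟨a', ?_⟩
        rw [← hy']
        exact MulAut.inv_apply_self _ g _
      obtain ⟨φ, hφ⟩ := exists_restr' la hlainj g h3 h3'
      refine ⟨φ, hext _ _ (fun s => by rw [he, hφ]) (fun p hp => by rw [heP φ p hp, h1 p hp])⟩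
    · rintro ⟨φ, rfl⟩
      refine ⟨heP φ, ?_⟩
      change (Subgroup.closure (b \ P)).map (e φ).toMonoidHom = Subgroup.closure (b \ P)
      rw [← hlar]
      ext x
      constructor
      · rintro ⟨_, ⟨a, rfl⟩, rfl⟩
        exact ⟨φ a, (he φ a).symm⟩
      · rintro ⟨a, rfl⟩
        refine ⟨la (φ⁻¹ a), ⟨_, rfl⟩, ?_⟩
        change e φ (la (φ⁻¹ a)) = la a
        rw [he]
        congr 1
        exact MulAut.apply_inv_self _ φ a
  · intro g
    rw [stab_iff hb hρ'f hv]
    have hlQ : ∀ j, la (FreeGroup.of (Sum.inr j)) = e2 j := fun j => hla _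
    have hst : ∀ φ : MulAut (FreeGroup (Fin m)), ∀ a, e (H57.st φ) (mu a) = mu (φ a) := by
      intro φ a
      change e (H57.st φ) (la (inn a)) = la (inn (φ a))
      rw [he, st_inn]
    have hstP : ∀ φ : MulAut (FreeGroup (Fin m)), ∀ p ∈ P', e (H57.st φ) p = p := by
      intro φ p hp
      by_cases h1 : p ∈ P
      · exact heP _ p h1
      · have h2 : p = la (FreeGroup.of (Sum.inr (e2.symm ⟨p, hp, h1⟩))) := by
          rw [hlQ, Equiv.apply_symm_apply]
        rw [h2, he, st_inr]
    constructor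
    · rintro ⟨h1, h2⟩
      have h3 : ∀ a, ∃ a', g (mu a) = mu a' := by
        intro a
        have h4 : g (mu a) ∈ mu.range := by
          rw [hmur, ← h2]
          exact ⟨mu a, by rw [← hmur]; exact ⟨a, rfl⟩, rfl⟩
        obtain ⟨a', ha'⟩ := h4
        exact ⟨a', ha'.symm⟩
      have h3' : ∀ a, ∃ a', g⁻¹ (mu a) = mu a' := by
        intro a
        have h4 : mu a ∈ (Subgroup.closure (b \ P')).map g.toMonoidHom := by
          rw [h2, ← hmur]
          exact ⟨a, rfl⟩
        obtain ⟨y, hy, hy'⟩ := h4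
        rw [← hmur] at hy
        obtain ⟨a', rfl⟩ := hy
        refine ⟨a', ?_⟩
        rw [← hy']
        exact MulAut.inv_apply_self _ g _
      obtain ⟨φ, hφ⟩ := exists_restr' mu hmuinj g h3 h3'
      refine ⟨φ, hext _ _ ?_ (fun p hp => by rw [heP _ p hp, h1 p (hPP' hp)])⟩
      rintro (i | j)
      · have h5 : la (FreeGroup.of (Sum.inl i)) = mu (FreeGroup.of i) := by
          change _ = la (inn (FreeGroup.of i))
          rw [inn_of]
        rw [h5, hst, hφ]
      · rw [hlQ, hstP φ _ (e2 j).2.1, h1 _ (e2 j).2.1]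
    · rintro ⟨φ, rfl⟩
      refine ⟨hstP φ, ?_⟩
      change (Subgroup.closure (b \ P')).map (e (H57.st φ)).toMonoidHom =
        Subgroup.closure (b \ P')
      rw [← hmur]
      ext x
      constructor
      · rintro ⟨_, ⟨a, rfl⟩, rfl⟩
        exact ⟨φ a, (hst φ a).symm⟩
      · rintro ⟨a, rfl⟩
        refine ⟨mu (φ⁻¹ a), ⟨_, rfl⟩, ?_⟩
        change e (H57.st φ) (mu (φ⁻¹ a)) = mu a
        rw [hst]
        congr 1
        exact MulAut.apply_inv_self _ φ a
  · intro φ
    constructor
    · intro h1 a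
      have h2 := h1 (la a)
      rw [he] at h2
      have h3 := ab_congr r h2
      rwa [hr, hr] at h3
    · intro h1
      exact congr_IA E0 _ (st_mem φ h1)
  · intro φ
    have hfl : ∀ i, f (la (FreeGroup.of (Sum.inl i))) = (f.comp mu) (FreeGroup.of i) := by
      intro i
      change _ = f (la (inn (FreeGroup.of i)))
      rw [inn_of]
    have hfr : ∀ j, f (la (FreeGroup.of (Sum.inr j))) = 1 := by
      intro j
      rw [hla]
      exact hfP _ (e2 j).2.1
    constructor
    · intro h1
      refine ⟨fun i => ?_, fun j => ?_⟩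
      · have h2 := h1 (la (FreeGroup.of (Sum.inl i)))
        rw [he, key5 φ, hfl] at h2
        have h3 : la (FreeGroup.of (Sum.inl i)) * mu w0 ^ Multiplicative.toAdd
            ((f.comp mu) (FreeGroup.of i)) = la (FreeGroup.of (Sum.inl i) *
            inn w0 ^ Multiplicative.toAdd ((f.comp mu) (FreeGroup.of i))) := by
          rw [map_mul, map_zpow]
          rfl
        rw [h3] at h2
        have h4 := ab_congr r h2
        rwa [hr, hr] at h4
      · have h2 := h1 (la (FreeGroup.of (Sum.inr j)))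
        rw [he, hfr, toAdd_one, zpow_zero, mul_one] at h2
        have h4 := ab_congr r h2
        rwa [hr, hr] at h4
    · rintro ⟨h1, h2⟩
      let G1 : F →* Abelianization F := Abelianization.of.comp (e φ : F ≃* F).toMonoidHom
      let G2 : F →* Abelianization F := Abelianization.of *
        ((zpowersHom (Abelianization F) (Abelianization.of w)).comp f)
      have h3 : G1 = G2 := by
        refine hb.hom_ext _ _ fun x hx => ?_
        change Abelianization.of (e φ x) = Abelianization.of x *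
          (zpowersHom (Abelianization F) (Abelianization.of w)) (f x)
        rw [zpowersHom_apply, ← map_zpow, ← map_mul]
        rcases hcases x hx with ⟨s, rfl⟩ | hp
        · rcases s with i | j
          · rw [he, key5 φ, hfl]
            have h4 := ab_congr la (h1 i)
            rw [h4, map_mul, map_zpow]
            rfl
          · rw [he, hfr, toAdd_one, zpow_zero, mul_one]
            exact ab_congr la (h2 j)
        · rw [heP φ x hp, hfP x (hPP' hp), toAdd_one, zpow_zero, mul_one]
      intro x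
      have h4 := DFunLike.congr_fun h3 x
      change Abelianization.of (e φ x) = Abelianization.of x *
          (zpowersHom (Abelianization F) (Abelianization.of w)) (f x) at h4
      rw [h4, zpowersHom_apply, map_mul, map_zpow]

end Pool.Agent.TOR96
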