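import Pool.Agent.Helper96_TOR.UnionO

set_option autoImplicit false

namespace Pool.Agent.TOR96

open Pool.Agent.TOR.H58 Finsupp

variable {V : Type*} {M : Type*} [AddCommGroup M]

/-- put a list at the end -/
noncomputable def app (ρ : List V) : (List V →₀ M) →+ (List V →₀ M) :=
  Finsupp.mapDomain.addMonoidHom (fun l => l ++ ρ)

theorem app_single (ρ l : List V) (m : M) : app ρ (single l m) = single (l ++ ρ) m := by
  simp [app, Finsupp.mapDomain.addMonoidHom, Finsupp.mapDomain_single]

/-- put a list in front -/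
noncomputable def pre (Y : List V) : (List V →₀ M) →+ (List V →₀ M) :=
  Finsupp.mapDomain.addMonoidHom (fun l => Y ++ l)

theorem pre_single (Y l : List V) (m : M) : pre Y (single l m) = single (Y ++ l) m := by
  simp [pre, Finsupp.mapDomain.addMonoidHom, Finsupp.mapDomain_single]

theorem pre_nil (c : List V →₀ M) : pre [] c = c := by
  induction c using Finsupp.induction_linear with
  | zero => simp
  | add f g hf hg => rw [map_add, hf, hg]
  | single l m => rw [pre_single, List.nil_append]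

theorem cns_pre (v : V) (Y : List V) (c : List V →₀ M) : cns v (pre Y c) = pre (v :: Y) c := by
  induction c using Finsupp.induction_linear with
  | zero => simp
  | add f g hf hg => simp only [map_add, hf, hg]
  | single l m => rw [pre_single, pre_single, cns_single, List.cons_append]

theorem cns_app (v : V) (ρ : List V) (c : List V →₀ M) : cns v (app ρ c) = app ρ (cns v c) := by
  induction c using Finsupp.induction_linear with
  | zero => simp
  | add f g hf hg => simp only [map_add, hf, hg]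
  | single l m => rw [app_single, cns_single, cns_single, app_single, List.cons_append]

theorem bd1_append (ρ : List V) (x : M) : ∀ Y : List V,
    bd1 (Y ++ ρ) x = app ρ (bd1 Y x) + (-1 : ℤ) ^ Y.length • pre Y (bd1 ρ x) := by
  intro Y
  induction Y with
  | nil => simp [bd1_nil, pre_nil]
  | cons v Y ih =>
    rw [List.cons_append, bd1_cons, bd1_cons, ih, map_add, map_zsmul, cns_pre, cns_app, map_sub,
      app_single, List.length_cons, pow_succ]
    simp only [mul_neg, mul_one, neg_smul]
    abel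

theorem app_inj (ρ : List V) : Function.Injective (fun l : List V => l ++ ρ) :=
  fun _ _ h => List.append_cancel_right h

theorem app_mem {Q Q' : List V → Prop} {ρ : List V} (h : ∀ l, Q l → Q' (l ++ ρ))
    {c : List V →₀ M} (hc : c ∈ Sup M Q) : app ρ c ∈ Sup M Q' :=
  map_mem_Sup _ (fun l hl m => by rw [app_single]; exact single_mem_Sup (h l hl) m) hc

theorem pre_mem {Q Q' : List V → Prop} {Y : List V} (h : ∀ l, Q l → Q' (Y ++ l))
    {c : List V →₀ M} (hc : c ∈ Sup M Q) : pre Y c ∈ Sup M Q' :=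
  map_mem_Sup _ (fun l hl m => by rw [pre_single]; exact single_mem_Sup (h l hl) m) hc

variable (good : V → Prop)

/-- the good vertices come first -/
def GO (l : List V) : Prop :=
  ∃ Y ρ : List V, l = Y ++ ρ ∧ (∀ a ∈ Y, good a) ∧ (∀ a ∈ ρ, ¬ good a)

/-- the bad part of a list -/
noncomputable def bp (l : List V) : List V :=
  open scoped Classical in l.filter (fun a => decide (¬ good a))

variable {good}

theorem bp_sub {l l' : List V} (h : l'.Sublist l) : (bp good l').Sublist (bp good l) := by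
  classical
  exact h.filter _

theorem bp_append (l l' : List V) : bp good (l ++ l') = bp good l ++ bp good l' := by
  classical
  exact List.filter_append ..

theorem bp_good {l : List V} (h : ∀ a ∈ l, good a) : bp good l = [] := by
  classical
  unfold bp
  rw [List.filter_eq_nil_iff]
  intro a ha
  simpa using h a ha

theorem bp_bad {l : List V} (h : ∀ a ∈ l, ¬ good a) : bp good l = l := by
  classical
  unfold bp
  rw [List.filter_eq_self]
  intro a ha
  simpa using h a ha

theorem good_of_bp {l : List V} (h : bp good l = []) : ∀ a ∈ l, good a := by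
  classical
  unfold bp at h
  rw [List.filter_eq_nil_iff] at h
  intro a ha
  simpa using h a ha

theorem GO.split {l : List V} (h : GO good l) :
    ∃ Y : List V, l = Y ++ bp good l ∧ (∀ a ∈ Y, good a) ∧ (∀ a ∈ bp good l, ¬ good a) := by
  obtain ⟨Y, ρ, rfl, h1, h2⟩ := h
  refine ⟨Y, ?_, h1, ?_⟩
  · rw [bp_append, bp_good h1, bp_bad h2, List.nil_append]
  · rw [bp_append, bp_good h1, bp_bad h2, List.nil_append]
    exact h2

theorem go_ordy : Ordy (GO good) := by
  constructor
  · rintro l l' hs ⟨Y, ρ, rfl, h1, h2⟩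
    obtain ⟨Y', ρ', rfl, h3, h4⟩ := List.sublist_append_iff.mp hs
    exact ⟨Y', ρ', rfl, fun a ha => h1 a (h3.subset ha), fun a ha => h2 a (h4.subset ha)⟩
  · intro U hU
    by_cases h : ∃ v ∈ U, good v
    · obtain ⟨v, hv, hg⟩ := h
      refine ⟨v, hv, ?_⟩
      rintro l ⟨Y, ρ, rfl, h1, h2⟩ _
      refine ⟨v :: Y, ρ, rfl, fun a ha => ?_, h2⟩
      rcases List.mem_cons.mp ha with h | h
      · exact h ▸ hg
      · exact h1 a h
    · push Not at h
      obtain ⟨v, hv⟩ := hU
      refine ⟨v, hv, ?_⟩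
      rintro l ⟨Y, ρ, rfl, h1, h2⟩ h3
      refine ⟨[], v :: (Y ++ ρ), rfl, by simp, fun a ha => ?_⟩
      rcases List.mem_cons.mp ha with h' | h'
      · exact h' ▸ h v hv
      · exact h a (h3 a h')

section main

variable {K : Set V → Prop} (hK : ∀ s t, s ⊆ t → K t → K s) {m : ℕ}

/-- the slice of a chain at ρ -/
noncomputable def slice (ρ : List V) (b : List V →₀ M) : List V →₀ M :=
  Finsupp.comapDomain (fun l => l ++ ρ) b (app_inj ρ).injOn

theorem slice_apply (ρ : List V) (b : List V →₀ M) (Y : List V) : slice ρ b Y = b (Y ++ ρ) :=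
  Finsupp.comapDomain_apply ..

theorem sub_slice_mem {Q : List V → Prop} (ρ : List V) {b : List V →₀ M} (hb : b ∈ Sup M Q) :
    b - app ρ (slice ρ b) ∈ Sup M (fun l => Q l ∧ ¬ ∃ Y, l = Y ++ ρ) := by
  intro l hl
  by_cases h : ∃ Y, l = Y ++ ρ
  · exfalso
    apply hl
    obtain ⟨Y, rfl⟩ := h
    have h1 : app ρ (slice ρ b) (Y ++ ρ) = slice ρ b Y :=
      Finsupp.mapDomain_apply (app_inj ρ) (slice ρ b) Y
    rw [Finsupp.sub_apply, h1, slice_apply, sub_self]
  · have h1 : app ρ (slice ρ b) l = 0 := by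
      refine Finsupp.mapDomain_of_notMem_range (slice ρ b) l ?_
      rintro ⟨Y, hY⟩
      exact h ⟨Y, hY.symm⟩
    rw [Finsupp.sub_apply, h1, sub_zero] at hl
    exact ⟨hb l hl, h⟩

/-- the value of the boundary of a chain supported in Q at a list which is not a face -/
theorem bd_apply_zero {Q : List V → Prop} {c : List V →₀ M} (hc : c ∈ Sup M Q) (l' : List V)
    (h : ∀ l, Q l → ¬ (l'.Sublist l ∧ l'.length + 1 = l.length)) : bd c l' = 0 := by
  have h1 : bd c ∈ Sup M (fun l' => ∃ l, Q l ∧ l'.Sublist l ∧ l'.length + 1 = l.length) :=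
    map_mem_Sup _ (fun l hl x => by
      rw [bd_single]
      exact Sup_mono (fun l' hl' => ⟨l, hl, hl'⟩) (bd1_sub l x)) hc
  by_contra h2
  obtain ⟨l, h3, h4⟩ := h1 l' h2
  exact h l h3 h4

/-- the boundary of app -/
theorem bd_app {Q : List V → Prop} {ρ : List V} {e : List V →₀ M} (he : e ∈ Sup M Q) :
    bd (app ρ e) - app ρ (bd e) ∈ Sup M (fun l => ∃ Y ρ' : List V, Q Y ∧ l = Y ++ ρ' ∧
      ρ'.Sublist ρ ∧ ρ'.length + 1 = ρ.length) := by
  have h1 : ∀ e : List V →₀ M, bd (app ρ e) - app ρ (bd e) =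
      ((bd.comp (app ρ)) - ((app ρ).comp bd) : (List V →₀ M) →+ (List V →₀ M)) e := fun _ => rfl
  rw [h1]
  refine map_mem_Sup _ (fun Y hY x => ?_) he
  rw [← h1, app_single, bd_single, bd_single, bd1_append, add_sub_cancel_left]
  refine AddSubgroup.zsmul_mem _ (pre_mem (fun ρ' hρ' => ⟨Y, ρ', hY, rfl, hρ'⟩) (bd1_sub ρ x)) _

theorem slice_cycle {j : ℕ} {b c : List V →₀ M} {ρ : List V} (hρ : ∀ a ∈ ρ, ¬ good a)
    (hj : ρ.length = j) (hj1 : 1 ≤ j)
    (hb : b ∈ Sup M (fun l => GO good l ∧ (bp good l).length ≤ j))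
    (hc : c ∈ Sup M (fun l => ∀ a ∈ l, good a)) (hbc : bd b = c) :
    bd (slice ρ b) = 0 ∧ slice ρ b ∈ Sup M (fun Y => (∀ a ∈ Y, good a) ∧ b (Y ++ ρ) ≠ 0) := by
  have h0 : slice ρ b ∈ Sup M (fun Y => (∀ a ∈ Y, good a) ∧ b (Y ++ ρ) ≠ 0) := by
    intro Y hY
    rw [slice_apply] at hY
    have h1 := (hb _ hY).2
    rw [bp_append, bp_bad hρ, List.length_append, hj] at h1
    exact ⟨good_of_bp (List.length_eq_zero_iff.mp (by omega)), hY⟩
  refine ⟨?_, h0⟩
  ext Y'
  have h1 : b = app ρ (slice ρ b) + (b - app ρ (slice ρ b)) := by abel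
  have h2 : bd b (Y' ++ ρ) = 0 := by
    rw [hbc]
    by_contra h
    have h3 := hc _ h
    obtain ⟨a, ha⟩ := List.exists_mem_of_length_pos (l := ρ) (by omega)
    exact hρ a ha (h3 a (List.mem_append_right _ ha))
  have h3 : bd (b - app ρ (slice ρ b)) (Y' ++ ρ) = 0 := by
    have h4 := sub_slice_mem ρ hb
    refine bd_apply_zero h4 _ ?_
    rintro l ⟨⟨h5, h6⟩, h7⟩ ⟨h8, h9⟩
    apply h7
    have h10 := bp_sub (good := good) h8
    rw [bp_append, bp_bad hρ] at h10
    obtain ⟨Y, h11, _, _⟩ := h5.split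
    have h12 : bp good Y' ++ ρ = bp good l := by
      apply h10.eq_of_length_le
      rw [List.length_append]
      omega
    have h13 : bp good Y' = [] := by
      have := congrArg List.length h12
      rw [List.length_append] at this
      exact List.length_eq_zero_iff.mp (by omega)
    rw [h13, List.nil_append] at h12
    exact ⟨Y, by rw [h12]; exact h11⟩
  have h4 : (bd (app ρ (slice ρ b)) - app ρ (bd (slice ρ b))) (Y' ++ ρ) = 0 := by
    by_contra h
    obtain ⟨Y, ρ', h5, h6, h7, h8⟩ := bd_app h0 _ h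
    have h9 := congrArg (bp good) h6
    rw [bp_append, bp_append, bp_good h5.1, bp_bad hρ,
      bp_bad (fun a ha => hρ a (h7.subset ha)), List.nil_append] at h9
    have := congrArg List.length h9
    rw [List.length_append] at this
    omega
  have h5 : app ρ (bd (slice ρ b)) (Y' ++ ρ) = bd (slice ρ b) Y' :=
    Finsupp.mapDomain_apply (app_inj ρ) _ _
  rw [Finsupp.coe_zero, Pi.zero_apply, ← h5]
  rw [h1, map_add, Finsupp.add_apply, h3, add_zero] at h2
  rw [Finsupp.sub_apply, h2, zero_sub, neg_eq_zero] at h4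
  exact h4

include hK

/-- elimination of the lists with at least two bad vertices -/
theorem bad_elim
    (hL : ∀ ρ : List V, (∀ a ∈ ρ, ¬ good a) → K {a | a ∈ ρ} → 2 ≤ ρ.length → ρ.length ≤ m + 1 →
      AcL M (fun Y => (∀ a ∈ Y, good a) ∧ K ({a | a ∈ Y} ∪ {a | a ∈ ρ})) (m + 1 - ρ.length))
    (c : List V →₀ M) (hc : c ∈ Sup M (fun l => ∀ a ∈ l, good a)) (j : ℕ) (hj : 1 ≤ j)
    (hjm : j ≤ m) :
    ∀ (T : Finset (List V)) (b : List V →₀ M), b ∈ Sup M (fun l => (GO good l ∧ KL K l) ∧
      l.length = m + 1 ∧ (bp good l).length ≤ j + 1 ∧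
      ((bp good l).length = j + 1 → bp good l ∈ T)) → bd b = c →
    ∃ b' ∈ Sup M (fun l => (GO good l ∧ KL K l) ∧ l.length = m + 1 ∧ (bp good l).length ≤ j),
      bd b' = c := by
  classical
  intro T
  induction T using Finset.induction_on with
  | empty =>
    intro b hb hbc
    refine ⟨b, Sup_mono (fun l hl => ⟨hl.1, hl.2.1, ?_⟩) hb, hbc⟩
    have h1 := hl.2.2.1
    have h2 : (bp good l).length ≠ j + 1 := fun h => by simpa using hl.2.2.2 h
    omega
  | insert ρ T hρT ih =>
    intro b hb hbc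
    by_cases hρ : (∀ a ∈ ρ, ¬ good a) ∧ K {a | a ∈ ρ} ∧ ρ.length = j + 1
    swap
    · refine ih b (Sup_mono (fun l hl => ⟨hl.1, hl.2.1, hl.2.2.1, fun h => ?_⟩) hb) hbc
      rcases Finset.mem_insert.mp (hl.2.2.2 h) with h1 | h1
      · exfalso
        apply hρ
        obtain ⟨Y, h2, h3, h4⟩ := hl.1.1.split
        rw [← h1]
        refine ⟨h4, hK _ _ ?_ hl.1.2, h⟩
        intro a ha
        change a ∈ l
        rw [h2]
        exact List.mem_append_right _ ha
      · exact h1
    obtain ⟨h1, h2, h3⟩ := hρ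
    obtain ⟨h4, h5⟩ := slice_cycle (good := good) (j := j + 1) (b := b) (c := c) h1 h3 (by omega)
      (Sup_mono (fun l hl => ⟨hl.1.1, hl.2.2.1⟩) hb) hc hbc
    obtain ⟨e, he, heb⟩ := hL ρ h1 h2 (by omega) (by omega) (slice ρ b) (Sup_mono (fun Y hY => by
      obtain ⟨h6, h7⟩ := hY
      obtain ⟨h8, h9, h10⟩ := hb _ h7
      refine ⟨⟨h6, hK _ _ ?_ h8.2⟩, ?_⟩
      · rintro a (ha | ha)
        · exact List.mem_append_left _ ha
        · exact List.mem_append_right _ ha
      · rw [List.length_append] at h9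
        omega) h5) h4
    have h6 := bd_app (ρ := ρ) he
    rw [heb] at h6
    refine ih (b - bd (app ρ e)) ?_ (by rw [map_sub, bd_bd, sub_zero, hbc])
    have h7 : b - bd (app ρ e) = (b - app ρ (slice ρ b)) -
        (bd (app ρ e) - app ρ (slice ρ b)) := by abel
    rw [h7]
    refine AddSubgroup.sub_mem _ ?_ (Sup_mono ?_ h6)
    · refine Sup_mono ?_ (sub_slice_mem ρ hb)
      rintro l ⟨⟨h8, h9, h10, h11⟩, h⟩
      refine ⟨h8, h9, h10, fun h12 => ?_⟩
      rcases Finset.mem_insert.mp (h11 h12) with h13 | h13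
      · exfalso
        obtain ⟨Y, h14, _, _⟩ := h8.1.split
        exact h ⟨Y, by rw [← h13]; exact h14⟩
      · exact h13
    · rintro l ⟨Y, ρ', ⟨⟨h8, h9⟩, h10⟩, rfl, h11, h12⟩
      have h13 : ∀ a ∈ ρ', ¬ good a := fun a ha => h1 a (h11.subset ha)
      have h14 : bp good (Y ++ ρ') = ρ' := by
        rw [bp_append, bp_good h8, bp_bad h13, List.nil_append]
      refine ⟨⟨⟨Y, ρ', rfl, h8, h13⟩, hK _ _ ?_ h9⟩, ?_, ?_, ?_⟩
      · intro a ha
        rcases List.mem_append.mp ha with h | h
        · exact Or.inl h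
        · exact Or.inr (h11.subset h)
      · rw [List.length_append]
        omega
      · rw [h14]
        omega
      · intro h
        rw [h14] at h
        omega

/-- THE BAD SIMPLEX ARGUMENT. -/
theorem bad_red
    (hac : AcL M (fun l => GO good l ∧ KL K l) m)
    (hL : ∀ ρ : List V, (∀ a ∈ ρ, ¬ good a) → K {a | a ∈ ρ} → 2 ≤ ρ.length → ρ.length ≤ m + 1 →
      AcL M (fun Y => (∀ a ∈ Y, good a) ∧ K ({a | a ∈ Y} ∪ {a | a ∈ ρ})) (m + 1 - ρ.length))
    (B : AddSubgroup (List V →₀ M))
    (hB0 : ∀ b ∈ Sup M (fun l => ((∀ a ∈ l, good a) ∧ KL K l) ∧ l.length = m + 1), bd b ∈ B)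
    (hBr : ∀ r, ¬ good r → ∀ y ∈ Sup M (fun Y => ((∀ a ∈ Y, good a) ∧
      K (insert r {a | a ∈ Y})) ∧ Y.length = m), bd y = 0 → y ∈ B)
    (c : List V →₀ M) (hc : c ∈ Sup M (fun l => ((∀ a ∈ l, good a) ∧ KL K l) ∧ l.length = m))
    (h0 : bd c = 0) : c ∈ B := by
  classical
  have hc' : c ∈ Sup M (fun l => ∀ a ∈ l, good a) := Sup_mono (fun l hl => hl.1.1) hc
  obtain ⟨b, hb, hbc⟩ := hac c (Sup_mono (fun l hl => ⟨⟨⟨l, [], by simp, hl.1.1, by simp⟩,
    hl.1.2⟩, hl.2⟩) hc) h0
  -- at most one bad vertex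
  have key : ∀ j : ℕ, 1 ≤ m + 1 - j → ∃ b ∈ Sup M (fun l => (GO good l ∧ KL K l) ∧
      l.length = m + 1 ∧ (bp good l).length ≤ m + 1 - j), bd b = c := by
    intro j
    induction j with
    | zero =>
      intro _
      refine ⟨b, Sup_mono (fun l hl => ⟨hl.1, hl.2, ?_⟩) hb, hbc⟩
      have : (bp good l).length ≤ l.length := List.length_filter_le ..
      omega
    | succ j ih =>
      intro hj
      obtain ⟨b1, hb1, hbc1⟩ := ih (by omega)
      refine bad_elim hK hL c hc' (m + 1 - (j + 1)) hj (by omega)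
        (b1.support.image (bp good)) b1 (fun l hl => ?_) hbc1
      obtain ⟨h1, h2, h3⟩ := hb1 l hl
      refine ⟨h1, h2, by omega, fun _ => ?_⟩
      exact Finset.mem_image_of_mem _ (Finsupp.mem_support_iff.mpr hl)
  obtain ⟨b1, hb1, hbc1⟩ := key m (by omega)
  have hb1' : b1 ∈ Sup M (fun l => (GO good l ∧ KL K l) ∧
      l.length = m + 1 ∧ (bp good l).length ≤ 1) :=
    Sup_mono (fun l hl => ⟨hl.1, hl.2.1, by have := hl.2.2; omega⟩) hb1
  -- remove the bad vertices one by one
  have key2 : ∀ (T : Finset (List V)) (b : List V →₀ M) (c : List V →₀ M),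
      c ∈ Sup M (fun l => ∀ a ∈ l, good a) → b ∈ Sup M (fun l => (GO good l ∧ KL K l) ∧
      l.length = m + 1 ∧ (bp good l).length ≤ 1 ∧
      ((bp good l).length = 1 → bp good l ∈ T)) → bd b = c → c ∈ B := by
    intro T
    induction T using Finset.induction_on with
    | empty =>
      intro b c _ hb hbc
      rw [← hbc]
      refine hB0 b (Sup_mono (fun l hl => ?_) hb)
      have h2 : (bp good l).length ≠ 1 := fun h => by simpa using hl.2.2.2 h
      have h3 := hl.2.2.1
      have h4 : bp good l = [] := List.length_eq_zero_iff.mp (by omega)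
      exact ⟨⟨good_of_bp h4, hl.1.2⟩, hl.2.1⟩
    | insert ρ T hρT ih =>
      intro b c hc' hb hbc
      by_cases hρ : (∀ a ∈ ρ, ¬ good a) ∧ ρ.length = 1
      swap
      · refine ih b c hc' (Sup_mono (fun l hl => ⟨hl.1, hl.2.1, hl.2.2.1, fun h => ?_⟩) hb) hbc
        rcases Finset.mem_insert.mp (hl.2.2.2 h) with h1 | h1
        · exfalso
          apply hρ
          obtain ⟨Y, h2, h3, h4⟩ := hl.1.1.split
          rw [← h1]
          exact ⟨h4, h⟩
        · exact h1
      obtain ⟨h1, h2⟩ := hρ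
      obtain ⟨r, rfl⟩ := List.length_eq_one_iff.mp h2
      have hr : ¬ good r := h1 r (by simp)
      obtain ⟨h4, h5⟩ := slice_cycle (good := good) (j := 1) (b := b) (c := c) h1 h2 le_rfl
        (Sup_mono (fun l hl => ⟨hl.1.1, hl.2.2.1⟩) hb) hc' hbc
      have h6 : slice [r] b ∈ Sup M (fun Y => ((∀ a ∈ Y, good a) ∧
          K (insert r {a | a ∈ Y})) ∧ Y.length = m) := by
        refine Sup_mono (fun Y hY => ?_) h5
        obtain ⟨h6, h7⟩ := hY
        obtain ⟨h8, h9, h10⟩ := hb _ h7
        refine ⟨⟨h6, hK _ _ ?_ h8.2⟩, ?_⟩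
        · rintro a (ha | ha)
          · exact List.mem_append_right _ (by rw [ha]; simp)
          · exact List.mem_append_left _ ha
        · rw [List.length_append] at h9
          simpa using h9
      have h7 := hBr r hr _ h6 h4
      -- the boundary of the part ending with r
      have h8 : bd (app [r] (slice [r] b)) = (-1 : ℤ) ^ m • slice [r] b := by
        have h9 : ∀ e : List V →₀ M, e ∈ Sup M (fun Y => Y.length = m) →
            bd (app [r] e) = app [r] (bd e) + (-1 : ℤ) ^ m • e := by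
          intro e he
          rw [← Finsupp.sum_single e, Finsupp.sum, map_sum, map_sum, map_sum, map_sum,
            Finset.smul_sum, ← Finset.sum_add_distrib]
          refine Finset.sum_congr rfl fun Y hY => ?_
          have h10 : Y.length = m := he Y (Finsupp.mem_support_iff.mp hY)
          rw [app_single, bd_single, bd_single, bd1_append, h10, bd1_cons, bd1_nil, map_zero,
            sub_zero, pre_single, List.append_nil]
        rw [h9 _ (Sup_mono (fun Y hY => hY.2) h6), h4, map_zero, zero_add]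
      have h9 : c = (-1 : ℤ) ^ m • slice [r] b + bd (b - app [r] (slice [r] b)) := by
        rw [map_sub, h8, hbc]; abel
      have h10 : bd (b - app [r] (slice [r] b)) ∈ B := by
        refine ih (b - app [r] (slice [r] b)) _ ?_ ?_ rfl
        · have h11 : bd (b - app [r] (slice [r] b)) = c - (-1 : ℤ) ^ m • slice [r] b := by
            rw [map_sub, h8, hbc]
          rw [h11]
          exact AddSubgroup.sub_mem _ hc'
            (AddSubgroup.zsmul_mem _ (Sup_mono (fun Y hY => hY.1.1) h6) _)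
        · refine Sup_mono ?_ (sub_slice_mem [r] hb)
          rintro l ⟨⟨h8, h9, h10, h11⟩, h⟩
          refine ⟨h8, h9, h10, fun h12 => ?_⟩
          rcases Finset.mem_insert.mp (h11 h12) with h13 | h13
          · exfalso
            obtain ⟨Y, h14, _, _⟩ := h8.1.split
            exact h ⟨Y, by rw [← h13]; exact h14⟩
          · exact h13
      rw [h9]
      exact AddSubgroup.add_mem _ (AddSubgroup.zsmul_mem _ h7 _) h10
  refine key2 (b1.support.image (bp good)) b1 c hc' (fun l hl => ?_) hbc1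
  obtain ⟨h1, h2, h3⟩ := hb1' l hl
  exact ⟨h1, h2, h3, fun _ => Finset.mem_image_of_mem _ (Finsupp.mem_support_iff.mpr hl)⟩

end main

end Pool.Agent.TOR96
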