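import Pool.Agent.Helper96_TOR.Nielsen

set_option autoImplicit false

namespace Pool.Agent.TOR96

variable {F : Type*} [Group F]

/-- a set is a free basis -/
def IsB (b : Set F) : Prop := Function.Bijective (FreeGroup.lift (fun x : b => (x : F)))

theorem IsB.closure {b : Set F} (hb : IsB b) : Subgroup.closure b = ⊤ := by
  rw [FreeGroup.closure_eq_range, MonoidHom.range_eq_top]
  exact hb.2

theorem IsB.hom_exists {b : Set F} (hb : IsB b) {G : Type*} [Group G] (σ : F → G) :
    ∃ f : F →* G, ∀ x ∈ b, f x = σ x := by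
  let E : FreeGroup b ≃* F := MulEquiv.ofBijective _ hb
  refine ⟨(FreeGroup.lift (fun x : b => σ x)).comp E.symm.toMonoidHom, fun x hx => ?_⟩
  have : E.symm x = FreeGroup.of (⟨x, hx⟩ : b) := by
    rw [MulEquiv.symm_apply_eq]
    change x = FreeGroup.lift (fun x : b => (x : F)) (FreeGroup.of (⟨x, hx⟩ : b))
    rw [FreeGroup.lift_apply_of]
  simp [this]

theorem IsB.hom_ext {b : Set F} (hb : IsB b) {G : Type*} [Group G] (f g : F →* G)
    (h : ∀ x ∈ b, f x = g x) : f = g := by
  have := MonoidHom.eqOn_closure (s := b) (f := f) (g := g) h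
  rw [hb.closure] at this
  ext x
  exact this (Subgroup.mem_top x)

theorem IsB.image {b : Set F} (hb : IsB b) {G : Type*} [Group G] (φ : F ≃* G) : IsB (φ '' b) := by
  have e : Function.Bijective (fun x : b => (⟨φ x, x, x.2, rfl⟩ : φ '' b)) := by
    constructor
    · intro x y h
      have := congrArg Subtype.val h
      exact Subtype.ext (φ.injective this)
    · rintro ⟨_, x, hx, rfl⟩
      exact ⟨⟨x, hx⟩, rfl⟩
  let ε : b ≃ (φ '' b) := Equiv.ofBijective _ e
  have : (FreeGroup.lift (fun x : (φ '' b : Set G) => (x : G))) =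
      (φ.toMonoidHom.comp (FreeGroup.lift (fun x : b => (x : F)))).comp
        (FreeGroup.freeGroupCongr ε.symm).toMonoidHom := by
    ext x
    obtain ⟨y, rfl⟩ := ε.surjective x
    simp [ε]
  unfold IsB
  rw [this]
  simp only [MonoidHom.coe_comp]
  exact (φ.bijective.comp hb).comp (FreeGroup.freeGroupCongr ε.symm).bijective

/-- an element of a basis is not in the subgroup generated by the others -/
theorem IsB.not_mem {b : Set F} (hb : IsB b) {t : F} (ht : t ∈ b) :
    t ∉ Subgroup.closure (b \ {t}) := by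
  classical
  intro h
  obtain ⟨f, hf⟩ := hb.hom_exists (fun x => if x = t then Multiplicative.ofAdd (1 : ℤ) else 1)
  have h1 : Subgroup.closure (b \ {t}) ≤ f.ker := by
    rw [Subgroup.closure_le]
    intro x hx
    rw [SetLike.mem_coe, MonoidHom.mem_ker, hf x hx.1]
    exact if_neg hx.2
  have h2 := h1 h
  rw [MonoidHom.mem_ker, hf t ht, if_pos rfl] at h2
  exact absurd h2 (by decide)

/-- intersection of subgroups generated by parts of a basis -/
theorem IsB.inter {b : Set F} (hb : IsB b) {A B : Set F} (hA : A ⊆ b) (hB : B ⊆ b) :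
    Subgroup.closure A ⊓ Subgroup.closure B = Subgroup.closure (A ∩ B) := by
  classical
  have key : ∀ A : Set F, ∃ f : F →* F, ∀ x ∈ b, f x = if x ∈ A then x else 1 := fun A =>
    hb.hom_exists _
  choose r hr using key
  have hid : ∀ A : Set F, A ⊆ b → ∀ g ∈ Subgroup.closure A, r A g = g := by
    intro A hA g hg
    have h1 : Subgroup.closure A ≤ (MonoidHom.eqLocus (r A) (MonoidHom.id F)) := by
      rw [Subgroup.closure_le]
      intro x hx
      change r A x = x
      rw [hr A x (hA hx), if_pos hx]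
    exact h1 hg
  have hmem : ∀ A : Set F, ∀ g, r A g ∈ Subgroup.closure A := by
    intro A g
    have hg : g ∈ Subgroup.closure b := by rw [hb.closure]; trivial
    have h1 : Subgroup.closure b ≤ (Subgroup.closure A).comap (r A) := by
      rw [Subgroup.closure_le]
      intro x hx
      change r A x ∈ Subgroup.closure A
      rw [hr A x hx]
      split_ifs with h
      · exact Subgroup.subset_closure h
      · exact Subgroup.one_mem _
    exact h1 hg
  have hcomp : ∀ A B : Set F, (r A).comp (r B) = r (A ∩ B) := by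
    intro A B
    refine hb.hom_ext _ _ fun x hx => ?_
    simp only [MonoidHom.comp_apply]
    rw [hr B x hx, hr (A ∩ B) x hx]
    by_cases h1 : x ∈ B
    · rw [if_pos h1, hr A x hx]
      by_cases h2 : x ∈ A
      · rw [if_pos h2, if_pos ⟨h2, h1⟩]
      · rw [if_neg h2, if_neg (fun h => h2 h.1)]
    · rw [if_neg h1, if_neg (fun h => h1 h.2), map_one]
  apply le_antisymm
  · rintro g ⟨h1, h2⟩
    have e1 := hid A hA g h1
    have e2 := hid B hB g h2
    have e3 : r (A ∩ B) g = g := by
      rw [← hcomp, MonoidHom.comp_apply, e2, e1]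
    rw [← e3]
    exact hmem _ _
  · rw [le_inf_iff]
    exact ⟨Subgroup.closure_mono Set.inter_subset_left,
      Subgroup.closure_mono Set.inter_subset_right⟩

/-- the subgroup generated by the complement of a finite set -/
theorem IsB.iInf {b : Set F} (hb : IsB b) (P : List F) (g : F)
    (hg : ∀ x ∈ P, g ∈ Subgroup.closure (b \ {x})) : g ∈ Subgroup.closure (b \ {x | x ∈ P}) := by
  induction P with
  | nil => simp [hb.closure]
  | cons y P ih =>
    have h1 := ih (fun x hx => hg x (List.mem_cons_of_mem _ hx))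
    have h2 := hg y List.mem_cons_self
    have h3 : g ∈ Subgroup.closure (b \ {y}) ⊓ Subgroup.closure (b \ {x | x ∈ P}) := ⟨h2, h1⟩
    rw [hb.inter Set.sdiff_subset Set.sdiff_subset] at h3
    refine Subgroup.closure_mono ?_ h3
    rintro x ⟨⟨hx, hxy⟩, _, hxP⟩
    refine ⟨hx, fun h => ?_⟩
    rcases List.mem_cons.mp h with h | h
    · exact hxy h
    · exact hxP h

/-- elementary change of basis -/
theorem IsB.auto {b : Set F} (hb : IsB b) {η : F} (hη : η ∈ b) (u v : F)
    (hu : u ∈ Subgroup.closure (b \ {η})) (hv : v ∈ Subgroup.closure (b \ {η})) :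
    ∃ φ : F ≃* F, φ η = u * η * v ∧ ∀ x ∈ Subgroup.closure (b \ {η}), φ x = x := by
  classical
  obtain ⟨f, hf⟩ := hb.hom_exists (fun x => if x = η then u * η * v else x)
  obtain ⟨g, hg⟩ := hb.hom_exists (fun x => if x = η then u⁻¹ * η * v⁻¹ else x)
  have hfix : ∀ (h : F →* F), (∀ x ∈ b \ {η}, h x = x) → ∀ x ∈ Subgroup.closure (b \ {η}),
      h x = x := by
    intro h hh x hx
    have h1 : Subgroup.closure (b \ {η}) ≤ (MonoidHom.eqLocus h (MonoidHom.id F)) := by
      rw [Subgroup.closure_le]
      exact hh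
    exact h1 hx
  have f1 := hfix f (fun x hx => by rw [hf x hx.1]; exact if_neg hx.2)
  have g1 := hfix g (fun x hx => by rw [hg x hx.1]; exact if_neg hx.2)
  have f2 : f η = u * η * v := by rw [hf η hη, if_pos rfl]
  have g2 : g η = u⁻¹ * η * v⁻¹ := by rw [hg η hη, if_pos rfl]
  have e1 : f.comp g = MonoidHom.id F := by
    refine hb.hom_ext _ _ fun x hx => ?_
    by_cases h : x = η
    · subst h
      simp only [MonoidHom.comp_apply, MonoidHom.id_apply]
      rw [g2, map_mul, map_mul, map_inv, map_inv, f1 u hu, f1 v hv, f2]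
      group
    · simp only [MonoidHom.comp_apply, MonoidHom.id_apply]
      rw [g1 x (Subgroup.subset_closure ⟨hx, h⟩), f1 x (Subgroup.subset_closure ⟨hx, h⟩)]
  have e2 : g.comp f = MonoidHom.id F := by
    refine hb.hom_ext _ _ fun x hx => ?_
    by_cases h : x = η
    · subst h
      simp only [MonoidHom.comp_apply, MonoidHom.id_apply]
      rw [f2, map_mul, map_mul, g1 u hu, g1 v hv, g2]
      group
    · simp only [MonoidHom.comp_apply, MonoidHom.id_apply]
      rw [f1 x (Subgroup.subset_closure ⟨hx, h⟩), g1 x (Subgroup.subset_closure ⟨hx, h⟩)]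
  exact ⟨MonoidHom.toMulEquiv f g e2 e1, f2, f1⟩

theorem IsB.auto_inv {b : Set F} (hb : IsB b) {η : F} (hη : η ∈ b) :
    ∃ φ : F ≃* F, φ η = η⁻¹ ∧ ∀ x ∈ Subgroup.closure (b \ {η}), φ x = x := by
  classical
  obtain ⟨f, hf⟩ := hb.hom_exists (fun x => if x = η then η⁻¹ else x)
  have f1 : ∀ x ∈ Subgroup.closure (b \ {η}), f x = x := by
    intro x hx
    have h1 : Subgroup.closure (b \ {η}) ≤ (MonoidHom.eqLocus f (MonoidHom.id F)) := by
      rw [Subgroup.closure_le]
      intro x hx
      change f x = x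
      rw [hf x hx.1]
      exact if_neg hx.2
    exact h1 hx
  have f2 : f η = η⁻¹ := by rw [hf η hη, if_pos rfl]
  have e1 : f.comp f = MonoidHom.id F := by
    refine hb.hom_ext _ _ fun x hx => ?_
    by_cases h : x = η
    · subst h
      simp only [MonoidHom.comp_apply, MonoidHom.id_apply]
      rw [f2, map_inv, f2, inv_inv]
    · simp only [MonoidHom.comp_apply, MonoidHom.id_apply]
      rw [f1 x (Subgroup.subset_closure ⟨hx, h⟩), f1 x (Subgroup.subset_closure ⟨hx, h⟩)]
  exact ⟨MonoidHom.toMulEquiv f f e1 e1, f2, f1⟩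

/-- words of minimal length in a symmetric set -/
theorem exists_word (S : Set F) (hSinv : ∀ x ∈ S, x⁻¹ ∈ S) (w : F) (hw : w ∈ Subgroup.closure S) :
    ∃ l : List F, (∀ x ∈ l, x ∈ S) ∧ l.prod = w ∧ l.IsChain (fun x y => x * y ≠ 1) := by
  have h1 : ∃ n : ℕ, ∃ l : List F, l.length = n ∧ (∀ x ∈ l, x ∈ S) ∧ l.prod = w := by
    have : ∃ l : List F, (∀ x ∈ l, x ∈ S) ∧ l.prod = w := by
      induction hw using Subgroup.closure_induction with
      | mem x hx => exact ⟨[x], by simpa using hx, by simp⟩
      | one => exact ⟨[], by simp, by simp⟩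
      | mul x y _ _ ihx ihy =>
        obtain ⟨l1, h1, h2⟩ := ihx
        obtain ⟨l2, h3, h4⟩ := ihy
        refine ⟨l1 ++ l2, ?_, by rw [List.prod_append, h2, h4]⟩
        intro z hz
        rcases List.mem_append.mp hz with h | h
        · exact h1 z h
        · exact h3 z h
      | inv x _ ih =>
        obtain ⟨l, h1, h2⟩ := ih
        refine ⟨(l.map (fun z => z⁻¹)).reverse, ?_, ?_⟩
        · intro z hz
          rw [List.mem_reverse, List.mem_map] at hz
          obtain ⟨y, hy, rfl⟩ := hz
          exact hSinv y (h1 y hy)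
        · rw [← h2, List.prod_inv_reverse]
    obtain ⟨l, h⟩ := this
    exact ⟨l.length, l, rfl, h⟩
  classical
  obtain ⟨l, hl, hlS, hlw⟩ := Nat.find_spec h1
  have hmin := fun m => @Nat.find_min _ _ h1 m
  refine ⟨l, hlS, hlw, ?_⟩
  rw [List.isChain_iff_forall_rel_of_append_cons_cons]
  intro x y l1 l2 hl12 hxy
  apply hmin (l1 ++ l2).length (by rw [← hl, hl12]; simp)
  refine ⟨l1 ++ l2, rfl, fun z hz => hlS z ?_, ?_⟩
  · rw [hl12]
    rcases List.mem_append.mp hz with h | h
    · exact List.mem_append_left _ h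
    · exact List.mem_append_right _ (List.mem_cons_of_mem _ (List.mem_cons_of_mem _ h))
  · rw [← hlw, hl12]
    simp only [List.prod_append, List.prod_cons]
    rw [← mul_assoc x, hxy, one_mul]

end Pool.Agent.TOR96
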