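import Pool.Agent.Helper96_TOR.Rel

set_option autoImplicit false

namespace Pool.Agent.TOR96

open Pool.Agent.TOR.H58 Finsupp

variable {F : Type*} [Group F]

theorem isB_of (α : Type*) : IsB (Set.range (FreeGroup.of : α → FreeGroup α)) := by
  rw [isB_iff]
  refine ⟨?_, FreeGroup.closure_range_of α⟩
  have h1 : (FreeGroup.lift (fun x : Set.range (FreeGroup.of : α → FreeGroup α) =>
      (x : FreeGroup α))).comp (FreeGroup.freeGroupCongr
        (Equiv.ofInjective _ FreeGroup.of_injective)).toMonoidHom = MonoidHom.id _ := by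
    ext x
    simp
  have h2 : Function.Bijective ((FreeGroup.lift
      (fun x : Set.range (FreeGroup.of : α → FreeGroup α) => (x : FreeGroup α))).comp
      (FreeGroup.freeGroupCongr (Equiv.ofInjective _ FreeGroup.of_injective)).toMonoidHom) := by
    rw [h1]
    exact Function.bijective_id
  rw [MonoidHom.coe_comp] at h2
  exact ((Function.Bijective.of_comp_iff _ (FreeGroup.freeGroupCongr
        (Equiv.ofInjective _ FreeGroup.of_injective)).bijective).mp h2).1

/-- bases of a free group of rank n -/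
theorem IsB.card_eq {k : ℕ} {b : Set (FreeGroup (Fin k))} (hb : IsB b) :
    b.Finite ∧ b.ncard = k := by
  have e : b ≃ Fin k := Equiv.ofFreeGroupEquiv (MulEquiv.ofBijective _ hb)
  have h1 : Finite b := Finite.of_equiv _ e.symm
  exact ⟨Set.toFinite b, by rw [← Nat.card_coe_set_eq, Nat.card_congr e, Nat.card_fin]⟩

theorem IsB.equiv {b b' : Set F} (hb : IsB b) (hb' : IsB b') : Nonempty (b ≃ b') :=
  ⟨Equiv.ofFreeGroupEquiv ((MulEquiv.ofBijective _ hb).trans (MulEquiv.ofBijective _ hb').symm)⟩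

instance (k : ℕ) : Nonempty (Bas (Fin k) k) := by
  have h := isB_of (Fin k)
  have h1 := h.card_eq
  refine ⟨⟨h1.1.toFinset, by rw [Set.Finite.coe_toFinset]; exact h, ?_⟩⟩
  rw [← Set.ncard_eq_toFinset_card _ h1.1]
  exact h1.2

/-- a model of the complement -/
theorem exists_model {b P : Set F} (hb : IsB b) {k : ℕ} (hfin : (b \ P).Finite)
    (hk : (b \ P).ncard = k) :
    ∃ j : FreeGroup (Fin k) →* F, Function.Injective j ∧ j.range = Subgroup.closure (b \ P) := by
  have : Finite (b \ P : Set F) := hfin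
  rw [← Nat.card_coe_set_eq] at hk
  let e : (b \ P : Set F) ≃ Fin k := Finite.equivFinOfCardEq hk
  have h1 : IsBS (b \ P) := (isB_iff.mp hb).1.subset Set.sdiff_subset
  refine ⟨(FreeGroup.lift (fun x : (b \ P : Set F) => (x : F))).comp
    (FreeGroup.freeGroupCongr e.symm).toMonoidHom, ?_, ?_⟩
  · rw [MonoidHom.coe_comp]
    exact Function.Injective.comp h1 (FreeGroup.freeGroupCongr e.symm).injective
  · rw [MonoidHom.range_comp, FreeGroup.closure_eq_range]
    have : (FreeGroup.freeGroupCongr e.symm).toMonoidHom.range = ⊤ :=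
      MonoidHom.range_eq_top.mpr (FreeGroup.freeGroupCongr e.symm).surjective
    rw [this, ← MonoidHom.range_eq_map]

/-- the map of vertices -/
def TV {G : Type*} [Group G] (P : Set F) (j : G →* F) (v : G × Subgroup G) : F × Subgroup F :=
  (j v.1, Subgroup.closure P ⊔ v.2.map j)

section model

variable {G : Type*} [Group G] {b P : Set F} (hb : IsB b) (hP : P ⊆ b) (j : G →* F)
  (hj : Function.Injective j) (hr : j.range = Subgroup.closure (b \ P))

include hb hP hr

theorem sup_inj {H H' : Subgroup G} (hj : Function.Injective j)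
    (h : Subgroup.closure P ⊔ H.map j = Subgroup.closure P ⊔ H'.map j) : H = H' := by
  classical
  obtain ⟨r, hr1⟩ := hb.hom_exists (fun x => if x ∈ P then (1 : F) else x)
  have h2 : (Subgroup.closure P).map r = ⊥ := by
    rw [eq_bot_iff, Subgroup.map_le_iff_le_comap, Subgroup.closure_le]
    intro x hx
    change r x = 1
    rw [hr1 x (hP hx), if_pos hx]
  have h3 : ∀ x ∈ Subgroup.closure (b \ P), r x = x := by
    intro x hx
    have : Subgroup.closure (b \ P) ≤ MonoidHom.eqLocus r (MonoidHom.id F) := by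
      rw [Subgroup.closure_le]
      intro y hy
      change r y = y
      rw [hr1 y hy.1, if_neg hy.2]
    exact this hx
  have h4 : ∀ K : Subgroup G, (K.map j).map r = K.map j := by
    intro K
    rw [Subgroup.map_map]
    ext y
    constructor
    · rintro ⟨x, hx, rfl⟩
      refine ⟨x, hx, ?_⟩
      rw [MonoidHom.comp_apply, h3]
      rw [← hr]
      exact ⟨x, rfl⟩
    · rintro ⟨x, hx, rfl⟩
      refine ⟨x, hx, ?_⟩
      rw [MonoidHom.comp_apply, h3]
      rw [← hr]
      exact ⟨x, rfl⟩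
  have h5 := congrArg (Subgroup.map r) h
  rw [Subgroup.map_sup, Subgroup.map_sup, h2, h4, h4, bot_sup_eq, bot_sup_eq] at h5
  exact Subgroup.map_injective hj h5

include hj

theorem TV_inj : Function.Injective (TV P j) := by
  rintro ⟨x, H⟩ ⟨x', H'⟩ h
  have h1 : j x = j x' := congrArg Prod.fst h
  have h2 : Subgroup.closure P ⊔ H.map j = Subgroup.closure P ⊔ H'.map j := congrArg Prod.snd h
  exact Prod.ext (hj h1) (sup_inj hb hP j hr hj h2)

omit hj in
theorem not_mem_P (x : G) : j x ∉ P := by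
  intro h
  have h1 : j x ∈ Subgroup.closure (b \ P) := by
    rw [← hr]
    exact ⟨x, rfl⟩
  refine hb.not_mem (hP h) (Subgroup.closure_mono ?_ h1)
  exact Set.sdiff_subset_sdiff_right (Set.singleton_subset_iff.mpr h)

theorem compl_TV (b' : Set G) (x : G) :
    Subgroup.closure ((P ∪ j '' b') \ {j x}) =
      Subgroup.closure P ⊔ (Subgroup.closure (b' \ {x})).map j := by
  rw [MonoidHom.map_closure, ← Subgroup.closure_union]
  congr 1
  ext y
  constructor
  · rintro ⟨hy | ⟨z, hz, rfl⟩, h2⟩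
    · exact Or.inl hy
    · refine Or.inr ⟨z, ⟨hz, ?_⟩, rfl⟩
      intro h
      exact h2 (congrArg j h)
  · rintro (hy | ⟨z, ⟨hz, h2⟩, rfl⟩)
    · refine ⟨Or.inl hy, ?_⟩
      intro h
      have h3 : y = j x := h
      exact not_mem_P hb hP j hr x (h3 ▸ hy)
    · exact ⟨Or.inr ⟨z, hz, rfl⟩, fun h => h2 (hj h)⟩

/-- simplices of the model go to simplices -/
theorem TV_simplex {b' : Set G} (hb' : IsB b') (s : Set (G × Subgroup G))
    (hs : ∀ v ∈ s, v.1 ∈ b' ∧ v.2 = Subgroup.closure (b' \ {v.1})) :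
    RW P (Subgroup.closure (b \ P)) (TV P j '' s) := by
  have h1 : Subgroup.closure (j '' b') = Subgroup.closure (b \ P) := by
    rw [← MonoidHom.map_closure, hb'.closure, ← MonoidHom.range_eq_map, hr]
  have h2 : IsB (P ∪ j '' b') :=
    hb.replace hP ((IsBS.image j hj).mpr (isB_iff.mp hb').1) h1
  refine ⟨P ∪ j '' b', h2, Set.subset_union_left, ?_, ?_⟩
  · rw [← h1]
    congr 1
    ext x
    constructor
    · rintro ⟨h | h, h3⟩
      · exact absurd h h3
      · exact h
    · rintro ⟨y, hy, rfl⟩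
      exact ⟨Or.inr ⟨y, hy, rfl⟩, not_mem_P hb hP j hr y⟩
  · rintro _ ⟨v, hv, rfl⟩
    obtain ⟨h3, h4⟩ := hs v hv
    refine ⟨Or.inr ⟨v.1, h3, rfl⟩, not_mem_P hb hP j hr v.1, ?_⟩
    change Subgroup.closure P ⊔ v.2.map j = Subgroup.closure ((P ∪ j '' b') \ {j v.1})
    rw [compl_TV hb hP j hj hr b' v.1, h4]

/-- simplices come from the model -/
theorem TV_simplex_inv (t : Set (F × Subgroup F)) (ht : RW P (Subgroup.closure (b \ P)) t) :
    ∃ b' : Set G, IsB b' ∧ ∀ v ∈ t, ∃ w : G × Subgroup G, TV P j w = v ∧ w.1 ∈ b' ∧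
      w.2 = Subgroup.closure (b' \ {w.1}) := by
  obtain ⟨b1, hb1, hP1, hC1, hv⟩ := ht
  have h1 : j '' (j ⁻¹' (b1 \ P)) = b1 \ P := by
    rw [Set.image_preimage_eq_iff]
    intro x hx
    have h2 : x ∈ Subgroup.closure (b1 \ P) := Subgroup.subset_closure hx
    rw [hC1, ← hr] at h2
    exact h2
  have h2 : IsB (j ⁻¹' (b1 \ P)) := by
    rw [isB_iff]
    constructor
    · rw [← IsBS.image j hj, h1]
      exact (isB_iff.mp hb1).1.subset Set.sdiff_subset
    · apply Subgroup.map_injective hj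
      rw [MonoidHom.map_closure, h1, hC1, ← hr, ← MonoidHom.range_eq_map]
  refine ⟨_, h2, fun v hvt => ?_⟩
  obtain ⟨h3, h4, h5⟩ := hv v hvt
  have h6 : v.1 ∈ j '' (j ⁻¹' (b1 \ P)) := by rw [h1]; exact ⟨h3, h4⟩
  obtain ⟨x, hx, hxv⟩ := h6
  refine ⟨(x, Subgroup.closure (j ⁻¹' (b1 \ P) \ {x})), ?_, hx, rfl⟩
  apply Prod.ext
  · exact hxv
  · change Subgroup.closure P ⊔ (Subgroup.closure (j ⁻¹' (b1 \ P) \ {x})).map j = v.2
    rw [h5, ← hxv, ← compl_TV hb hP j hj hr _ x, h1]
    congr 2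
    rw [Set.union_sdiff_self, Set.union_eq_self_of_subset_left hP1]

end model

/-- THE COMPLEX OF SPLIT SYSTEMS relative to (P, C), C of rank k: exact at lists of length m,
2m+1 ≤ k. -/
theorem rw_acl {M : Type*} [AddCommGroup M] {O : List (F × Subgroup F) → Prop} (hO : Ordy O)
    {b P : Set F} (hb : IsB b) (hP : P ⊆ b) (hfin : (b \ P).Finite) {k : ℕ}
    (hk : (b \ P).ncard = k) (m : ℕ) (hm : 2 * m + 1 ≤ k) :
    AcL M (fun l => O l ∧ RW P (Subgroup.closure (b \ P)) {a | a ∈ l}) m := by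
  classical
  obtain ⟨j, hj, hr⟩ := exists_model (F := F) hb hfin hk
  have hT := TV_inj hb hP j hj hr
  have hO' : Ordy (fun l => O (l.map (TV P j))) := by
    constructor
    · intro l l' h h1
      exact hO.sub _ _ (h.map _) h1
    · intro U hU
      obtain ⟨_, ⟨v, hv, rfl⟩, h⟩ := hO.cone (TV P j '' U) (hU.image _)
      refine ⟨v, hv, fun l hl hU => ?_⟩
      rw [List.map_cons]
      refine h _ hl fun a ha => ?_
      obtain ⟨a', ha', rfl⟩ := List.mem_map.mp ha
      exact ⟨a', hU a' ha', rfl⟩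
  have h1 := W_acl (M := M) (α := Fin k) (e := Encodable.encode) Encodable.encode_injective k
    hO' m hm
  refine AcL.transport hT ?_ ?_ h1
  · rintro l ⟨h2, b', h3⟩
    refine ⟨h2, RW.mono ?_ (TV_simplex hb hP j hj hr b'.2.1 {a | a ∈ l} fun v hv => ?_)⟩
    · intro a ha
      obtain ⟨a', ha', rfl⟩ := List.mem_map.mp ha
      exact ⟨a', ha', rfl⟩
    · have h4 := mem_DD.mp (h3 v hv)
      exact ⟨Finset.mem_coe.mpr h4.1, h4.2⟩
  · rintro l' ⟨h2, h3⟩
    obtain ⟨b', hb', h4⟩ := TV_simplex_inv hb hP j hj hr _ h3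
    have h5 : ∃ l : List (FreeGroup (Fin k) × Subgroup (FreeGroup (Fin k))),
        l' = l.map (TV P j) ∧ ∀ w ∈ l, w.1 ∈ b' ∧ w.2 = Subgroup.closure (b' \ {w.1}) := by
      clear h2 h3
      induction l' with
      | nil => exact ⟨[], rfl, by simp⟩
      | cons v l' ih =>
        obtain ⟨l, h6, h7⟩ := ih (fun v hv => h4 v (List.mem_cons_of_mem _ hv))
        obtain ⟨w, h8, h9⟩ := h4 v List.mem_cons_self
        refine ⟨w :: l, by rw [List.map_cons, h8, h6], ?_⟩
        intro w' hw'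
        rcases List.mem_cons.mp hw' with h | h
        · exact h ▸ h9
        · exact h7 w' h
    obtain ⟨l, rfl, h6⟩ := h5
    have h7 := hb'.card_eq
    refine ⟨l, ⟨h2, ⟨h7.1.toFinset, by rw [Set.Finite.coe_toFinset]; exact hb', ?_⟩, ?_⟩, rfl⟩
    · rw [← Set.ncard_eq_toFinset_card _ h7.1]
      exact h7.2
    · intro a ha
      rw [mem_DD]
      obtain ⟨h8, h9⟩ := h6 a ha
      refine ⟨?_, ?_⟩
      · rw [Set.Finite.mem_toFinset]; exact h8
      · rw [Set.Finite.coe_toFinset]; exact h9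

end Pool.Agent.TOR96
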