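import Pool.Agent.Helper59_TOR.Std
import Pool.Agent.Helper96_TOR.Rel2

/-! Classification of quadratic words with one boundary circle: such a word is carried to the
standard word by an automorphism. -/

set_option autoImplicit false

namespace Pool.Agent.TOR96

open Pool.Agent.TOR.H59

section comb

variable {β : Type} (r : β × Bool → ℕ)

/-- c is next to a with respect to the ranks of S -/
def Nx (S : Set (β × Bool)) (a c : ℕ) : Prop := a < c ∧ ∀ s ∈ S, r s ≤ a ∨ c ≤ r s

/-- Z is a boundary word with respect to the letters of S -/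
def Bg (S : Set (β × Bool)) (M : ℕ) : ℕ → List (β × Bool) → Prop
  | a, [] => Nx r S a M
  | a, l :: w => Nx r S a (r l) ∧ Bg S M (r (iv l)) w

/-- a segment of a boundary word -/
def Sg (S : Set (β × Bool)) : ℕ → List (β × Bool) → Prop
  | _, [] => True
  | a, l :: w => Nx r S a (r l) ∧ Sg S (r (iv l)) w

/-- the value at the end of a segment -/
def ev : ℕ → List (β × Bool) → ℕ
  | a, [] => a
  | _, l :: w => ev (r (iv l)) w

variable {r} {S S' : Set (β × Bool)} {M : ℕ}

theorem Nx.mono (h : S' ⊆ S) {a c : ℕ} (hn : Nx r S a c) : Nx r S' a c :=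
  ⟨hn.1, fun s hs => hn.2 s (h hs)⟩

theorem Sg.mono (h : S' ⊆ S) : ∀ (w : List (β × Bool)) {a : ℕ}, Sg r S a w → Sg r S' a w
  | [], _, _ => trivial
  | _ :: w, _, hs => ⟨hs.1.mono h, Sg.mono h w hs.2⟩

theorem Bg.mono (h : S' ⊆ S) : ∀ (w : List (β × Bool)) {a : ℕ}, Bg r S M a w → Bg r S' M a w
  | [], _, hs => Nx.mono h hs
  | _ :: w, _, hs => ⟨hs.1.mono h, Bg.mono h w hs.2⟩

theorem bg_append : ∀ (U V : List (β × Bool)) (a : ℕ),
    Bg r S M a (U ++ V) ↔ Sg r S a U ∧ Bg r S M (ev r a U) V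
  | [], V, a => by simp [Sg, ev]
  | l :: U, V, a => by
    rw [List.cons_append]
    change Nx r S a (r l) ∧ Bg r S M (r (iv l)) (U ++ V) ↔
      (Nx r S a (r l) ∧ Sg r S (r (iv l)) U) ∧ Bg r S M (ev r (r (iv l)) U) V
    rw [bg_append U V, and_assoc]

/-- removal of a letter from the set -/
theorem Nx.shift (hr : Function.Injective r) {k : β × Bool} {a c : ℕ} (h : Nx r S a (r k))
    (h' : Nx r S (r k) c) : Nx r (S \ {k}) a c := by
  refine ⟨h.1.trans h'.1, fun s hs => ?_⟩
  rcases h.2 s hs.1 with h1 | h1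
  · exact Or.inl h1
  · rcases h'.2 s hs.1 with h2 | h2
    · exact absurd (hr (le_antisymm h2 h1)) hs.2
    · exact Or.inr h2

theorem Sg.shift (hr : Function.Injective r) {k : β × Bool} {a : ℕ} (h : Nx r S a (r k))
    (D : List (β × Bool)) (hD : Sg r S (r k) D) : Sg r (S \ {k}) a D := by
  cases D with
  | nil => trivial
  | cons l w => exact ⟨h.shift hr hD.1, Sg.mono Set.sdiff_subset w hD.2⟩

theorem Nx.shift_ev (hr : Function.Injective r) {k : β × Bool} {a c : ℕ} (h : Nx r S a (r k))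
    (D : List (β × Bool)) (hD : Nx r S (ev r (r k) D) c) :
    Nx r (S \ {k}) (ev r a D) c := by
  cases D with
  | nil => exact h.shift hr hD
  | cons l w => exact Nx.mono Set.sdiff_subset hD

theorem Bg.shift (hr : Function.Injective r) {k : β × Bool} {a : ℕ} (h : Nx r S a (r k))
    (D : List (β × Bool)) (hD : Bg r S M (r k) D) : Bg r (S \ {k}) M a D := by
  cases D with
  | nil => exact h.shift hr hD
  | cons l w => exact ⟨h.shift hr hD.1, Bg.mono Set.sdiff_subset w hD.2⟩

/-- cutting off a handle -/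
theorem Bg.cut (hr : Function.Injective r) {k l : β × Bool} {B C D E : List (β × Bool)}
    (h : Bg r S M 0 (k :: (B ++ l :: (C ++ iv k :: (D ++ iv l :: E))))) :
    Bg r ((((S \ {k}) \ {iv l}) \ {iv k}) \ {l}) M 0 (D ++ (C ++ (B ++ E))) := by
  obtain ⟨h1, h⟩ := h
  rw [bg_append] at h
  obtain ⟨hB, h2, h⟩ := h
  rw [bg_append] at h
  obtain ⟨hC, h3, h⟩ := h
  rw [iv_iv, bg_append] at h
  obtain ⟨hD, h4, hE⟩ := h
  rw [iv_iv] at hE
  have s1 : S \ {k} ⊆ S := Set.sdiff_subset
  have s2 : (S \ {k}) \ {iv l} ⊆ S \ {k} := Set.sdiff_subset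
  have s3 : ((S \ {k}) \ {iv l}) \ {iv k} ⊆ (S \ {k}) \ {iv l} := Set.sdiff_subset
  have s4 : (((S \ {k}) \ {iv l}) \ {iv k}) \ {l} ⊆ ((S \ {k}) \ {iv l}) \ {iv k} :=
    Set.sdiff_subset
  have a1 := Sg.shift hr h1 D hD
  have a2 := Nx.shift_ev hr h1 D h4
  have b1 := Sg.shift hr a2 C (Sg.mono s1 C hC)
  have b2 := Nx.shift_ev hr a2 C (Nx.mono s1 h3)
  have c1 := Sg.shift hr b2 B (Sg.mono (s2.trans s1) B hB)
  have c2 := Nx.shift_ev hr b2 B (Nx.mono (s2.trans s1) h2)
  have d1 := Bg.shift hr c2 E (Bg.mono (s3.trans (s2.trans s1)) E hE)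
  rw [bg_append, bg_append, bg_append]
  exact ⟨Sg.mono (s4.trans (s3.trans s2)) D a1, Sg.mono (s4.trans s3) C b1, Sg.mono s4 B c1, d1⟩

theorem Bg.next (x : β × Bool) (V : List (β × Bool)) : ∀ (U : List (β × Bool)) (a : ℕ),
    Bg r S M a (U ++ x :: V) → (∃ t ∈ U ++ [x], a < r t) ∧
      ∀ l ∈ U, ∃ t ∈ U ++ [x], r (iv l) < r t
  | [], a, h => ⟨⟨x, by simp, h.1.1⟩, by simp⟩
  | u :: U, a, h => by
    obtain ⟨h1, h2⟩ := h
    obtain ⟨⟨t, ht, h3⟩, h4⟩ := Bg.next x V U _ h2
    refine ⟨⟨u, by simp, h1.1⟩, fun l hl => ?_⟩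
    rcases List.mem_cons.mp hl with h | h
    · rw [h]
      exact ⟨t, List.mem_cons_of_mem _ ht, h3⟩
    · obtain ⟨t', h5, h6⟩ := h4 l h
      exact ⟨t', List.mem_cons_of_mem _ h5, h6⟩

theorem iv_ne (l : β × Bool) : iv l ≠ l := by
  intro h
  have := congrArg Prod.snd h
  simp [iv] at this

theorem iv_inj {l l' : β × Bool} (h : iv l = iv l') : l = l' := by
  rw [← iv_iv l, h, iv_iv]

/-- a letter which is interleaved with the first one -/
theorem Bg.interleaved {k : β × Bool} {U V : List (β × Bool)}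
    (h : Bg r S M 0 (k :: (U ++ iv k :: V))) (hnd : (k :: (U ++ iv k :: V)).Nodup)
    (hcl : ∀ l ∈ k :: (U ++ iv k :: V), iv l ∈ k :: (U ++ iv k :: V)) :
    ∃ l ∈ U, iv l ∈ V := by
  by_contra hcon
  push Not at hcon
  obtain ⟨_, h⟩ := h
  obtain ⟨⟨t1, ht1, hlt1⟩, h2⟩ := Bg.next _ _ _ _ h
  have hU : ∀ l ∈ U, iv l ∈ U := by
    intro l hl
    have h3 := hcl l (by simp [hl])
    simp only [List.mem_cons, List.mem_append] at h3
    rcases h3 with h3 | h3 | h3 | h3
    · exfalso
      have h4 : l = iv k := by rw [← h3, iv_iv]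
      rw [List.nodup_cons, List.nodup_append] at hnd
      exact hnd.2.2.2 l hl (iv k) List.mem_cons_self h4
    · exact h3
    · exfalso
      have h4 : l = k := iv_inj h3
      rw [List.nodup_cons] at hnd
      exact hnd.1 (List.mem_append_left _ (h4 ▸ hl))
    · exact absurd h3 (hcon l hl)
  obtain ⟨t0, ht0, hmax⟩ := Set.exists_max_image {t | t ∈ U ++ [iv k]} r
    (List.finite_toSet _) ⟨iv k, by simp⟩
  have ht0' : t0 ∈ U ++ [iv k] := ht0
  rw [List.mem_append, List.mem_singleton] at ht0'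
  rcases ht0' with h3 | h3
  · obtain ⟨t, ht, hlt⟩ := h2 (iv t0) (hU t0 h3)
    rw [iv_iv] at hlt
    exact absurd (hmax t ht) (not_le.mpr hlt)
  · rw [h3] at hmax
    exact absurd (hmax t1 ht1) (not_le.mpr hlt1)

end comb

section aut

variable {β : Type}

theorem mem_cl_others {b0 : β} {w : List (β × Bool)} (h : ∀ l ∈ w, l.1 ≠ b0) :
    FreeGroup.mk w ∈ Subgroup.closure (Set.range (FreeGroup.of : β → FreeGroup β) \
      {FreeGroup.of b0}) := by
  induction w with
  | nil => exact Subgroup.one_mem _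
  | cons l w ih =>
    have e : FreeGroup.mk (l :: w) = lt l * FreeGroup.mk w := by
      rw [lt, FreeGroup.mul_mk]; rfl
    rw [e]
    refine Subgroup.mul_mem _ ?_ (ih fun l' hl' => h l' (List.mem_cons_of_mem _ hl'))
    have h1 : FreeGroup.of l.1 ∈ Subgroup.closure (Set.range (FreeGroup.of : β → FreeGroup β) \
        {FreeGroup.of b0}) :=
      Subgroup.subset_closure ⟨⟨l.1, rfl⟩, fun h2 => h l List.mem_cons_self
        (FreeGroup.of_injective h2)⟩
    obtain ⟨b, s⟩ := l
    cases s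
    · have h2 := Subgroup.inv_mem _ h1
      exact h2
    · exact h1

/-- elementary automorphisms, letters with signs -/
theorem exists_auto (k : β × Bool) (u v : FreeGroup β)
    (hu : u ∈ Subgroup.closure (Set.range (FreeGroup.of : β → FreeGroup β) \ {FreeGroup.of k.1}))
    (hv : v ∈ Subgroup.closure (Set.range (FreeGroup.of : β → FreeGroup β) \ {FreeGroup.of k.1})) :
    ∃ ψ : FreeGroup β ≃* FreeGroup β, ψ (FreeGroup.of k.1) = u * lt k * v ∧
      (∀ x ∈ Subgroup.closure (Set.range (FreeGroup.of : β → FreeGroup β) \ {FreeGroup.of k.1}),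
        ψ x = x) := by
  have hb := isB_of β
  obtain ⟨b, s⟩ := k
  cases s
  · obtain ⟨ψ1, h1, h2⟩ := hb.auto (η := FreeGroup.of b) ⟨b, rfl⟩ v⁻¹ u⁻¹
      (Subgroup.inv_mem _ hv) (Subgroup.inv_mem _ hu)
    obtain ⟨ψ2, h3, h4⟩ := hb.auto_inv (η := FreeGroup.of b) ⟨b, rfl⟩
    refine ⟨ψ2.trans ψ1, ?_, ?_⟩
    · change ψ1 (ψ2 (FreeGroup.of b)) = u * (FreeGroup.of b)⁻¹ * v
      rw [h3, map_inv, h1]
      group
    · intro x hx
      change ψ1 (ψ2 x) = x
      rw [h4 x hx, h2 x hx]
  · obtain ⟨ψ1, h1, h2⟩ := hb.auto (η := FreeGroup.of b) ⟨b, rfl⟩ u v hu hv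
    exact ⟨ψ1, h1, h2⟩

theorem fix_mk {φ : FreeGroup β ≃* FreeGroup β} {w : List (β × Bool)}
    (h : ∀ l ∈ w, φ (FreeGroup.of l.1) = FreeGroup.of l.1) :
    φ (FreeGroup.mk w) = FreeGroup.mk w := by
  induction w with
  | nil => exact map_one φ
  | cons l w ih =>
    have e : FreeGroup.mk (l :: w) = lt l * FreeGroup.mk w := by
      rw [lt, FreeGroup.mul_mk]; rfl
    rw [e, map_mul, ih fun l' hl' => h l' (List.mem_cons_of_mem _ hl')]
    have h1 := h l List.mem_cons_self
    obtain ⟨b, s⟩ := l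
    cases s
    · have h2 : φ (FreeGroup.of b)⁻¹ = (FreeGroup.of b)⁻¹ := by rw [map_inv, h1]
      change φ (FreeGroup.of b)⁻¹ * _ = (FreeGroup.of b)⁻¹ * _
      rw [h2]
    · change φ (FreeGroup.of b) * _ = FreeGroup.of b * _
      rw [h1]

/-- product of the commutators of a list of pairs -/
def cpr (ps : List (β × β)) : FreeGroup β :=
  (ps.map fun p => FreeGroup.of p.1 * FreeGroup.of p.2 * (FreeGroup.of p.1)⁻¹ *
    (FreeGroup.of p.2)⁻¹).prod

/-- the letters of a list of pairs -/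
def lp (ps : List (β × β)) : List β := ps.flatMap fun p => [p.1, p.2]

theorem fix_cpr {φ : FreeGroup β ≃* FreeGroup β} {ps : List (β × β)}
    (h : ∀ b ∈ lp ps, φ (FreeGroup.of b) = FreeGroup.of b) : φ (cpr ps) = cpr ps := by
  induction ps with
  | nil => exact map_one φ
  | cons p ps ih =>
    have h1 := h p.1 (by simp [lp])
    have h2 := h p.2 (by simp [lp])
    have h3 := ih fun b hb => h b (by
      have : lp (p :: ps) = [p.1, p.2] ++ lp ps := rfl
      rw [this]
      exact List.mem_append_right _ hb)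
    have e : cpr (p :: ps) = FreeGroup.of p.1 * FreeGroup.of p.2 * (FreeGroup.of p.1)⁻¹ *
      (FreeGroup.of p.2)⁻¹ * cpr ps := by
      unfold cpr
      rw [List.map_cons, List.prod_cons]
    rw [e, map_mul, h3, map_mul, map_mul, map_mul, map_inv, map_inv, h1, h2]

/-- CLASSIFICATION, relative form: the automorphism fixes the letters which do not occur. -/
theorem cla_rel {r : β × Bool → ℕ} (hr : Function.Injective r) {M : ℕ} :
    ∀ (n : ℕ) (Z : List (β × Bool)), Z.length = n → Z.Nodup → (∀ l ∈ Z, iv l ∈ Z) →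
      Bg r {l | l ∈ Z} M 0 Z →
      ∃ (φ : FreeGroup β ≃* FreeGroup β) (ps : List (β × β)), φ (cpr ps) = FreeGroup.mk Z ∧
        (lp ps).Nodup ∧ (∀ b, b ∈ lp ps ↔ (b, true) ∈ Z) ∧
        ∀ b, (b, true) ∉ Z → φ (FreeGroup.of b) = FreeGroup.of b := by
  intro n
  induction n using Nat.strong_induction_on with
  | _ n ih =>
  intro Z hn hnd hcl hB
  cases Z with
  | nil =>
    refine ⟨MulEquiv.refl _, [], rfl, List.nodup_nil, fun b => ?_, fun b _ => rfl⟩
    simp [lp]
  | cons k W =>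
    -- the inverse of the first letter
    have hk : iv k ∈ W := by
      have := hcl k List.mem_cons_self
      rcases List.mem_cons.mp this with h | h
      · exact absurd h (iv_ne k)
      · exact h
    obtain ⟨U, V, rfl⟩ := List.append_of_mem hk
    obtain ⟨l, hlU, hlV⟩ := hB.interleaved hnd hcl
    obtain ⟨B, C, rfl⟩ := List.append_of_mem hlU
    obtain ⟨D, E, rfl⟩ := List.append_of_mem hlV
    have eZ : k :: ((B ++ l :: C) ++ iv k :: (D ++ iv l :: E)) =
        k :: (B ++ l :: (C ++ iv k :: (D ++ iv l :: E))) := by simp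
    rw [eZ] at hB hnd hcl hn ⊢
    have hB' := hB.cut hr
    -- letters
    have hperm : (k :: (B ++ l :: (C ++ iv k :: (D ++ iv l :: E)))).Perm
        (k :: iv k :: l :: iv l :: (D ++ (C ++ (B ++ E)))) := by
      refine List.Perm.cons k ?_
      classical
      rw [List.perm_iff_count]
      intro a
      simp only [List.count_append, List.count_cons]
      omega
    have hnd2 := hperm.nodup_iff.mp hnd
    set Z' : List (β × Bool) := D ++ (C ++ (B ++ E)) with hZ'
    have hmem : ∀ a, a ∈ k :: (B ++ l :: (C ++ iv k :: (D ++ iv l :: E))) ↔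
        a = k ∨ a = iv k ∨ a = l ∨ a = iv l ∨ a ∈ Z' := by
      intro a
      rw [hperm.mem_iff]
      simp
    simp only [List.nodup_cons, List.mem_cons, not_or] at hnd2
    obtain ⟨⟨n1, n2, n3, n4⟩, ⟨n5, n6, n7⟩, ⟨n8, n9⟩, n10, n11⟩ := hnd2
    have hS : ((({a | a ∈ k :: (B ++ l :: (C ++ iv k :: (D ++ iv l :: E)))} \ {k}) \ {iv l}) \
        {iv k}) \ {l} = {a | a ∈ Z'} := by
      ext a
      have := hmem a
      simp only [Set.mem_sdiff, Set.mem_ofPred_eq, Set.mem_singleton_iff]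
      rw [this]
      constructor
      · rintro ⟨⟨⟨⟨h | h | h | h | h, h1⟩, h2⟩, h3⟩, h4⟩
        · exact absurd h h1
        · exact absurd h h3
        · exact absurd h h4
        · exact absurd h h2
        · exact h
      · intro h
        refine ⟨⟨⟨⟨Or.inr (Or.inr (Or.inr (Or.inr h))), ?_⟩, ?_⟩, ?_⟩, ?_⟩
        · rintro rfl; exact n4 h
        · rintro rfl; exact n10 h
        · rintro rfl; exact n7 h
        · rintro rfl; exact n9 h
    rw [hS] at hB'
    have hcl' : ∀ a ∈ Z', iv a ∈ Z' := by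
      intro a ha
      have h1 := hcl a ((hmem a).mpr (Or.inr (Or.inr (Or.inr (Or.inr ha)))))
      rcases (hmem _).mp h1 with h | h | h | h | h
      · exfalso
        have : a = iv k := by rw [← h, iv_iv]
        exact n7 (this ▸ ha)
      · exact absurd (iv_inj h ▸ ha) n4
      · exfalso
        have : a = iv l := by rw [← h, iv_iv]
        exact n10 (this ▸ ha)
      · exact absurd (iv_inj h ▸ ha) n9
      · exact h
    have hlen : Z'.length < n := by
      rw [← hn, hperm.length_eq]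
      simp only [List.length_cons]
      omega
    obtain ⟨φ', ps, h1, h2, h3, h4⟩ := ih _ hlen Z' rfl n11 hcl' hB'
    -- bases of the letters
    have hb12 : l.1 ≠ k.1 := by
      intro h
      have : l = k ∨ l = iv k := by
        obtain ⟨b, s⟩ := k
        obtain ⟨b', s'⟩ := l
        simp only at h
        subst h
        cases s <;> cases s' <;> simp [iv]
      rcases this with h | h
      · exact n2 h.symm
      · exact n5 h.symm
    have hbk : ∀ a ∈ Z', a.1 ≠ k.1 := by
      intro a ha h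
      have : a = k ∨ a = iv k := by
        obtain ⟨b, s⟩ := k
        obtain ⟨b', s'⟩ := a
        simp only at h
        subst h
        cases s <;> cases s' <;> simp [iv]
      rcases this with h | h
      · exact n4 (h ▸ ha)
      · exact n7 (h ▸ ha)
    have hbl : ∀ a ∈ Z', a.1 ≠ l.1 := by
      intro a ha h
      have : a = l ∨ a = iv l := by
        obtain ⟨b, s⟩ := l
        obtain ⟨b', s'⟩ := a
        simp only at h
        subst h
        cases s <;> cases s' <;> simp [iv]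
      rcases this with h | h
      · exact n9 (h ▸ ha)
      · exact n10 (h ▸ ha)
    have mB : ∀ a ∈ B, a ∈ Z' := fun a ha => by rw [hZ']; simp [ha]
    have mC : ∀ a ∈ C, a ∈ Z' := fun a ha => by rw [hZ']; simp [ha]
    have mD : ∀ a ∈ D, a ∈ Z' := fun a ha => by rw [hZ']; simp [ha]
    set Bm := FreeGroup.mk B with hBm
    set Cm := FreeGroup.mk C with hCm
    set Dm := FreeGroup.mk D with hDm
    set Em := FreeGroup.mk E with hEm
    have kB := mem_cl_others (b0 := k.1) (w := B) fun a ha => hbk a (mB a ha)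
    have kC := mem_cl_others (b0 := k.1) (w := C) fun a ha => hbk a (mC a ha)
    have kD := mem_cl_others (b0 := k.1) (w := D) fun a ha => hbk a (mD a ha)
    have lB := mem_cl_others (b0 := l.1) (w := B) fun a ha => hbl a (mB a ha)
    have lC := mem_cl_others (b0 := l.1) (w := C) fun a ha => hbl a (mC a ha)
    have lD := mem_cl_others (b0 := l.1) (w := D) fun a ha => hbl a (mD a ha)
    obtain ⟨ψ1, p1, p2⟩ := exists_auto k 1 (Cm⁻¹ * Dm⁻¹) (Subgroup.one_mem _)
      (Subgroup.mul_mem _ (Subgroup.inv_mem _ kC) (Subgroup.inv_mem _ kD))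
    obtain ⟨ψ2, q1, q2⟩ := exists_auto l (Dm * Cm * Bm) Dm⁻¹
      (Subgroup.mul_mem _ (Subgroup.mul_mem _ lD lC) lB) (Subgroup.inv_mem _ lD)
    have o1 : ∀ b, b ≠ k.1 → ψ1 (FreeGroup.of b) = FreeGroup.of b := fun b hb =>
      p2 _ (Subgroup.subset_closure ⟨⟨b, rfl⟩, fun h => hb (FreeGroup.of_injective h)⟩)
    have o2 : ∀ b, b ≠ l.1 → ψ2 (FreeGroup.of b) = FreeGroup.of b := fun b hb =>
      q2 _ (Subgroup.subset_closure ⟨⟨b, rfl⟩, fun h => hb (FreeGroup.of_injective h)⟩)
    have hltl : ψ1 (lt l) = lt l := by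
      have : lt l = FreeGroup.mk [l] := rfl
      rw [this]
      refine fix_mk fun a ha => ?_
      have : a = l := by simpa using ha
      rw [this]
      exact o1 _ hb12
    refine ⟨φ'.trans (ψ2.trans ψ1), (k.1, l.1) :: ps, ?_, ?_, ?_, ?_⟩
    · change ψ1 (ψ2 (φ' (cpr ((k.1, l.1) :: ps)))) = _
      have e : cpr ((k.1, l.1) :: ps) = FreeGroup.of k.1 * FreeGroup.of l.1 *
          (FreeGroup.of k.1)⁻¹ * (FreeGroup.of l.1)⁻¹ * cpr ps := by
        unfold cpr
        rw [List.map_cons, List.prod_cons]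
      have f1 : φ' (FreeGroup.of k.1) = FreeGroup.of k.1 :=
        h4 _ fun h => hbk _ h rfl
      have f2 : φ' (FreeGroup.of l.1) = FreeGroup.of l.1 :=
        h4 _ fun h => hbl _ h rfl
      have g1 : ψ1 (ψ2 (FreeGroup.of k.1)) = lt k * (Cm⁻¹ * Dm⁻¹) := by
        rw [o2 _ (fun h => hb12 h.symm), p1, one_mul]
      have g2 : ψ1 (ψ2 (FreeGroup.of l.1)) = Dm * Cm * Bm * lt l * Dm⁻¹ := by
        rw [q1, map_mul, map_mul, map_mul, map_mul, map_inv, hltl, p2 _ kB, p2 _ kC, p2 _ kD]
      have g3 : ψ1 (ψ2 (FreeGroup.mk Z')) = FreeGroup.mk Z' := by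
        rw [fix_mk (φ := ψ2) fun a ha => o2 _ (hbl a ha),
          fix_mk (φ := ψ1) fun a ha => o1 _ (hbk a ha)]
      rw [e]
      simp only [map_mul, map_inv, f1, f2, h1, g1, g2, g3]
      have e2 : FreeGroup.mk Z' = Dm * (Cm * (Bm * Em)) := by
        rw [hZ', ← FreeGroup.mul_mk, ← FreeGroup.mul_mk, ← FreeGroup.mul_mk]
      have e3 : FreeGroup.mk (k :: (B ++ l :: (C ++ iv k :: (D ++ iv l :: E)))) =
          lt k * (Bm * (lt l * (Cm * ((lt k)⁻¹ * (Dm * ((lt l)⁻¹ * Em)))))) := by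
        rw [← lt_iv, ← lt_iv]
        simp only [lt, hBm, hCm, hDm, hEm, FreeGroup.mul_mk, List.singleton_append]
      rw [e2, e3]
      group
    · have e : lp ((k.1, l.1) :: ps) = k.1 :: l.1 :: lp ps := rfl
      rw [e, List.nodup_cons, List.nodup_cons]
      refine ⟨?_, ?_, h2⟩
      · rw [List.mem_cons]
        rintro (h | h)
        · exact hb12 h.symm
        · exact hbk _ ((h3 _).mp h) rfl
      · intro h
        exact hbl _ ((h3 _).mp h) rfl
    · intro b
      have e : lp ((k.1, l.1) :: ps) = k.1 :: l.1 :: lp ps := rfl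
      rw [e, List.mem_cons, List.mem_cons, h3, hmem]
      constructor
      · rintro (h | h | h)
        · rw [h]
          obtain ⟨b, s⟩ := k
          cases s
          · exact Or.inr (Or.inl rfl)
          · exact Or.inl rfl
        · rw [h]
          obtain ⟨b, s⟩ := l
          cases s
          · exact Or.inr (Or.inr (Or.inr (Or.inl rfl)))
          · exact Or.inr (Or.inr (Or.inl rfl))
        · exact Or.inr (Or.inr (Or.inr (Or.inr h)))
      · rintro (h | h | h | h | h)
        · exact Or.inl (congrArg Prod.fst h)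
        · exact Or.inl (congrArg Prod.fst h)
        · exact Or.inr (Or.inl (congrArg Prod.fst h))
        · exact Or.inr (Or.inl (congrArg Prod.fst h))
        · exact Or.inr (Or.inr h)
    · intro b hb
      rw [hmem] at hb
      push Not at hb
      obtain ⟨m1, m2, m3, m4, m5⟩ := hb
      change ψ1 (ψ2 (φ' (FreeGroup.of b))) = _
      have hbk' : b ≠ k.1 := by
        rintro rfl
        obtain ⟨b, s⟩ := k
        cases s
        · exact m2 rfl
        · exact m1 rfl
      have hbl' : b ≠ l.1 := by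
        rintro rfl
        obtain ⟨b, s⟩ := l
        cases s
        · exact m4 rfl
        · exact m3 rfl
      rw [h4 b m5, o2 b hbl', o1 b hbk']

/-- the letters of a list of pairs as a function -/
def pe (ps : List (β × β)) (x : Fin 2 × Fin ps.length) : β :=
  if x.1 = 0 then (ps.get x.2).1 else (ps.get x.2).2

theorem cpr_eq (ps : List (β × β)) : cpr ps = FreeGroup.map (pe ps) (zeta ps.length) := by
  unfold cpr zeta
  rw [map_list_prod, List.map_map]
  congr 1
  refine List.ext_get (by simp) fun n h1 h2 => ?_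
  simp [pe]

theorem lp_eq (ps : List (β × β)) (b : β) : b ∈ lp ps ↔ ∃ x, pe ps x = b := by
  unfold lp
  rw [List.mem_flatMap]
  constructor
  · rintro ⟨p, hp, hb⟩
    obtain ⟨n, rfl⟩ := List.get_of_mem hp
    simp only [List.mem_cons, List.not_mem_nil, or_false] at hb
    rcases hb with h | h
    · exact ⟨(0, n), by simp [pe, h]⟩
    · exact ⟨(1, n), by simp [pe, h]⟩
  · rintro ⟨⟨i, n⟩, rfl⟩
    refine ⟨ps.get n, List.get_mem _ _, ?_⟩
    unfold pe
    split_ifs <;> simp

theorem pe_inj : ∀ (ps : List (β × β)), (lp ps).Nodup → Function.Injective (pe ps) := by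
  intro ps h
  have key : ∀ (ps : List (β × β)), (lp ps).Nodup → (∀ p ∈ ps, p.1 ≠ p.2) ∧
      ps.Pairwise (fun p q => p.1 ≠ q.1 ∧ p.1 ≠ q.2 ∧ p.2 ≠ q.1 ∧ p.2 ≠ q.2) := by
    intro ps
    induction ps with
    | nil => intro _; simp
    | cons p ps ih =>
      intro h
      have e : lp (p :: ps) = p.1 :: p.2 :: lp ps := rfl
      rw [e, List.nodup_cons, List.nodup_cons, List.mem_cons, not_or] at h
      obtain ⟨⟨h1, h2⟩, h3, h4⟩ := h
      obtain ⟨h5, h6⟩ := ih h4
      have hm : ∀ q ∈ ps, q.1 ∈ lp ps ∧ q.2 ∈ lp ps := by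
        intro q hq
        unfold lp
        rw [List.mem_flatMap, List.mem_flatMap]
        exact ⟨⟨q, hq, by simp⟩, ⟨q, hq, by simp⟩⟩
      refine ⟨?_, ?_⟩
      · intro q hq
        rcases List.mem_cons.mp hq with h | h
        · rw [h]; exact h1
        · exact h5 q h
      · rw [List.pairwise_cons]
        refine ⟨fun q hq => ?_, h6⟩
        obtain ⟨h7, h8⟩ := hm q hq
        exact ⟨fun h => h2 (h ▸ h7), fun h => h2 (h ▸ h8), fun h => h3 (h ▸ h7),
          fun h => h3 (h ▸ h8)⟩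
  obtain ⟨h1, h2⟩ := key ps h
  rw [List.pairwise_iff_get] at h2
  rintro ⟨i, m⟩ ⟨j, n⟩ hxy
  rcases lt_trichotomy m n with hmn | hmn | hmn
  · exfalso
    obtain ⟨a1, a2, a3, a4⟩ := h2 m n hmn
    unfold pe at hxy
    split_ifs at hxy
    · exact a1 hxy
    · exact a2 hxy
    · exact a3 hxy
    · exact a4 hxy
  · subst hmn
    have h3 := h1 (ps.get m) (List.get_mem _ _)
    unfold pe at hxy
    fin_cases i <;> fin_cases j
    · rfl
    · exact absurd hxy h3
    · exact absurd hxy.symm h3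
    · rfl
  · exfalso
    obtain ⟨a1, a2, a3, a4⟩ := h2 n m hmn
    unfold pe at hxy
    split_ifs at hxy
    · exact a1 hxy.symm
    · exact a3 hxy.symm
    · exact a2 hxy.symm
    · exact a4 hxy.symm

/-- CLASSIFICATION, relative form with the standard word. -/
theorem cla_rel_std {r : β × Bool → ℕ} (hr : Function.Injective r) {M : ℕ}
    {Z : List (β × Bool)} (hnd : Z.Nodup) (hcl : ∀ l ∈ Z, iv l ∈ Z)
    (hB : Bg r {l | l ∈ Z} M 0 Z) :
    ∃ (g : ℕ) (φ : FreeGroup β ≃* FreeGroup β) (e : Fin 2 × Fin g → β),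
      Function.Injective e ∧ (∀ b, (∃ x, e x = b) ↔ (b, true) ∈ Z) ∧
      φ (FreeGroup.map e (zeta g)) = FreeGroup.mk Z ∧
      ∀ b, (b, true) ∉ Z → φ (FreeGroup.of b) = FreeGroup.of b := by
  obtain ⟨φ, ps, h1, h2, h3, h4⟩ := cla_rel hr Z.length Z rfl hnd hcl hB
  refine ⟨ps.length, φ, pe ps, pe_inj ps h2, fun b => ?_, ?_, h4⟩
  · rw [← lp_eq, h3]
  · rw [← cpr_eq, h1]

theorem bd_bg (R : Rib β) : ∀ (Z : List (β × Bool)) (a : ℕ), Bd R a Z →
    Bg R.r Set.univ (R.N + 1) a Z
  | [], a, h => by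
    have h1 : a = R.N := h
    refine ⟨by omega, fun s _ => Or.inl ?_⟩
    rw [h1]; exact R.le s
  | l :: w, a, h => by
    have h1 : R.r l = a + 1 := h.1
    refine ⟨⟨by omega, fun s _ => ?_⟩, bd_bg R w _ h.2⟩
    omega

theorem bd_nodup (R : Rib β) {Z : List (β × Bool)} (h : Bd R 0 Z) : Z.Nodup := by
  -- predecessors
  have key : ∀ (n : ℕ) (i j : ℕ) (hi : i < Z.length) (hj : j < Z.length), i + j = n → i < j →
      Z[i] ≠ Z[j] := by
    have hb : ∀ (Z : List (β × Bool)) (a : ℕ), Bd R a Z → ∀ (i : ℕ) (hi : i < Z.length),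
        (i = 0 ∧ R.r Z[i] = a + 1) ∨ ∃ (i' : ℕ) (hi' : i' < Z.length), i = i' + 1 ∧
          R.r Z[i] = R.r (iv Z[i']) + 1 := by
      intro Z
      induction Z with
      | nil => intro a _ i hi; simp at hi
      | cons l w ih =>
        intro a h i hi
        rcases i with _ | i
        · exact Or.inl ⟨rfl, h.1⟩
        · right
          have hi' : i < w.length := by simpa using hi
          rcases ih _ h.2 i hi' with ⟨h1, h2⟩ | ⟨i', hi'', h1, h2⟩
          · subst h1
            exact ⟨0, by simp, rfl, h2⟩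
          · subst h1
            exact ⟨i' + 1, by simpa using hi'', rfl, h2⟩
    intro n
    induction n using Nat.strong_induction_on with
    | _ n ih =>
    intro i j hi hj hij hlt he
    rcases hb Z 0 h i hi with ⟨h1, h2⟩ | ⟨i', hi', h1, h2⟩
    · rcases hb Z 0 h j hj with ⟨h3, h4⟩ | ⟨j', hj', h3, h4⟩
      · omega
      · rw [← he, h2] at h4
        have := R.pos (iv Z[j'])
        omega
    · rcases hb Z 0 h j hj with ⟨h3, h4⟩ | ⟨j', hj', h3, h4⟩
      · omega
      · rw [← he, h2] at h4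
        have h5 : iv Z[i'] = iv Z[j'] := R.inj (by omega)
        exact ih (i' + j') (by omega) i' j' hi' hj' rfl (by omega) (iv_inj h5)
  rw [List.nodup_iff_injective_get]
  intro i j hij
  rcases lt_trichotomy i j with h1 | h1 | h1
  · exact absurd hij (key _ i j i.2 j.2 rfl h1)
  · exact h1
  · exact absurd hij.symm (key _ j i j.2 i.2 rfl h1)

/-- CLASSIFICATION of surfaces with one boundary circle: every boundary word is standard. -/
theorem cla (R : Rib β) {Z : List (β × Bool)} (hZ : Bd R 0 Z) (hall : ∀ l, l ∈ Z) :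
    ∃ (g : ℕ) (Φ : FreeGroup (Fin 2 × Fin g) ≃* FreeGroup β), Φ (zeta g) = FreeGroup.mk Z := by
  obtain ⟨g, φ, e, h1, h2, h3, _⟩ := cla_rel_std R.inj (bd_nodup R hZ) (fun l _ => hall _)
    (Bg.mono (Set.subset_univ _) Z (bd_bg R Z 0 hZ))
  let E : Fin 2 × Fin g ≃ β := Equiv.ofBijective e ⟨h1, fun b => (h2 b).mpr (hall _)⟩
  refine ⟨g, (FreeGroup.freeGroupCongr E).trans φ, ?_⟩
  rw [← h3]
  rfl

end aut

end Pool.Agent.TOR96
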