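import Pool.Agent.Helper96_TOR.Words

set_option autoImplicit false

namespace Pool.Agent.TOR96

open FreeGroup

/-! ### lexicographic order on lists of numbers -/

theorem lt_append_of_lt : ∀ {u u' : List ℕ} (v v' : List ℕ), u < u' → u.length = u'.length →
    u ++ v < u' ++ v' := by
  intro u
  induction u with
  | nil =>
    intro u' v v' h hl
    have : u' = [] := by simpa using hl.symm
    subst this
    exact absurd h (lt_irrefl _)
  | cons a u ih =>
    intro u' v v' h hl
    cases u' with
    | nil => simp at hl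
    | cons b u' =>
      rw [List.cons_lt_cons_iff] at h
      rw [List.cons_append, List.cons_append, List.cons_lt_cons_iff]
      rcases h with h | ⟨h1, h2⟩
      · exact Or.inl h
      · exact Or.inr ⟨h1, ih v v' h2 (by simpa using hl)⟩

theorem take_lt_take {u v : List ℕ} {s m : ℕ} (h : u.take s < v.take s) (hsm : s ≤ m)
    (hu : s ≤ u.length) (hv : s ≤ v.length) : u.take m < v.take m := by
  have e1 : u.take m = u.take s ++ (u.take m).drop s := by
    conv_lhs => rw [← List.take_append_drop s (u.take m)]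
    rw [List.take_take, min_eq_left hsm]
  have e2 : v.take m = v.take s ++ (v.take m).drop s := by
    conv_lhs => rw [← List.take_append_drop s (v.take m)]
    rw [List.take_take, min_eq_left hsm]
  rw [e1, e2]
  apply lt_append_of_lt _ _ h
  simp [hu, hv]

variable {α : Type*} [DecidableEq α] (e : α × Bool → ℕ)

/-- coded word -/
def W (g : FreeGroup α) : List ℕ := g.toWord.map e

/-- left half -/
def L (g : FreeGroup α) : List ℕ := (W e g).take ((g.norm + 1) / 2)

/-- inversion invariant key -/
def keyc (g : FreeGroup α) : ℕ ×ₗ (List ℕ ×ₗ List ℕ) :=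
  toLex (g.norm, toLex (min (L e g) (L e g⁻¹), max (L e g) (L e g⁻¹)))

theorem W_length (g : FreeGroup α) : (W e g).length = g.norm := by simp [W, FreeGroup.norm]

theorem keyc_inv (g : FreeGroup α) : keyc e g⁻¹ = keyc e g := by
  unfold keyc
  rw [norm_inv_eq, inv_inv, min_comm, max_comm]

theorem keyc_lt_of_norm {g h : FreeGroup α} (hn : g.norm < h.norm) : keyc e g < keyc e h := by
  unfold keyc
  rw [Prod.Lex.toLex_lt_toLex]
  exact Or.inl hn

theorem keyc_lt_of_L {g h : FreeGroup α} (hn : g.norm = h.norm) (h1 : L e g ≤ L e h)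
    (h2 : L e g⁻¹ ≤ L e h⁻¹) (h3 : L e g < L e h ∨ L e g⁻¹ < L e h⁻¹) :
    keyc e g < keyc e h := by
  unfold keyc
  rw [Prod.Lex.toLex_lt_toLex]
  refine Or.inr ⟨hn, ?_⟩
  rw [Prod.Lex.toLex_lt_toLex]
  have hmin : min (L e g) (L e g⁻¹) ≤ min (L e h) (L e h⁻¹) := min_le_min h1 h2
  have hmax : max (L e g) (L e g⁻¹) ≤ max (L e h) (L e h⁻¹) := max_le_max h1 h2
  rcases lt_or_eq_of_le hmin with h4 | h4
  · exact Or.inl h4
  · refine Or.inr ⟨h4, ?_⟩
    rcases lt_or_eq_of_le hmax with h5 | h5
    · exact h5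
    · exfalso
      rcases h3 with h3 | h3
      · rcases le_total (L e g) (L e g⁻¹) with h6 | h6 <;>
        rcases le_total (L e h) (L e h⁻¹) with h7 | h7 <;>
        simp only [min_eq_left, min_eq_right, max_eq_left, max_eq_right, h6, h7] at h4 h5
        · exact absurd h4 h3.ne
        · -- L g = L h⁻¹, L g⁻¹ = L h
          rw [h4] at h3; rw [h5] at h2
          exact absurd (lt_of_lt_of_le h3 h2) (lt_irrefl _)
        · rw [h5] at h3; rw [h4] at h2
          exact absurd (lt_of_lt_of_le h3 h2) (lt_irrefl _)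
        · exact absurd h5 h3.ne
      · rcases le_total (L e g) (L e g⁻¹) with h6 | h6 <;>
        rcases le_total (L e h) (L e h⁻¹) with h7 | h7 <;>
        simp only [min_eq_left, min_eq_right, max_eq_left, max_eq_right, h6, h7] at h4 h5
        · exact absurd h5 h3.ne
        · rw [h5] at h3; rw [h4] at h1
          exact absurd (lt_of_lt_of_le h3 h1) (lt_irrefl _)
        · rw [h4] at h3; rw [h5] at h1
          exact absurd (lt_of_lt_of_le h3 h1) (lt_irrefl _)
        · exact absurd h4 h3.ne

/-- irreducibility of a symmetric set -/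
structure Irr (S : Set (FreeGroup α)) : Prop where
  one : (1 : FreeGroup α) ∉ S
  inv : ∀ x ∈ S, x⁻¹ ∈ S
  red : ∀ x ∈ S, ∀ y ∈ S, x ≠ y → x * y ≠ 1 → ¬ keyc e (x * y) < keyc e y

variable {e}

namespace Irr

variable {S : Set (FreeGroup α)} (hS : Irr e S)

include hS

theorem redr : ∀ x ∈ S, ∀ y ∈ S, x ≠ y → x * y ≠ 1 → ¬ keyc e (x * y) < keyc e x := by
  intro x hx y hy hxy h1 h
  have h2 := hS.red y⁻¹ (hS.inv y hy) x⁻¹ (hS.inv x hx)
    (fun h => hxy (inv_injective h).symm) (fun h => h1 (by
      have : (x * y)⁻¹ = 1 := by rw [mul_inv_rev]; exact h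
      exact inv_eq_one.mp this))
  apply h2
  rw [← mul_inv_rev, keyc_inv, keyc_inv]
  exact h

/-- (N1) -/
theorem cc_le (x : FreeGroup α) (hx : x ∈ S) (y : FreeGroup α) (hy : y ∈ S) (h1 : x * y ≠ 1) :
    2 * cc x y ≤ x.norm ∧ 2 * cc x y ≤ y.norm := by
  by_cases hxy : x = y
  · subst hxy
    have := cc_self x (fun h => hS.one (h ▸ hx))
    omega
  · have a := norm_cc x y
    have b : ¬ (x * y).norm < y.norm := fun h => hS.red x hx y hy hxy h1 (keyc_lt_of_norm e h)
    have c : ¬ (x * y).norm < x.norm := fun h => hS.redr x hx y hy hxy h1 (keyc_lt_of_norm e h)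
    omega

/-- (P) -/
theorem prop (he : Function.Injective e) (x : FreeGroup α) (hx : x ∈ S) (y : FreeGroup α)
    (hy : y ∈ S) (h1 : x * y ≠ 1) (h2 : 2 * cc x y = x.norm) :
    (W e y).take (cc x y) < (W e x).take (cc x y) := by
  have hx1 : x ≠ 1 := fun h => hS.one (h ▸ hx)
  have hxy : x ≠ y := by
    rintro rfl
    have := cc_self x hx1
    omega
  obtain ⟨n1, n2⟩ := hS.cc_le x hx y hy h1
  set c := cc x y with hc
  have hxn : x.norm - c = c := by omega
  have hlx : x.toWord.length = x.norm := rfl
  have hly : y.toWord.length = y.norm := rfl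
  have hw : (x * y).toWord = x.toWord.take c ++ y.toWord.drop c := by
    rw [toWord_mul_cc, ← hc, hxn]
  have hnorm : (x * y).norm = y.norm := by
    have := norm_cc x y
    omega
  have hne : (W e x).take c ≠ (W e y).take c := by
    intro h
    unfold W at h
    rw [← List.map_take, ← List.map_take] at h
    have h3 : x.toWord.take c = y.toWord.take c := List.map_injective_iff.mpr he h
    have h4 : x.toWord.drop c = invRev (y.toWord.take c) := by
      have := drop_cc x y
      rw [← hc, hxn] at this
      exact this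
    apply hx1
    rw [← mk_toWord (x := x), ← List.take_append_drop c x.toWord, h3, h4, ← mul_mk, ← inv_mk]
    group
  rcases lt_trichotomy ((W e x).take c) ((W e y).take c) with h | h | h
  · exfalso
    apply hS.red x hx y hy hxy h1
    have hWx : W e (x * y) = (W e x).take c ++ (W e y).drop c := by
      unfold W
      rw [hw, List.map_append, List.map_take, List.map_drop]
    have hLlt : L e (x * y) < L e y := by
      have h5 : (W e (x * y)).take c < (W e y).take c := by
        rw [hWx, List.take_append_of_le_length (by simp [W_length]; omega), List.take_take,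
          min_self]
        exact h
      unfold L
      rw [hnorm]
      exact take_lt_take h5 (by omega) (by rw [W_length]; omega) (by rw [W_length]; omega)
    have hLeq : L e (x * y)⁻¹ = L e y⁻¹ := by
      unfold L W
      rw [toWord_inv, toWord_inv, norm_inv_eq, norm_inv_eq, hnorm, hw]
      have e2 : invRev y.toWord = invRev (y.toWord.drop c) ++ invRev (y.toWord.take c) := by
        rw [← invRev_append, List.take_append_drop]
      rw [invRev_append, e2, List.map_append, List.map_append]
      rw [List.take_append_of_le_length (by simp [hly]; omega),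
        List.take_append_of_le_length (by simp [hly]; omega)]
    exact keyc_lt_of_L e hnorm hLlt.le hLeq.le (Or.inl hLlt)
  · exact absurd h hne
  · exact h

/-- (N2) -/
theorem cc_add (he : Function.Injective e) (x y z : FreeGroup α) (hx : x ∈ S) (hy : y ∈ S)
    (hz : z ∈ S) (h1 : x * y ≠ 1) (h2 : y * z ≠ 1) : cc x y + cc y z < y.norm := by
  obtain ⟨a1, a2⟩ := hS.cc_le x hx y hy h1
  obtain ⟨b1, b2⟩ := hS.cc_le y hy z hz h2
  by_contra hlt
  push Not at hlt
  have e1 : 2 * cc x y = y.norm := by omega
  have e2 : 2 * cc y z = y.norm := by omega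
  have e3 : cc x y = cc y z := by omega
  have p1 := hS.prop he y hy z hz h2 e2
  have h1' : y⁻¹ * x⁻¹ ≠ 1 := by
    intro h
    apply h1
    have : (x * y)⁻¹ = 1 := by rw [mul_inv_rev]; exact h
    exact inv_eq_one.mp this
  have p2 := hS.prop he y⁻¹ (hS.inv y hy) x⁻¹ (hS.inv x hx) h1' (by
    rw [cc_inv, norm_inv_eq]; exact e1)
  rw [cc_inv] at p2
  -- take c of x⁻¹ equals take c of y, take c of y⁻¹ equals take c of z
  have t1 : (W e x⁻¹).take (cc x y) = (W e y).take (cc x y) := by
    unfold W
    rw [← List.map_take, ← List.map_take, take_cc]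
  have t2 : (W e y⁻¹).take (cc y z) = (W e z).take (cc y z) := by
    unfold W
    rw [← List.map_take, ← List.map_take, take_cc]
  rw [t1, e3, t2] at p2
  exact absurd (p1.trans p2) (lt_irrefl _)

end Irr

/-- partial products -/
def yy (q : ℕ → FreeGroup α) : ℕ → FreeGroup α
  | 0 => 1
  | (j + 1) => yy q j * q j

variable {S : Set (FreeGroup α)}

/-- the invariant -/
theorem inv_left (hS : Irr e S) (he : Function.Injective e) (q : ℕ → FreeGroup α) (k : ℕ)
    (hq : ∀ i < k, q i ∈ S) (hne : ∀ i, i + 1 < k → q i * q (i + 1) ≠ 1) :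
    ∀ j, j < k → ∃ s : ℕ, (∃ Y, (yy q (j + 1)).toWord = Y ++ (q j).toWord.drop s) ∧
      (q j).norm ≤ (yy q (j + 1)).norm ∧
      (j + 1 < k → s + cc (q j) (q (j + 1)) < (q j).norm) ∧
      2 * s ≤ (q j).norm ∧
      ((yy q (j + 1)).norm = (q j).norm → 0 < j → (W e (q j)).take s < (W e (yy q (j + 1))).take s) := by
  intro j
  induction j with
  | zero =>
    intro hk
    refine ⟨0, ⟨[], by simp [yy]⟩, by simp [yy], ?_, by omega, fun _ h => absurd h (lt_irrefl _)⟩
    intro h1
    have := (hS.cc_le _ (hq 0 (by omega)) _ (hq 1 (by omega)) (hne 0 h1)).1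
    have hn : 0 < (q 0).norm := by
      rw [Nat.pos_iff_ne_zero]
      intro h
      exact hS.one ((norm_eq_zero.mp h) ▸ hq 0 (by omega))
    simp only [zero_add]
    omega
  | succ j ih =>
    intro hk
    obtain ⟨s, ⟨Y, hY⟩, hn, hs, h2s, hlt⟩ := ih (by omega)
    have hs' := hs hk
    have hc := hS.cc_le _ (hq j (by omega)) _ (hq (j + 1) hk) (hne j hk)
    have hw := step_word (yy q (j + 1)) (q j) (q (j + 1)) s Y hY hs'
    have hnn := step_norm (yy q (j + 1)) (q j) (q (j + 1)) s Y hY hs'
    have hyy : yy q (j + 1 + 1) = yy q (j + 1) * q (j + 1) := rfl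
    refine ⟨cc (q j) (q (j + 1)), ⟨_, hyy ▸ hw⟩, by rw [hyy]; omega, ?_, hc.2, ?_⟩
    · intro h1
      exact hS.cc_add he _ _ _ (hq j (by omega)) (hq (j + 1) hk) (hq (j + 2) h1) (hne j hk)
        (hne (j + 1) h1)
    · intro heq _
      set c := cc (q j) (q (j + 1)) with hcd
      rw [hyy] at heq ⊢
      have hyn : (yy q (j + 1)).norm = 2 * c := by omega
      have hqn : (q j).norm = 2 * c := by omega
      have p := hS.prop he _ (hq j (by omega)) _ (hq (j + 1) hk) (hne j hk) (by omega)
      rw [← hcd] at p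
      have hWy : W e (yy q (j + 1) * q (j + 1)) =
          (W e (yy q (j + 1))).take c ++ (W e (q (j + 1))).drop c := by
        unfold W
        rw [hw, List.map_append, List.map_take, List.map_drop, hyn]
        congr 2
        omega
      rw [hWy, List.take_append_of_le_length (by simp [W_length, hyn]; omega), List.take_take, min_self]
      rcases Nat.eq_zero_or_pos j with rfl | hj
      · simpa [yy] using p
      · have h3 := hlt (by omega) hj
        have h4 : (W e (q j)).take c < (W e (yy q (j + 1))).take c :=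
          take_lt_take h3 (by omega) (by rw [W_length]; omega) (by rw [W_length]; omega)
        exact p.trans h4

theorem norm_mono (hS : Irr e S) (he : Function.Injective e) (q : ℕ → FreeGroup α) (k : ℕ)
    (hq : ∀ i < k, q i ∈ S) (hne : ∀ i, i + 1 < k → q i * q (i + 1) ≠ 1) (i : ℕ) :
    ∀ j, i ≤ j → j < k → (yy q (i + 1)).norm ≤ (yy q (j + 1)).norm ∧
      (i + 1 < k → (yy q (i + 1)).norm ≤ (yy q (j + 1)).norm) ∧
      (i + 1 ≤ j → (W e (yy q (j + 1))).take ((yy q (i + 1)).norm - cc (q i) (q (i + 1))) =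
        (W e (yy q (i + 1))).take ((yy q (i + 1)).norm - cc (q i) (q (i + 1)))) ∧
      (j + 1 < k → (yy q (i + 1)).norm - cc (q i) (q (i + 1)) ≤
        (yy q (j + 1)).norm - cc (q j) (q (j + 1))) := by
  intro j hij
  induction j, hij using Nat.le_induction with
  | base =>
    intro _
    exact ⟨le_refl _, fun _ => le_refl _, fun h => by omega, fun _ => le_refl _⟩
  | succ j hij ih =>
    intro hk
    obtain ⟨i1, i2, i3, i4⟩ := ih (by omega)
    have i4' := i4 hk
    obtain ⟨s, ⟨Y, hY⟩, hn, hs, h2s, hlt⟩ := inv_left hS he q k hq hne j (by omega)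
    have hs' := hs hk
    have hc := hS.cc_le _ (hq j (by omega)) _ (hq (j + 1) hk) (hne j hk)
    have hw := step_word (yy q (j + 1)) (q j) (q (j + 1)) s Y hY hs'
    have hnn := step_norm (yy q (j + 1)) (q j) (q (j + 1)) s Y hY hs'
    have hyy : yy q (j + 1 + 1) = yy q (j + 1) * q (j + 1) := rfl
    have hWy : W e (yy q (j + 1) * q (j + 1)) =
          (W e (yy q (j + 1))).take ((yy q (j + 1)).norm - cc (q j) (q (j + 1))) ++
            (W e (q (j + 1))).drop (cc (q j) (q (j + 1))) := by
      unfold W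
      rw [hw, List.map_append, List.map_take, List.map_drop]
    refine ⟨by rw [hyy]; omega, fun _ => by rw [hyy]; omega, fun _ => ?_, ?_⟩
    · rw [hyy, hWy, List.take_append_of_le_length (by simp [W_length]; omega), List.take_take,
        min_eq_left i4']
      rcases Nat.eq_or_lt_of_le hij with rfl | h
      · rfl
      · exact i3 h
    · intro h1
      have := hS.cc_add he _ _ _ (hq j (by omega)) (hq (j + 1) hk) (hq (j + 1 + 1) h1) (hne j hk)
        (hne (j + 1) h1)
      rw [hyy]
      omega

/-- left comparison -/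
theorem left_cmp (hS : Irr e S) (he : Function.Injective e) (q : ℕ → FreeGroup α) (k : ℕ)
    (hq : ∀ i < k, q i ∈ S) (hne : ∀ i, i + 1 < k → q i * q (i + 1) ≠ 1) (i : ℕ) (hi : i < k) :
    (q i).norm ≤ (yy q k).norm ∧ ((yy q k).norm = (q i).norm →
      L e (q i) ≤ L e (yy q k) ∧ (0 < i → L e (q i) < L e (yy q k))) := by
  obtain ⟨s, ⟨Y, hY⟩, hn, hs, h2s, hlt⟩ := inv_left hS he q k hq hne i hi
  obtain ⟨m, rfl⟩ : ∃ m, k = m + 1 := ⟨k - 1, by omega⟩
  obtain ⟨m1, m2, m3, m4⟩ := norm_mono hS he q (m + 1) hq hne i m (by omega) (by omega)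
  have hle : (q i).norm ≤ (yy q (m + 1)).norm := by omega
  refine ⟨hle, fun heq => ?_⟩
  have hyn : (yy q (i + 1)).norm = (q i).norm := by omega
  -- left half of the whole word is the left half of the partial product
  have hLL : L e (yy q (m + 1)) = L e (yy q (i + 1)) := by
    rcases Nat.eq_or_lt_of_le (Nat.le_of_lt_succ hi) with rfl | h
    · rfl
    · have h3 := m3 (by omega)
      have hc := hS.cc_le _ (hq i (by omega)) _ (hq (i + 1) (by omega)) (hne i (by omega))
      unfold L
      have h5 : ((yy q (m + 1)).norm + 1) / 2 ≤ (yy q (i + 1)).norm - cc (q i) (q (i + 1)) := by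
        omega
      have h6 : ((yy q (i + 1)).norm + 1) / 2 = ((yy q (m + 1)).norm + 1) / 2 := by
        rw [heq, hyn]
      rw [h6]
      have := congrArg (List.take (((yy q (m + 1)).norm + 1) / 2)) h3
      rwa [List.take_take, List.take_take, min_eq_left h5] at this
  rcases Nat.eq_zero_or_pos i with rfl | h0
  · refine ⟨?_, fun h => absurd h (lt_irrefl _)⟩
    rw [hLL]
    simp [yy]
  · have h7 : L e (q i) < L e (yy q (m + 1)) := by
      rw [hLL]
      unfold L
      rw [hyn]
      exact take_lt_take (hlt hyn h0) (by omega) (by rw [W_length]; omega)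
        (by rw [W_length]; omega)
    exact ⟨h7.le, fun _ => h7⟩

omit [DecidableEq α] in
theorem yy_rev' (q : ℕ → FreeGroup α) (k : ℕ) :
    yy (fun i => (q (k - 1 - i))⁻¹) k = (yy q k)⁻¹ := by
  have : ∀ j ≤ k, yy q (k - j) * (yy (fun i => (q (k - 1 - i))⁻¹) j)⁻¹ = yy q k := by
    intro j hj
    induction j with
    | zero => simp [yy]
    | succ j ih =>
      have h := ih (by omega)
      rw [← h]
      have e1 : k - j = (k - (j + 1)) + 1 := by omega
      have e2 : k - 1 - j = k - (j + 1) := by omega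
      rw [e1]
      simp only [yy, e2, mul_inv_rev, inv_inv, mul_assoc]
  have h := this k le_rfl
  simp only [Nat.sub_self, yy, one_mul] at h
  rw [← h, inv_inv]

/-- THEOREM N: a reduced word of length at least 2 in an irreducible set is strictly bigger than
each of its letters. -/
theorem nielsen (hS : Irr e S) (he : Function.Injective e) (q : ℕ → FreeGroup α) (k : ℕ)
    (hk : 2 ≤ k) (hq : ∀ i < k, q i ∈ S) (hne : ∀ i, i + 1 < k → q i * q (i + 1) ≠ 1) (i : ℕ)
    (hi : i < k) : keyc e (q i) < keyc e (yy q k) := by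
  obtain ⟨a1, a2⟩ := left_cmp hS he q k hq hne i hi
  have hq' : ∀ j < k, (fun j => (q (k - 1 - j))⁻¹) j ∈ S := fun j hj =>
    hS.inv _ (hq _ (by omega))
  have hne' : ∀ j, j + 1 < k → (fun j => (q (k - 1 - j))⁻¹) j * (fun j => (q (k - 1 - j))⁻¹) (j + 1)
      ≠ 1 := by
    intro j hj h
    dsimp only at h
    rw [← mul_inv_rev, inv_eq_one] at h
    have e1 : k - 1 - j = (k - 1 - (j + 1)) + 1 := by omega
    rw [e1] at h
    exact hne _ (by omega) h
  obtain ⟨b1, b2⟩ := left_cmp hS he (fun j => (q (k - 1 - j))⁻¹) k hq' hne' (k - 1 - i) (by omega)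
  have e1 : k - 1 - (k - 1 - i) = i := by omega
  rw [yy_rev'] at b1 b2
  simp only [e1, norm_inv_eq] at b1 b2
  rcases Nat.eq_or_lt_of_le a1 with h | h
  · obtain ⟨c1, c2⟩ := a2 h.symm
    obtain ⟨d1, d2⟩ := b2 h.symm
    refine keyc_lt_of_L e h c1 d1 ?_
    rcases Nat.eq_zero_or_pos i with h0 | h0
    · exact Or.inr (d2 (by omega))
    · exact Or.inl (c2 h0)
  · exact keyc_lt_of_norm e h

end Pool.Agent.TOR96
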