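import Pool.Agent.Helper58_TOR.Tup

set_option autoImplicit false

namespace Pool.Agent.TOR96

open Pool.Agent.TOR.H58 Finsupp

variable {V : Type*} (M : Type*) [AddCommGroup M]

/-- exactness of the augmented ordered chain complex of a family of lists at lists of length m -/
def AcL (L : List V → Prop) (m : ℕ) : Prop :=
  ∀ c ∈ Sup M (fun l => L l ∧ l.length = m), bd c = 0 →
    ∃ b ∈ Sup M (fun l => L l ∧ l.length = m + 1), bd b = c

/-- exactness of the augmented ordered chain complex at lists of length m -/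
def AcN (K : Set V → Prop) (m : ℕ) : Prop := AcL M (KL K) m

variable {M}

/-- a condition on the order of the vertices of a list, which is compatible with cones -/
structure Ordy (O : List V → Prop) : Prop where
  sub : ∀ l l' : List V, l'.Sublist l → O l → O l'
  cone : ∀ U : Set V, U.Nonempty → ∃ v ∈ U, ∀ l : List V, O l → (∀ a ∈ l, a ∈ U) → O (v :: l)

theorem ordy_true : Ordy (fun _ : List V => True) where
  sub := fun _ _ _ _ => trivial
  cone := fun _ hU => ⟨hU.some, hU.some_mem, fun _ _ _ => trivial⟩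

/-- cone over one vertex -/
theorem cone_chain {L : List V → Prop} {m : ℕ} (v : V) (c : List V →₀ M)
    (hc : c ∈ Sup M (fun l => L l ∧ l.length = m))
    (hv : ∀ l, L l → l.length = m → c l ≠ 0 → L (v :: l)) (h0 : bd c = 0) :
    ∃ b ∈ Sup M (fun l => L l ∧ l.length = m + 1), bd b = c := by
  refine ⟨cns v c, ?_, by rw [bd_cns, h0, map_zero, sub_zero]⟩
  have hc' : c ∈ Sup M (fun l => L (v :: l) ∧ l.length = m) :=
    fun l hl => ⟨hv l (hc l hl).1 (hc l hl).2 hl, (hc l hl).2⟩
  exact cns_mem_Sup (fun l hl => ⟨hl.1, by simp [hl.2]⟩) hc'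

theorem simplex_acl {O : List V → Prop} (hO : Ordy O) (U : Set V) (hU : U.Nonempty) (m : ℕ) :
    AcL M (fun s => O s ∧ ∀ a ∈ s, a ∈ U) m := by
  intro c hc h0
  obtain ⟨v, hv, h1⟩ := hO.cone U hU
  refine cone_chain v c hc (fun l hl _ _ => ⟨h1 l hl.1 hl.2, ?_⟩) h0
  intro a ha
  rcases List.mem_cons.mp ha with h | h
  · exact h ▸ hv
  · exact hl.2 a h

/-- restriction of a chain to the lists in a set -/
noncomputable def res (P : List V → Prop) (c : List V →₀ M) : List V →₀ M :=
  open scoped Classical in c.filter P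

theorem res_mem {P Q : List V → Prop} {c : List V →₀ M} (hc : c ∈ Sup M Q) :
    res P c ∈ Sup M (fun l => P l ∧ Q l) := by
  classical
  intro l hl
  unfold res at hl
  rw [Finsupp.filter_apply] at hl
  split_ifs at hl with h
  · exact ⟨h, hc l hl⟩
  · exact absurd rfl hl

theorem sub_res_mem {P Q : List V → Prop} {c : List V →₀ M} (hc : c ∈ Sup M Q) :
    c - res P c ∈ Sup M (fun l => ¬ P l ∧ Q l) := by
  classical
  intro l hl
  unfold res at hl
  rw [Finsupp.sub_apply, Finsupp.filter_apply] at hl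
  split_ifs at hl with h
  · exact absurd (sub_self _) hl
  · exact ⟨h, hc l (by rwa [sub_zero] at hl)⟩

theorem Sup_and {P Q : List V → Prop} {c : List V →₀ M} (h1 : c ∈ Sup M P) (h2 : c ∈ Sup M Q) :
    c ∈ Sup M (fun l => P l ∧ Q l) := fun l hl => ⟨h1 l hl, h2 l hl⟩

theorem bd1_sub (l : List V) (m : M) :
    bd1 l m ∈ Sup M (fun l' => l'.Sublist l ∧ l'.length + 1 = l.length) := by
  induction l with
  | nil => rw [bd1_nil]; exact AddSubgroup.zero_mem _
  | cons v l ih =>
    rw [bd1_cons]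
    refine AddSubgroup.sub_mem _ (single_mem_Sup ⟨List.sublist_cons_self v l, rfl⟩ m) ?_
    refine cns_mem_Sup (fun l' hl' => ⟨hl'.1.cons_cons v, ?_⟩) ih
    simp only [List.length_cons]
    omega

theorem bd_mem' {P : List V → Prop} {m : ℕ} {c : List V →₀ M}
    (hP : ∀ l l' : List V, P l → l'.Sublist l → P l')
    (hc : c ∈ Sup M (fun l => P l ∧ l.length = m + 1)) :
    bd c ∈ Sup M (fun l => P l ∧ l.length = m) :=
  map_mem_Sup _ (fun l hl x => by
    rw [bd_single]
    refine Sup_mono (fun l' hl' => ⟨hP l l' hl.1 hl'.1, ?_⟩) (bd1_sub l x)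
    have := hl.2
    have := hl'.2
    omega) hc

variable [DecidableEq V]

/-- union of faces of codimension at most two of a simplex -/
theorem union_acl {O : List V → Prop} (hO : Ordy O) :
    ∀ (l : List (Finset V)), l ≠ [] → (∀ ρ ∈ l, ρ.card ≤ 2) →
    ∀ (m : ℕ) (U : Finset V), 2 * m + 3 ≤ U.card →
      AcL M (fun s => O s ∧ ∃ ρ ∈ l, ∀ a ∈ s, a ∈ U \ ρ) m := by
  intro l
  induction l with
  | nil => intro h; exact absurd rfl h
  | cons ρ l ih =>
    intro _ hρ m U hU
    have hne : ((U \ ρ : Finset V) : Set V).Nonempty := by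
      rw [Finset.coe_nonempty, ← Finset.card_pos]
      have h1 := hρ ρ List.mem_cons_self
      have h2 := Finset.le_card_sdiff ρ U
      omega
    by_cases hl : l = []
    · subst hl
      intro c hc h0
      obtain ⟨b, hb, hbc⟩ := simplex_acl (M := M) hO _ hne m c
        (Sup_mono (fun l hl => ⟨by simpa using hl.1, hl.2⟩) hc) h0
      exact ⟨b, Sup_mono (fun l hl => ⟨⟨hl.1.1, ρ, by simp, hl.1.2⟩, hl.2⟩) hb, hbc⟩
    intro c hc h0
    obtain ⟨v, hv, hvO⟩ := hO.cone _ hne
    rcases m with _ | m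
    · refine cone_chain v c hc (fun l hl hlen _ => ?_) h0
      have : l = [] := List.length_eq_zero_iff.mp hlen
      subst this
      refine ⟨hvO [] hl.1 (by simp), ρ, List.mem_cons_self, ?_⟩
      intro a ha
      have : a = v := by simpa using ha
      exact this ▸ hv
    · set P : List V → Prop := fun s => O s ∧ ∀ a ∈ s, a ∈ U \ ρ with hP
      set P' : List V → Prop := fun s => O s ∧ ∃ ρ' ∈ l, ∀ a ∈ s, a ∈ U \ ρ' with hP'
      have hPs : ∀ s s' : List V, P s → s'.Sublist s → P s' := fun s s' h h' =>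
        ⟨hO.sub s s' h' h.1, fun a ha => h.2 a (h'.subset ha)⟩
      have hPs' : ∀ s s' : List V, P' s → s'.Sublist s → P' s' := by
        rintro s s' ⟨h, ρ', h1, h2⟩ h'
        exact ⟨hO.sub s s' h' h, ρ', h1, fun a ha => h2 a (h'.subset ha)⟩
      have hc1 : res P c ∈ Sup M (fun s => P s ∧ s.length = m + 1) :=
        Sup_mono (fun s hs => ⟨hs.1, hs.2.2⟩) (res_mem (P := P) hc)
      have hc2 : c - res P c ∈ Sup M (fun s => P' s ∧ s.length = m + 1) := by
        refine Sup_mono (fun s hs => ⟨?_, hs.2.2⟩) (sub_res_mem (P := P) hc)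
        obtain ⟨h0, ρ', h1, h2⟩ := hs.2.1
        rcases List.mem_cons.mp h1 with h | h
        · exfalso
          apply hs.1
          refine ⟨h0, fun a ha => ?_⟩
          have := h2 a ha
          rw [h] at this
          exact this
        · exact ⟨h0, ρ', h, fun a ha => h2 a ha⟩
      have hz : bd (res P c) = - bd (c - res P c) := by
        rw [map_sub, h0]; simp
      have hz1 : bd (res P c) ∈ Sup M (fun s => P s ∧ s.length = m) := bd_mem' hPs hc1
      have hz2 : bd (res P c) ∈ Sup M (fun s => P' s ∧ s.length = m) := by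
        rw [hz]
        exact AddSubgroup.neg_mem _ (bd_mem' hPs' hc2)
      have hcard : 2 * m + 3 ≤ (U \ ρ).card := by
        have h1 := hρ ρ List.mem_cons_self
        have h2 := Finset.le_card_sdiff ρ U
        omega
      obtain ⟨d, hd, hdz⟩ := ih hl (fun ρ' h => hρ ρ' (List.mem_cons_of_mem _ h)) m (U \ ρ) hcard
        (bd (res P c)) (by
          refine Sup_mono (fun s hs => ⟨?_, hs.1.2⟩) (Sup_and hz1 hz2)
          obtain ⟨h0, ρ', h1, h2⟩ := hs.2.1
          refine ⟨h0, ρ', h1, fun a ha => ?_⟩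
          have ha1 := hs.1.1.2 a ha
          have ha2 := h2 a ha
          simp only [Finset.mem_sdiff] at ha1 ha2 ⊢
          exact ⟨ha1, ha2.2⟩) (bd_bd _)
      have hd1 : d ∈ Sup M (fun s => P s ∧ s.length = m + 1) := by
        refine Sup_mono (fun s hs => ⟨⟨hs.1.1, fun a ha => ?_⟩, hs.2⟩) hd
        obtain ⟨ρ', h1, h2⟩ := hs.1.2
        have := h2 a ha
        rw [Finset.mem_sdiff] at this
        exact this.1
      have hd2 : d ∈ Sup M (fun s => P' s ∧ s.length = m + 1) := by
        refine Sup_mono (fun s hs => ⟨⟨hs.1.1, ?_⟩, hs.2⟩) hd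
        obtain ⟨ρ', h1, h2⟩ := hs.1.2
        refine ⟨ρ', h1, fun a ha => ?_⟩
        have := h2 a ha
        simp only [Finset.mem_sdiff] at this ⊢
        exact ⟨this.1.1, this.2⟩
      obtain ⟨e1, he1, hb1⟩ := simplex_acl (M := M) hO _ ⟨v, hv⟩ (m + 1) (res P c - d)
        (AddSubgroup.sub_mem _ hc1 hd1) (by rw [map_sub, hdz, sub_self])
      obtain ⟨e2, he2, hb2⟩ := ih hl (fun ρ' h => hρ ρ' (List.mem_cons_of_mem _ h)) (m + 1) U hU
        (c - res P c + d) (AddSubgroup.add_mem _ hc2 hd2) (by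
          rw [map_add, map_sub, h0, hdz]; abel)
      refine ⟨e1 + e2, AddSubgroup.add_mem _ ?_ ?_, ?_⟩
      · exact Sup_mono (fun s hs => ⟨⟨hs.1.1, ρ, List.mem_cons_self, hs.1.2⟩, hs.2⟩) he1
      · refine Sup_mono (fun s hs => ⟨⟨hs.1.1, ?_⟩, hs.2⟩) he2
        obtain ⟨ρ', h1, h2⟩ := hs.1.2
        exact ⟨ρ', List.mem_cons_of_mem _ h1, h2⟩
      · rw [map_add, hb1, hb2]; abel

/-- a union of simplices which is shelled by faces of codimension at most two -/
theorem shell {O : List V → Prop} (hO : Ordy O) {ι : Type*} (D : ι → Finset V) (N : ι → ℕ)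
    (hN : Function.Injective N) (n : ℕ) (hcard : ∀ i, (D i).card = n)
    (hred : ∀ i (σ : Set V), σ ⊆ D i → (∃ j, N j < N i ∧ σ ⊆ D j) →
      ∃ ρ : Finset V, ρ.card ≤ 2 ∧ σ ⊆ ((D i \ ρ : Finset V) : Set V) ∧
        ∃ j, N j < N i ∧ D i \ ρ ⊆ D j)
    [Nonempty ι] (m : ℕ) (hm : 2 * m + 1 ≤ n) :
    AcL M (fun s => O s ∧ ∃ i, ∀ a ∈ s, a ∈ D i) m := by
  classical
  have hne : ∀ i, ((D i : Finset V) : Set V).Nonempty := by
    intro i
    rw [Finset.coe_nonempty, ← Finset.card_pos, hcard]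
    omega
  have key : ∀ k : ℕ, ∀ c ∈ Sup M (fun l => (O l ∧ ∃ i, N i < k ∧ ∀ a ∈ l, a ∈ D i) ∧
      l.length = m), bd c = 0 →
      ∃ b ∈ Sup M (fun l => (O l ∧ ∃ i, ∀ a ∈ l, a ∈ D i) ∧ l.length = m + 1), bd b = c := by
    intro k
    induction k with
    | zero =>
      intro c hc _
      have : c = 0 := by
        ext l
        by_contra h
        obtain ⟨⟨_, i, hi, _⟩, _⟩ := hc l h
        omega
      exact ⟨0, AddSubgroup.zero_mem _, by rw [this, map_zero]⟩
    | succ k ih =>
      intro c hc h0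
      by_cases hex : ∃ i, N i = k
      swap
      · refine ih c (Sup_mono (fun l hl => ?_) hc) h0
        obtain ⟨⟨h1, i, hi, h⟩, h2⟩ := hl
        refine ⟨⟨h1, i, ?_, h⟩, h2⟩
        have : N i ≠ k := fun h => hex ⟨i, h⟩
        omega
      obtain ⟨i, hi⟩ := hex
      obtain ⟨v, hv, hvO⟩ := hO.cone _ (hne i)
      rcases m with _ | m
      · refine cone_chain (L := fun l => O l ∧ ∃ i, ∀ a ∈ l, a ∈ D i) v c
          (Sup_mono (fun l hl => ?_) hc) (fun l hl hlen _ => ?_) h0
        · obtain ⟨⟨h1, j, hj, h⟩, h2⟩ := hl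
          exact ⟨⟨h1, j, h⟩, h2⟩
        · have : l = [] := List.length_eq_zero_iff.mp hlen
          subst this
          refine ⟨hvO [] hl.1 (by simp), i, ?_⟩
          intro a ha
          have : a = v := by simpa using ha
          exact this ▸ hv
      set P : List V → Prop := fun s => O s ∧ ∀ a ∈ s, a ∈ D i with hP
      set P' : List V → Prop := fun s => O s ∧ ∃ j, N j < k ∧ ∀ a ∈ s, a ∈ D j with hP'
      have hPs : ∀ s s' : List V, P s → s'.Sublist s → P s' := fun s s' h h' =>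
        ⟨hO.sub s s' h' h.1, fun a ha => h.2 a (h'.subset ha)⟩
      have hPs' : ∀ s s' : List V, P' s → s'.Sublist s → P' s' := by
        rintro s s' ⟨h, ρ', h1, h2⟩ h'
        exact ⟨hO.sub s s' h' h, ρ', h1, fun a ha => h2 a (h'.subset ha)⟩
      have hc1 : res P c ∈ Sup M (fun s => P s ∧ s.length = m + 1) :=
        Sup_mono (fun s hs => ⟨hs.1, hs.2.2⟩) (res_mem (P := P) hc)
      have hc2 : c - res P c ∈ Sup M (fun s => P' s ∧ s.length = m + 1) := by
        refine Sup_mono (fun s hs => ⟨?_, hs.2.2⟩) (sub_res_mem (P := P) hc)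
        obtain ⟨h3, j, h1, h2⟩ := hs.2.1
        refine ⟨h3, j, ?_, h2⟩
        by_contra h
        have : N j = k := by omega
        have : j = i := hN (this.trans hi.symm)
        subst this
        exact hs.1 ⟨h3, h2⟩
      have hz : bd (res P c) = - bd (c - res P c) := by
        rw [map_sub, h0]; simp
      have hz1 : bd (res P c) ∈ Sup M (fun s => P s ∧ s.length = m) := bd_mem' hPs hc1
      have hz2 : bd (res P c) ∈ Sup M (fun s => P' s ∧ s.length = m) := by
        rw [hz]
        exact AddSubgroup.neg_mem _ (bd_mem' hPs' hc2)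
      set R : Finset (Finset V) := (D i).powerset.filter
        (fun ρ => ρ.card ≤ 2 ∧ ∃ j, N j < k ∧ D i \ ρ ⊆ D j) with hR
      have hz3 : bd (res P c) ∈ Sup M (fun s => (O s ∧ ∃ ρ ∈ R.toList,
          ∀ a ∈ s, a ∈ D i \ ρ) ∧ s.length = m) := by
        refine Sup_mono (fun s hs => ⟨⟨hs.1.1.1, ?_⟩, hs.1.2⟩) (Sup_and hz1 hz2)
        obtain ⟨_, j, h1, h2⟩ := hs.2.1
        obtain ⟨ρ, hρ, hs1, j', hj', hD⟩ := hred i {a | a ∈ s} (fun a ha => hs.1.1.2 a ha)
          ⟨j, by omega, fun a ha => h2 a ha⟩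
        refine ⟨ρ ∩ D i, ?_, ?_⟩
        · rw [Finset.mem_toList, hR, Finset.mem_filter, Finset.mem_powerset]
          refine ⟨Finset.inter_subset_right, ?_, j', by omega, ?_⟩
          · exact (Finset.card_le_card Finset.inter_subset_left).trans hρ
          · intro a ha
            apply hD
            simp only [Finset.mem_sdiff, Finset.mem_inter] at ha ⊢
            exact ⟨ha.1, fun h => ha.2 ⟨h, ha.1⟩⟩
        · intro a ha
          have := hs1 ha
          simp only [Finset.coe_sdiff, Set.mem_sdiff, Finset.mem_coe] at this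
          simp only [Finset.mem_sdiff, Finset.mem_inter]
          exact ⟨this.1, fun h => this.2 h.1⟩
      by_cases hRe : R = ∅
      · have hbz : bd (res P c) = 0 := by
          ext s
          by_contra h
          obtain ⟨⟨_, ρ, h1, _⟩, _⟩ := hz3 s h
          rw [hRe] at h1
          simp at h1
        obtain ⟨e1, he1, hb1⟩ := simplex_acl (M := M) hO _ ⟨v, hv⟩ (m + 1) (res P c) hc1 hbz
        obtain ⟨e2, he2, hb2⟩ := ih (c - res P c) hc2 (by rw [map_sub, h0, hbz, sub_zero])
        refine ⟨e1 + e2, AddSubgroup.add_mem _ ?_ he2, by rw [map_add, hb1, hb2]; abel⟩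
        exact Sup_mono (fun s hs => ⟨⟨hs.1.1, i, hs.1.2⟩, hs.2⟩) he1
      · obtain ⟨d, hd, hdz⟩ := union_acl (M := M) hO R.toList
          (fun h => hRe (Finset.toList_eq_nil.mp h))
          (fun ρ h => (Finset.mem_filter.mp (Finset.mem_toList.mp h)).2.1) m (D i)
          (by rw [hcard]; omega) (bd (res P c)) hz3 (bd_bd _)
        have hd1 : d ∈ Sup M (fun s => P s ∧ s.length = m + 1) := by
          refine Sup_mono (fun s hs => ⟨⟨hs.1.1, fun a ha => ?_⟩, hs.2⟩) hd
          obtain ⟨ρ', h1, h2⟩ := hs.1.2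
          have := h2 a ha
          rw [Finset.mem_sdiff] at this
          exact this.1
        have hd2 : d ∈ Sup M (fun s => P' s ∧ s.length = m + 1) := by
          refine Sup_mono (fun s hs => ⟨⟨hs.1.1, ?_⟩, hs.2⟩) hd
          obtain ⟨ρ', h1, h2⟩ := hs.1.2
          obtain ⟨_, j, hj, hD⟩ := (Finset.mem_filter.mp (Finset.mem_toList.mp h1)).2
          exact ⟨j, hj, fun a ha => hD (h2 a ha)⟩
        obtain ⟨e1, he1, hb1⟩ := simplex_acl (M := M) hO _ ⟨v, hv⟩ (m + 1) (res P c - d)
          (AddSubgroup.sub_mem _ hc1 hd1) (by rw [map_sub, hdz, sub_self])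
        obtain ⟨e2, he2, hb2⟩ := ih (c - res P c + d) (AddSubgroup.add_mem _ hc2 hd2)
          (by rw [map_add, map_sub, h0, hdz]; abel)
        refine ⟨e1 + e2, AddSubgroup.add_mem _ ?_ he2, by rw [map_add, hb1, hb2]; abel⟩
        exact Sup_mono (fun s hs => ⟨⟨hs.1.1, i, hs.1.2⟩, hs.2⟩) he1
  intro c hc h0
  have hb : ∃ k : ℕ, ∀ l ∈ c.support, ∃ i, N i < k ∧ ∀ a ∈ l, a ∈ D i := by
    have h1 : ∀ l ∈ c.support, ∃ i, ∀ a ∈ l, a ∈ D i := by
      intro l hl
      obtain ⟨⟨_, i, hi⟩, _⟩ := hc l (Finsupp.mem_support_iff.mp hl)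
      exact ⟨i, fun a ha => hi a ha⟩
    choose! f hf using h1
    refine ⟨c.support.sup (fun l => N (f l)) + 1, fun l hl => ⟨f l, ?_, hf l hl⟩⟩
    exact Nat.lt_succ_of_le (Finset.le_sup (f := fun l => N (f l)) hl)
  obtain ⟨k, hk⟩ := hb
  refine key k c (fun l hl => ⟨⟨(hc l hl).1.1, hk l (Finsupp.mem_support_iff.mpr hl)⟩,
    (hc l hl).2⟩) h0

end Pool.Agent.TOR96
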