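import Pool.Agent.Helper96_TOR.Bases
import Pool.Agent.Helper96_TOR.UnionO

set_option autoImplicit false

namespace Pool.Agent.TOR96

variable {α : Type*} [DecidableEq α] (e : α × Bool → ℕ)

/-- total key -/
def key2 (g : FreeGroup α) : (ℕ ×ₗ (List ℕ ×ₗ List ℕ)) ×ₗ List ℕ := toLex (keyc e g, W e g)

/-- rank in the total order -/
noncomputable def nu (g : FreeGroup α) : ℕ := Set.ncard {h | key2 e h < key2 e g}

theorem key2_inj (he : Function.Injective e) : Function.Injective (key2 e) := by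
  intro g h hgh
  have h1 : W e g = W e h := congrArg (fun x => (ofLex x).2) hgh
  exact FreeGroup.toWord_injective (List.map_injective_iff.mpr he h1)

theorem key2_lt_of_keyc {g h : FreeGroup α} (hl : keyc e g < keyc e h) : key2 e g < key2 e h := by
  unfold key2
  rw [Prod.Lex.toLex_lt_toLex]
  exact Or.inl hl

theorem keyc_le_of_key2 {g h : FreeGroup α} (hl : key2 e g < key2 e h) : keyc e g ≤ keyc e h := by
  unfold key2 at hl
  rw [Prod.Lex.toLex_lt_toLex] at hl
  rcases hl with h1 | h1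
  · exact le_of_lt h1
  · exact le_of_eq h1.1

theorem norm_le_of_key2 {g h : FreeGroup α} (hl : key2 e g < key2 e h) : g.norm ≤ h.norm := by
  have h1 := keyc_le_of_key2 e hl
  by_contra h2
  push Not at h2
  exact absurd (keyc_lt_of_norm e h2) (not_lt.mpr h1)

theorem finite_norm [Finite α] (N : ℕ) : {g : FreeGroup α | g.norm ≤ N}.Finite := by
  have h1 := List.finite_length_le (α × Bool) N
  exact Set.Finite.preimage (f := FreeGroup.toWord) FreeGroup.toWord_injective.injOn h1

theorem finite_below [Finite α] (g : FreeGroup α) : {h | key2 e h < key2 e g}.Finite :=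
  (finite_norm g.norm).subset fun _ hh => norm_le_of_key2 e hh

theorem nu_lt_iff [Finite α] {g h : FreeGroup α} : nu e g < nu e h ↔ key2 e g < key2 e h := by
  have key : ∀ g h : FreeGroup α, key2 e g < key2 e h → nu e g < nu e h := by
    intro g h hl
    unfold nu
    apply Set.ncard_lt_ncard _ (finite_below e h)
    rw [Set.ssubset_iff_subset_ne]
    refine ⟨fun x hx => lt_trans hx hl, fun heq => ?_⟩
    have : g ∈ {x | key2 e x < key2 e h} := hl
    rw [← heq] at this
    have h5 : key2 e g < key2 e g := this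
    exact lt_irrefl _ h5
  refine ⟨fun hl => ?_, key g h⟩
  by_contra hn
  rcases lt_or_eq_of_le (not_lt.mp hn) with h1 | h1
  · exact absurd (key h g h1) (by omega)
  · have : nu e g = nu e h := by unfold nu; rw [h1]
    omega

theorem nu_inj [Finite α] (he : Function.Injective e) : Function.Injective (nu e) := by
  intro g h hgh
  rcases lt_trichotomy (key2 e g) (key2 e h) with h1 | h1 | h1
  · exact absurd ((nu_lt_iff e).mpr h1) (by omega)
  · exact key2_inj e he h1
  · exact absurd ((nu_lt_iff e).mpr h1) (by omega)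

variable {e}

omit [DecidableEq α] in
theorem yy_list (l : List (FreeGroup α)) (q : ℕ → FreeGroup α)
    (hq : ∀ i, (hi : i < l.length) → q i = l[i]) : ∀ j ≤ l.length, yy q j = (l.take j).prod := by
  intro j
  induction j with
  | zero => simp [yy]
  | succ j ih =>
    intro hj
    rw [yy, ih (by omega), hq j (by omega), List.take_succ_eq_append_getElem (by omega),
      List.prod_append]
    simp

/-- nielsen theorem for lists -/
theorem nielsen_list {S : Set (FreeGroup α)} (hS : Irr e S) (he : Function.Injective e)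
    (l : List (FreeGroup α)) (hl : 2 ≤ l.length) (hlS : ∀ x ∈ l, x ∈ S)
    (hch : l.IsChain (fun x y => x * y ≠ 1)) (x : FreeGroup α) (hx : x ∈ l) :
    keyc e x < keyc e l.prod := by
  rw [List.isChain_iff_getElem] at hch
  set q : ℕ → FreeGroup α := fun i => if h : i < l.length then l[i] else 1 with hq
  have hqi : ∀ i, (hi : i < l.length) → q i = l[i] := fun i hi => by simp [hq, hi]
  obtain ⟨i, hi, rfl⟩ := List.getElem_of_mem hx
  have h1 := nielsen hS he q l.length hl (fun j hj => by
    rw [hqi j hj]; exact hlS _ (List.getElem_mem hj)) (fun j hj => by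
    rw [hqi j (by omega), hqi (j + 1) hj]; exact hch j hj) i hi
  rw [hqi i hi, yy_list l q hqi l.length le_rfl, List.take_length] at h1
  exact h1

/-- an irreducible part of a basis is minimal -/
theorem minimal [Finite α] (he : Function.Injective e) {b : Set (FreeGroup α)} (hb : IsB b)
    {Q Q' : Set (FreeGroup α)} (hQ : Q ⊆ b) (hcl : Subgroup.closure Q' = Subgroup.closure Q)
    {t : FreeGroup α} (ht : t ∈ Q) (ht' : t ∉ Q')
    (hw : ∀ w ∈ Q', w ∉ Q → key2 e w < key2 e t) (hS : Irr e {x | x ∈ Q ∨ x⁻¹ ∈ Q})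
    (hinv : ∀ x ∈ Q, ¬ key2 e x⁻¹ < key2 e x) : False := by
  set S : Set (FreeGroup α) := {x | x ∈ Q ∨ x⁻¹ ∈ Q} with hSd
  have hQS : Q ⊆ S := fun x hx => Or.inl hx
  have hclS : Subgroup.closure Q ≤ Subgroup.closure S := Subgroup.closure_mono hQS
  have key : Q' ⊆ (Subgroup.closure (Q \ {t}) : Set (FreeGroup α)) := by
    intro w hwQ
    by_cases hwq : w ∈ Q
    · exact Subgroup.subset_closure ⟨hwq, fun h => ht' (h ▸ hwQ)⟩
    · have hlt := hw w hwQ hwq
      have hwc : w ∈ Subgroup.closure S := by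
        apply hclS
        rw [← hcl]
        exact Subgroup.subset_closure hwQ
      obtain ⟨l, h1, h2, h3⟩ := exists_word S hS.inv w hwc
      rw [SetLike.mem_coe, ← h2]
      apply Subgroup.list_prod_mem
      intro x hx
      have hxS := h1 x hx
      have hxt : x ≠ t ∧ x⁻¹ ≠ t := by
        rcases Nat.lt_or_ge l.length 2 with hl | hl
        · have hl1 : l.length = 1 := by
            have := List.length_pos_of_mem hx
            omega
          obtain ⟨y, rfl⟩ := List.length_eq_one_iff.mp hl1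
          have hxy : x = y := by simpa using hx
          subst hxy
          have hxw : x = w := by simpa using h2
          subst hxw
          refine ⟨?_, ?_⟩
          · rintro rfl
            exact lt_irrefl _ hlt
          · intro h
            apply hinv t ht
            rw [← h, inv_inv, h]
            exact hlt
        · have h4 := nielsen_list hS he l hl h1 h3 x hx
          rw [h2] at h4
          refine ⟨?_, ?_⟩
          · rintro rfl
            exact absurd (hlt.trans (key2_lt_of_keyc e h4)) (lt_irrefl _)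
          · rintro h
            have h5 : keyc e t < keyc e w := by
              rw [← h, keyc_inv]; exact h4
            exact absurd (hlt.trans (key2_lt_of_keyc e h5)) (lt_irrefl _)
      rcases hxS with h | h
      · exact Subgroup.subset_closure ⟨h, hxt.1⟩
      · have : x⁻¹ ∈ Subgroup.closure (Q \ {t}) := Subgroup.subset_closure ⟨h, hxt.2⟩
        simpa using Subgroup.inv_mem _ this
  have h1 : Subgroup.closure Q ≤ Subgroup.closure (Q \ {t}) := by
    rw [← hcl, Subgroup.closure_le]
    exact key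
  have h2 : t ∈ Subgroup.closure (Q \ {t}) := h1 (Subgroup.subset_closure ht)
  exact hb.not_mem (hQ ht) (Subgroup.closure_mono (Set.sdiff_subset_sdiff_left hQ) h2)

/-- a reducible part of a basis has an elementary reduction -/
theorem reduction {b : Set (FreeGroup α)} (hb : IsB b)
    {Q : Set (FreeGroup α)} (hQ : Q ⊆ b)
    (hred : ¬ (Irr e {x | x ∈ Q ∨ x⁻¹ ∈ Q} ∧ ∀ x ∈ Q, ¬ key2 e x⁻¹ < key2 e x)) :
    ∃ η ∈ Q, ∃ ξ ∈ Q, ∃ φ : FreeGroup α ≃* FreeGroup α, key2 e (φ η) < key2 e η ∧
      (∀ x ∈ b, x ≠ η → φ x = x) ∧ φ η ∈ Subgroup.closure {η, ξ} ∧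
      η ∈ Subgroup.closure {x | x = φ η ∨ (x = ξ ∧ ξ ≠ η)} := by
  have hne : ∀ x ∈ b, x ≠ 1 := by
    rintro x hx rfl
    exact hb.not_mem hx (Subgroup.one_mem _)
  by_cases hinv : ∀ x ∈ Q, ¬ key2 e x⁻¹ < key2 e x
  swap
  · push Not at hinv
    obtain ⟨η, hη, hlt⟩ := hinv
    obtain ⟨φ, h1, h2⟩ := hb.auto_inv (hQ hη)
    refine ⟨η, hη, η, hη, φ, by rw [h1]; exact hlt, ?_, ?_, ?_⟩
    · intro x hx hxη
      exact h2 x (Subgroup.subset_closure ⟨hx, hxη⟩)
    · rw [h1]
      exact Subgroup.inv_mem _ (Subgroup.subset_closure (by simp))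
    · have h3 : (φ η)⁻¹ ∈ Subgroup.closure {x | x = φ η ∨ (x = η ∧ η ≠ η)} :=
        Subgroup.inv_mem _ (Subgroup.subset_closure (by simp))
      rw [h1, inv_inv] at h3
      rw [h1]
      exact h3
  have hirr : ¬ Irr e {x | x ∈ Q ∨ x⁻¹ ∈ Q} := fun h => hred ⟨h, hinv⟩
  have hex : ∃ x, (x ∈ Q ∨ x⁻¹ ∈ Q) ∧ ∃ y, (y ∈ Q ∨ y⁻¹ ∈ Q) ∧ x ≠ y ∧ x * y ≠ 1 ∧
      keyc e (x * y) < keyc e y := by
    by_contra hcon
    push Not at hcon
    apply hirr
    refine ⟨?_, ?_, ?_⟩
    · rintro (h | h)
      · exact hne 1 (hQ h) rfl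
      · exact hne 1⁻¹ (hQ h) inv_one
    · rintro x (h | h)
      · exact Or.inr (by rwa [inv_inv])
      · exact Or.inl h
    · intro x hx y hy hxy h1
      exact not_lt.mpr (hcon x hx y hy hxy h1)
  obtain ⟨x, hx, y, hy, hxy, hxy1, hlt⟩ := hex
  obtain ⟨ξ, hξ, hxξ⟩ : ∃ ξ ∈ Q, x = ξ ∨ x = ξ⁻¹ := by
    rcases hx with h | h
    · exact ⟨x, h, Or.inl rfl⟩
    · exact ⟨x⁻¹, h, Or.inr (by rw [inv_inv])⟩
  have hxcl : x ∈ Subgroup.closure {ξ} := by
    rcases hxξ with h | h
    · rw [h]; exact Subgroup.subset_closure rfl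
    · rw [h]; exact Subgroup.inv_mem _ (Subgroup.subset_closure rfl)
  rcases hy with hy | hy
  · -- y = η
    have hξη : ξ ≠ y := by
      rintro rfl
      rcases hxξ with h | h
      · exact hxy h
      · exact hxy1 (by rw [h, inv_mul_cancel])
    have hmb : ξ ∈ b \ {y} := ⟨hQ hξ, hξη⟩
    have hxc : x ∈ Subgroup.closure (b \ {y}) :=
      Subgroup.closure_mono (Set.singleton_subset_iff.mpr hmb) hxcl
    obtain ⟨φ, h1, h2⟩ := hb.auto (hQ hy) x 1 hxc (Subgroup.one_mem _)
    rw [mul_one] at h1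
    refine ⟨y, hy, ξ, hξ, φ, by rw [h1]; exact key2_lt_of_keyc e hlt, ?_, ?_, ?_⟩
    · intro z hz hzη
      exact h2 z (Subgroup.subset_closure ⟨hz, hzη⟩)
    · rw [h1]
      exact Subgroup.mul_mem _ (Subgroup.closure_mono (by simp) hxcl)
        (Subgroup.subset_closure (by simp))
    · have h3 : x⁻¹ * φ y ∈ Subgroup.closure {x | x = φ y ∨ (x = ξ ∧ ξ ≠ y)} :=
        Subgroup.mul_mem _ (Subgroup.inv_mem _ (Subgroup.closure_mono (by simp [hξη]) hxcl))
          (Subgroup.subset_closure (by simp))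
      rw [h1, inv_mul_cancel_left] at h3
      rwa [h1]
  · -- y⁻¹ = η
    set η := y⁻¹ with hηd
    have hyη : y = η⁻¹ := by rw [hηd, inv_inv]
    have hξη : ξ ≠ η := by
      rintro rfl
      rcases hxξ with h | h
      · exact hxy1 (by rw [h, hηd, inv_mul_cancel])
      · exact hxy (by rw [h, hyη])
    have hmb : ξ ∈ b \ {η} := ⟨hQ hξ, hξη⟩
    have hxc : x⁻¹ ∈ Subgroup.closure (b \ {η}) :=
      Subgroup.inv_mem _ (Subgroup.closure_mono (Set.singleton_subset_iff.mpr hmb) hxcl)
    obtain ⟨φ, h1, h2⟩ := hb.auto (hQ hy) 1 x⁻¹ (Subgroup.one_mem _) hxc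
    rw [one_mul] at h1
    refine ⟨η, hy, ξ, hξ, φ, ?_, ?_, ?_, ?_⟩
    · rw [h1]
      apply key2_lt_of_keyc e
      have h3 : η * x⁻¹ = (x * y)⁻¹ := by rw [mul_inv_rev]
      rw [h3, keyc_inv, hηd, keyc_inv]
      exact hlt
    · intro z hz hzη
      exact h2 z (Subgroup.subset_closure ⟨hz, hzη⟩)
    · rw [h1]
      exact Subgroup.mul_mem _ (Subgroup.subset_closure (by simp))
        (Subgroup.inv_mem _ (Subgroup.closure_mono (by simp) hxcl))
    · have h3 : φ η * x ∈ Subgroup.closure {x | x = φ η ∨ (x = ξ ∧ ξ ≠ η)} :=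
        Subgroup.mul_mem _ (Subgroup.subset_closure (by simp))
          (Subgroup.closure_mono (by simp [hξη]) hxcl)
      rw [h1, inv_mul_cancel_right] at h3
      rwa [h1]

end Pool.Agent.TOR96
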