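import Pool.Agent.Helper96_TOR.WCx

set_option autoImplicit false

namespace Pool.Agent.TOR96

open Pool.Agent.TOR.H58 Finsupp

/-! ### transport of exactness -/

section transport

variable {V V' M : Type*} [AddCommGroup M]

/-- the map of chains induced by a map of vertices -/
noncomputable def mpT (T : V → V') : (List V →₀ M) →+ (List V' →₀ M) :=
  Finsupp.mapDomain.addMonoidHom (List.map T)

theorem mpT_single (T : V → V') (l : List V) (m : M) :
    mpT T (single l m) = single (l.map T) m := by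
  simp [mpT, Finsupp.mapDomain.addMonoidHom, Finsupp.mapDomain_single]

theorem mpT_cns (T : V → V') (v : V) (c : List V →₀ M) :
    mpT T (cns v c) = cns (T v) (mpT T c) := by
  induction c using Finsupp.induction_linear with
  | zero => simp
  | add f g hf hg => rw [map_add, map_add, hf, hg, map_add, map_add]
  | single l m => rw [cns_single, mpT_single, mpT_single, cns_single, List.map_cons]

theorem mpT_bd (T : V → V') (c : List V →₀ M) : mpT T (bd c) = bd (mpT T c) := by
  induction c using Finsupp.induction_linear with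
  | zero => simp
  | add f g hf hg => rw [map_add, map_add, hf, hg, map_add, map_add]
  | single l m =>
    rw [mpT_single, bd_single, bd_single]
    induction l with
    | nil => simp [bd1_nil]
    | cons v l ih =>
      rw [List.map_cons, bd1_cons, bd1_cons, map_sub, mpT_cns, ih, mpT_single]

theorem mpT_inj {T : V → V'} (hT : Function.Injective T) :
    Function.Injective (mpT (M := M) T) :=
  Finsupp.mapDomain_injective (List.map_injective_iff.mpr hT)

theorem mpT_mem {T : V → V'} {Q : List V → Prop} {Q' : List V' → Prop}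
    (h : ∀ l, Q l → Q' (l.map T)) {c : List V →₀ M} (hc : c ∈ Sup M Q) : mpT T c ∈ Sup M Q' := by
  rw [← Finsupp.sum_single c, Finsupp.sum, map_sum]
  refine AddSubgroup.sum_mem _ fun l hl => ?_
  rw [mpT_single]
  exact single_mem_Sup (h l (hc l (Finsupp.mem_support_iff.mp hl))) _

theorem mpT_lift {T : V → V'} (hT : Function.Injective T) {Q : List V → Prop}
    {Q' : List V' → Prop} (h : ∀ l', Q' l' → ∃ l, Q l ∧ l' = l.map T) {c : List V' →₀ M}
    (hc : c ∈ Sup M Q') : ∃ c0 ∈ Sup M Q, mpT T c0 = c := by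
  have hT' : Function.Injective (List.map T) := List.map_injective_iff.mpr hT
  refine ⟨Finsupp.comapDomain _ c hT'.injOn, ?_, ?_⟩
  · intro l hl
    rw [Finsupp.comapDomain_apply] at hl
    obtain ⟨l0, h1, h2⟩ := h _ (hc _ hl)
    rwa [hT' h2]
  · refine Finsupp.mapDomain_comapDomain _ hT' c ?_
    intro l hl
    obtain ⟨l0, h1, h2⟩ := h _ (hc l (Finsupp.mem_support_iff.mp hl))
    exact ⟨l0, h2.symm⟩

theorem AcL.transport {L : List V → Prop} {L' : List V' → Prop} {T : V → V'}
    (hT : Function.Injective T) (h1 : ∀ l, L l → L' (l.map T))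
    (h2 : ∀ l', L' l' → ∃ l, L l ∧ l' = l.map T) {m : ℕ} (h : AcL M L m) : AcL M L' m := by
  intro c hc h0
  obtain ⟨c0, hc0, rfl⟩ := mpT_lift hT (Q := fun l => L l ∧ l.length = m) (fun l' hl' => by
    obtain ⟨l, h3, rfl⟩ := h2 l' hl'.1
    exact ⟨l, ⟨h3, by simpa using hl'.2⟩, rfl⟩) hc
  rw [← mpT_bd] at h0
  obtain ⟨b, hb, hbc⟩ := h c0 hc0 (mpT_inj hT (h0.trans (map_zero _).symm))
  refine ⟨mpT T b, mpT_mem (fun l hl => ⟨h1 l hl.1, by simpa using hl.2⟩) hb, ?_⟩
  rw [← mpT_bd, hbc]

theorem AcL.congr {L L' : List V → Prop} (h1 : ∀ l, L l ↔ L' l) {m : ℕ} (h : AcL M L m) :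
    AcL M L' m := by
  have : L = L' := funext fun l => propext (h1 l)
  rwa [← this]

end transport

/-! ### free families -/

variable {F : Type*} [Group F]

/-- a set is a free basis of the subgroup that it generates -/
def IsBS (Q : Set F) : Prop := Function.Injective (FreeGroup.lift (fun x : Q => (x : F)))

theorem isB_iff {b : Set F} : IsB b ↔ IsBS b ∧ Subgroup.closure b = ⊤ := by
  unfold IsB IsBS
  rw [Function.Bijective, ← MonoidHom.range_eq_top, FreeGroup.closure_eq_range]

theorem IsBS.subset {b Q : Set F} (hb : IsBS b) (h : Q ⊆ b) : IsBS Q := by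
  have : FreeGroup.lift (fun x : Q => (x : F)) =
      (FreeGroup.lift (fun x : b => (x : F))).comp (FreeGroup.map (Set.inclusion h)) := by
    ext x
    simp
  unfold IsBS
  rw [this, MonoidHom.coe_comp]
  exact hb.comp (FreeGroup.map_injective (Set.inclusion_injective h))

theorem IsBS.image {G : Type*} [Group G] {Q : Set G} (j : G →* F) (hj : Function.Injective j) :
    IsBS (j '' Q) ↔ IsBS Q := by
  have e : Function.Bijective (fun x : Q => (⟨j x, x, x.2, rfl⟩ : j '' Q)) := by
    constructor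
    · intro x y h
      exact Subtype.ext (hj (congrArg Subtype.val h))
    · rintro ⟨_, x, hx, rfl⟩
      exact ⟨⟨x, hx⟩, rfl⟩
  let ε : Q ≃ (j '' Q) := Equiv.ofBijective _ e
  have h1 : (FreeGroup.lift (fun x : (j '' Q : Set F) => (x : F))).comp
      (FreeGroup.freeGroupCongr ε).toMonoidHom = j.comp (FreeGroup.lift (fun x : Q => (x : G))) := by
    ext x
    simp [ε]
  constructor
  · intro h
    have h2 : Function.Injective (j.comp (FreeGroup.lift (fun x : Q => (x : G)))) := by
      rw [← h1, MonoidHom.coe_comp]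
      exact Function.Injective.comp h (FreeGroup.freeGroupCongr ε).injective
    rw [MonoidHom.coe_comp] at h2
    exact Function.Injective.of_comp h2
  · intro h
    have h2 : Function.Injective (j.comp (FreeGroup.lift (fun x : Q => (x : G)))) := by
      rw [MonoidHom.coe_comp]
      exact hj.comp h
    rw [← h1, MonoidHom.coe_comp] at h2
    have h3 := Function.Injective.of_comp_iff' (FreeGroup.lift (fun x : (j '' Q : Set F) => (x : F)))
      (FreeGroup.freeGroupCongr ε).bijective
    exact h3.mp h2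

/-- closures of complements, relative to a subset of a basis -/
theorem closure_split {b P X : Set F} (hP : P ⊆ b) (hX : X ⊆ P) :
    Subgroup.closure (b \ X) = Subgroup.closure (P \ X) ⊔ Subgroup.closure (b \ P) := by
  rw [← Subgroup.closure_union]
  congr 1
  ext x
  constructor
  · rintro ⟨h1, h2⟩
    by_cases h : x ∈ P
    · exact Or.inl ⟨h, h2⟩
    · exact Or.inr ⟨h1, h⟩
  · rintro (⟨h1, h2⟩ | ⟨h1, h2⟩)
    · exact ⟨hP h1, h2⟩
    · exact ⟨h1, fun h => h2 (hX h)⟩

/-- change of a part of a basis -/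
theorem IsB.replace {b P Q : Set F} (hb : IsB b) (hP : P ⊆ b) (hQ : IsBS Q)
    (hPQ : Subgroup.closure Q = Subgroup.closure (b \ P)) : IsB (P ∪ Q) := by
  classical
  rw [isB_iff]
  refine ⟨?_, ?_⟩
  swap
  · rw [Subgroup.closure_union, hPQ, ← hb.closure]
    have := closure_split hP (Set.empty_subset P)
    rw [Set.sdiff_empty, Set.sdiff_empty] at this
    exact this.symm
  -- a partial inverse
  let E : FreeGroup Q ≃* Subgroup.closure Q :=
    (MonoidHom.ofInjective hQ).trans (MulEquiv.subgroupCongr (FreeGroup.closure_eq_range Q).symm)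
  have hE : ∀ q : Q, E.symm ⟨q, Subgroup.subset_closure q.2⟩ = FreeGroup.of q := by
    intro q
    rw [MulEquiv.symm_apply_eq]
    refine Subtype.ext ?_
    change (q : F) = FreeGroup.lift (fun x : Q => (x : F)) (FreeGroup.of q)
    rw [FreeGroup.lift_apply_of]
  let ψ : Subgroup.closure Q →* FreeGroup (P ∪ Q : Set F) :=
    (FreeGroup.map (Set.inclusion Set.subset_union_right)).comp E.symm.toMonoidHom
  obtain ⟨φ, hφ⟩ := hb.hom_exists (fun x => if h : x ∈ P then
      (FreeGroup.of (⟨x, Or.inl h⟩ : (P ∪ Q : Set F))) else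
      if h : x ∈ Subgroup.closure Q then ψ ⟨x, h⟩ else 1)
  have h1 : ∀ g : Subgroup.closure Q, φ g = ψ g := by
    have h2 : Subgroup.closure (b \ P) ≤
        (MonoidHom.eqLocus (φ.comp (Subgroup.closure Q).subtype) ψ).map
          (Subgroup.closure Q).subtype := by
      rw [Subgroup.closure_le]
      intro x hx
      have h3 : x ∈ Subgroup.closure Q := by
        rw [hPQ]
        exact Subgroup.subset_closure hx
      refine ⟨⟨x, h3⟩, ?_, rfl⟩
      change φ x = ψ ⟨x, h3⟩
      rw [hφ x hx.1, dif_neg hx.2, dif_pos h3]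
    rintro ⟨g, hg⟩
    have h4 := hg
    rw [hPQ] at h4
    obtain ⟨g', h5, h6⟩ := h2 h4
    have h7 : g' = ⟨g, hg⟩ := Subtype.ext h6
    rw [h7] at h5
    exact h5
  have h2 : (φ.comp (FreeGroup.lift (fun x : (P ∪ Q : Set F) => (x : F)))) = MonoidHom.id _ := by
    ext ⟨x, hx⟩
    simp only [MonoidHom.comp_apply, FreeGroup.lift_apply_of, MonoidHom.id_apply]
    by_cases hxP : x ∈ P
    · rw [hφ x (hP hxP), dif_pos hxP]
    · have hxQ : x ∈ Q := hx.resolve_left hxP
      have h3 := h1 ⟨x, Subgroup.subset_closure hxQ⟩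
      change φ x = _ at h3
      rw [h3]
      change FreeGroup.map (Set.inclusion Set.subset_union_right) (E.symm _) = _
      rw [hE ⟨x, hxQ⟩, FreeGroup.map.of]
  intro x y hxy
  have h3 := DFunLike.congr_fun h2 x
  have h4 := DFunLike.congr_fun h2 y
  simp only [MonoidHom.comp_apply, MonoidHom.id_apply] at h3 h4
  rw [← h3, ← h4, hxy]

/-! ### relative complexes of split systems -/

/-- the simplices of the complex of split systems relative to P and C -/
def RW (P : Set F) (C : Subgroup F) (s : Set (F × Subgroup F)) : Prop :=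
  ∃ b : Set F, IsB b ∧ P ⊆ b ∧ Subgroup.closure (b \ P) = C ∧
    ∀ v ∈ s, v.1 ∈ b ∧ v.1 ∉ P ∧ v.2 = Subgroup.closure (b \ {v.1})

theorem RW.mono {P : Set F} {C : Subgroup F} {s t : Set (F × Subgroup F)} (h : s ⊆ t)
    (ht : RW P C t) : RW P C s := by
  obtain ⟨b, h1, h2, h3, h4⟩ := ht
  exact ⟨b, h1, h2, h3, fun v hv => h4 v (h hv)⟩

/-- links -/
theorem RW.link {P : Set F} {C : Subgroup F} {ρ : Set (F × Subgroup F)} (hfin : ρ.Finite)
    {b1 : Set F} (hb1 : IsB b1) (hP1 : P ⊆ b1) (hC1 : Subgroup.closure (b1 \ P) = C)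
    (hρ1 : ∀ v ∈ ρ, v.1 ∈ b1 ∧ v.1 ∉ P ∧ v.2 = Subgroup.closure (b1 \ {v.1}))
    (s : Set (F × Subgroup F)) :
    (RW P C (s ∪ ρ) ∧ Disjoint s ρ) ↔
      RW (P ∪ Prod.fst '' ρ) (Subgroup.closure (b1 \ (P ∪ Prod.fst '' ρ))) s := by
  have hsub1 : P ∪ Prod.fst '' ρ ⊆ b1 := by
    rintro x (hx | ⟨v, hv, rfl⟩)
    · exact hP1 hx
    · exact (hρ1 v hv).1
  constructor
  · rintro ⟨⟨b, hb, hP, hC, hv⟩, hd⟩
    have hsub : P ∪ Prod.fst '' ρ ⊆ b := by
      rintro x (hx | ⟨v, hv', rfl⟩)
      · exact hP hx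
      · exact (hv v (Or.inr hv')).1
    refine ⟨b, hb, hsub, ?_, ?_⟩
    · have key : ∀ b : Set F, IsB b → Subgroup.closure (b \ P) = C →
          (∀ v ∈ ρ, v.2 = Subgroup.closure (b \ {v.1})) → ∀ g,
          (g ∈ Subgroup.closure (b \ (P ∪ Prod.fst '' ρ)) ↔ g ∈ C ∧ ∀ v ∈ ρ, g ∈ v.2) := by
        intro b hb h1 h2 g
        have h3 : b \ (P ∪ Prod.fst '' ρ) = (b \ P) ∩ (b \ Prod.fst '' ρ) := by
          ext x
          simp only [Set.mem_sdiff, Set.mem_union, Set.mem_inter_iff]
          tauto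
        rw [h3, ← hb.inter Set.sdiff_subset Set.sdiff_subset, Subgroup.mem_inf, h1,
          closure_compl hb _ (hfin.image _)]
        constructor
        · rintro ⟨h4, h5⟩
          exact ⟨h4, fun v hv => by rw [h2 v hv]; exact h5 _ ⟨v, hv, rfl⟩⟩
        · rintro ⟨h4, h5⟩
          refine ⟨h4, ?_⟩
          rintro _ ⟨v, hv, rfl⟩
          rw [← h2 v hv]
          exact h5 v hv
      ext g
      rw [key b hb hC (fun v hv' => (hv v (Or.inr hv')).2.2) g,
        key b1 hb1 hC1 (fun v hv' => (hρ1 v hv').2.2) g]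
    · intro v hvs
      obtain ⟨h1, h2, h3⟩ := hv v (Or.inl hvs)
      refine ⟨h1, ?_, h3⟩
      rintro (h | ⟨w, hw, hwv⟩)
      · exact h2 h
      · have h4 := (hv w (Or.inr hw)).2.2
        have : w = v := by
          apply Prod.ext hwv
          rw [h4, h3, hwv]
        exact Set.disjoint_left.mp hd hvs (this ▸ hw)
  · rintro ⟨b, hb, hsub, hC, hv⟩
    have hP : P ⊆ b := fun x hx => hsub (Or.inl hx)
    have key : ∀ X ⊆ P ∪ Prod.fst '' ρ, Subgroup.closure (b \ X) = Subgroup.closure (b1 \ X) := by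
      intro X hX
      rw [closure_split hsub hX, closure_split hsub1 hX, hC]
    refine ⟨⟨b, hb, hP, ?_, ?_⟩, ?_⟩
    · rw [key P Set.subset_union_left, hC1]
    · rintro v (hvs | hvρ)
      · obtain ⟨h1, h2, h3⟩ := hv v hvs
        exact ⟨h1, fun h => h2 (Or.inl h), h3⟩
      · obtain ⟨h1, h2, h3⟩ := hρ1 v hvρ
        refine ⟨hsub (Or.inr ⟨v, hvρ, rfl⟩), h2, ?_⟩
        rw [h3, key]
        rintro _ rfl
        exact Or.inr ⟨v, hvρ, rfl⟩
    · rw [Set.disjoint_left]
      intro v hvs hvρ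
      exact (hv v hvs).2.1 (Or.inr ⟨v, hvρ, rfl⟩)

end Pool.Agent.TOR96
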