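import Pool.Agent.Helper36_TOR.Stmts
import Pool.Agent.Helper96_TOR.Trv

/-! Transitivity on primitive classes in the form used by the action side. -/

set_option autoImplicit false

namespace Pool.Agent.TOR96

theorem trvS : Pool.Agent.TOR.SA.TRV := by
  intro n hn v hv
  obtain ⟨φ, h1, h2⟩ := trv hn v hv
  exact ⟨⟨φ, h1⟩, h2⟩

end Pool.Agent.TOR96
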