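import Pool.Agent.Helper96_TOR.Order

set_option autoImplicit false

namespace Pool.Agent.TOR96

open Pool.Agent.TOR.H58 Finsupp

variable {α : Type*} [DecidableEq α] {e : α × Bool → ℕ}

noncomputable instance decSub : DecidableEq (Subgroup (FreeGroup α)) := Classical.decEq _

/-- the simplex of a basis: letters with their complements -/
noncomputable def DD (b : Finset (FreeGroup α)) : Finset (FreeGroup α × Subgroup (FreeGroup α)) :=
  b.image fun x => (x, Subgroup.closure ((b : Set (FreeGroup α)) \ {x}))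

/-- binary weight of a basis -/
noncomputable def NN (e : α × Bool → ℕ) (b : Finset (FreeGroup α)) : ℕ :=
  ∑ k ∈ b.image (nu e), 2 ^ k

theorem mem_DD {b : Finset (FreeGroup α)} {v : FreeGroup α × Subgroup (FreeGroup α)} :
    v ∈ DD b ↔ v.1 ∈ b ∧ v.2 = Subgroup.closure ((b : Set (FreeGroup α)) \ {v.1}) := by
  unfold DD
  rw [Finset.mem_image]
  constructor
  · rintro ⟨x, hx, rfl⟩
    exact ⟨hx, rfl⟩
  · rintro ⟨h1, h2⟩
    exact ⟨v.1, h1, by rw [← h2]⟩

theorem card_DD (b : Finset (FreeGroup α)) : (DD b).card = b.card := by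
  unfold DD
  apply Finset.card_image_of_injective
  intro x y h
  exact congrArg Prod.fst h

/-- bases with n elements -/
def Bas (α : Type*) (n : ℕ) : Type _ :=
  {b : Finset (FreeGroup α) // IsB (b : Set (FreeGroup α)) ∧ b.card = n}

theorem NN_inj [Finite α] (he : Function.Injective e) (n : ℕ) :
    Function.Injective (fun b : Bas α n => NN e b.1) := by
  intro b b' h
  have h1 : b.1.image (nu e) = b'.1.image (nu e) := Finset.geomSum_injective (n := 2) le_rfl h
  exact Subtype.ext (Finset.image_injective (nu_inj e he) h1)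

omit [DecidableEq α] in
theorem closure_compl {G : Type*} [Group G] {b : Set G} (hb : IsB b) (P : Set G)
    (hP : P.Finite) (g : G) :
    g ∈ Subgroup.closure (b \ P) ↔ ∀ x ∈ P, g ∈ Subgroup.closure (b \ {x}) := by
  constructor
  · intro h x hx
    exact Subgroup.closure_mono (Set.sdiff_subset_sdiff_right (Set.singleton_subset_iff.mpr hx)) h
  · intro h
    have h1 := hb.iInf hP.toFinset.toList g (fun x hx => h x (by simpa using hx))
    have h2 : {x | x ∈ hP.toFinset.toList} = P := by ext x; simp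
    rwa [h2] at h1

/-- THE COMPLEX OF SPLIT SYSTEMS: exactness at lists of length m, 2m+1 ≤ n (for any condition O on
the order of the vertices of a list which is compatible with cones). -/
theorem W_acl {M : Type*} [AddCommGroup M] [Finite α] (he : Function.Injective e) (n : ℕ)
    {O : List (FreeGroup α × Subgroup (FreeGroup α)) → Prop} (hO : Ordy O)
    [Nonempty (Bas α n)] (m : ℕ) (hm : 2 * m + 1 ≤ n) :
    AcL M (fun s => O s ∧ ∃ b : Bas α n, ∀ a ∈ s, a ∈ DD b.1) m := by
  classical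
  refine shell hO (fun b : Bas α n => DD b.1) (fun b => NN e b.1) (NN_inj he n) n
    (fun b => by rw [card_DD, b.2.2]) ?_ m hm
  rintro ⟨b, hb, hbn⟩ σ hσ ⟨⟨b', hb', hbn'⟩, hlt, hσ'⟩
  dsimp only at hσ hlt hσ' ⊢
  -- the letters used
  set P : Set (FreeGroup α) := Prod.fst '' σ with hPd
  have hσfin : σ.Finite := (DD b).finite_toSet.subset hσ
  have hPfin : P.Finite := hσfin.image _
  have hP : ∀ x ∈ P, x ∈ b ∧ x ∈ b' ∧ Subgroup.closure ((b : Set (FreeGroup α)) \ {x}) =
      Subgroup.closure ((b' : Set (FreeGroup α)) \ {x}) := by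
    rintro _ ⟨v, hv, rfl⟩
    have h1 := mem_DD.mp (Finset.mem_coe.mp (hσ hv))
    have h2 := mem_DD.mp (Finset.mem_coe.mp (hσ' hv))
    exact ⟨h1.1, h2.1, by rw [← h1.2, ← h2.2]⟩
  set Q : Set (FreeGroup α) := (b : Set (FreeGroup α)) \ P with hQd
  set Q' : Set (FreeGroup α) := (b' : Set (FreeGroup α)) \ P with hQd'
  have hcl : Subgroup.closure Q' = Subgroup.closure Q := by
    ext g
    rw [closure_compl hb' P hPfin, closure_compl hb P hPfin]
    constructor
    · intro h x hx
      rw [(hP x hx).2.2]; exact h x hx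
    · intro h x hx
      rw [← (hP x hx).2.2]; exact h x hx
  -- the top element
  have hcol := (Finset.geomSum_lt_geomSum_iff_toColex_lt_toColex (n := 2) le_rfl).mp hlt
  rw [Finset.Colex.toColex_lt_toColex_iff_exists_forall_lt] at hcol
  obtain ⟨a, ha, ha', hall⟩ := hcol
  rw [Finset.mem_image] at ha
  obtain ⟨t, ht, rfl⟩ := ha
  have ht' : t ∉ b' := fun h => ha' (Finset.mem_image_of_mem _ h)
  have htP : t ∉ P := fun h => ht' (hP t h).2.1
  have hred : ¬ (Irr e {x | x ∈ Q ∨ x⁻¹ ∈ Q} ∧ ∀ x ∈ Q, ¬ key2 e x⁻¹ < key2 e x) := by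
    rintro ⟨h1, h2⟩
    refine minimal he hb (Q := Q) (Q' := Q') Set.sdiff_subset hcl (t := t) ⟨ht, htP⟩
      (fun h => ht' h.1) ?_ h1 h2
    intro w hw hwQ
    rw [← nu_lt_iff]
    apply hall _ (Finset.mem_image_of_mem _ hw.1)
    intro h
    rw [Finset.mem_image] at h
    obtain ⟨w', hw', hww⟩ := h
    have := nu_inj e he hww
    subst this
    exact hwQ ⟨hw', hw.2⟩
  obtain ⟨η, hη, ξ, hξ, φ, h1, h2, h3, h4⟩ := reduction hb (Q := Q) Set.sdiff_subset hred
  have hηb : η ∈ b := hη.1
  have hξb : ξ ∈ b := hξ.1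
  -- the new basis
  set b2 : Finset (FreeGroup α) := b.image φ with hb2
  have hb2B : IsB ((b2 : Finset (FreeGroup α)) : Set (FreeGroup α)) := by
    rw [hb2, Finset.coe_image]
    exact hb.image φ
  have hb2n : b2.card = n := by
    rw [hb2, Finset.card_image_of_injective _ φ.injective, hbn]
  have hb2e : b2 = insert (φ η) (b.erase η) := by
    rw [hb2, ← Finset.insert_erase hηb, Finset.image_insert, Finset.insert_erase hηb]
    congr 1
    ext x
    rw [Finset.mem_image]
    constructor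
    · rintro ⟨y, hy, rfl⟩
      rw [h2 y (Finset.mem_of_mem_erase hy) (Finset.ne_of_mem_erase hy)]
      exact hy
    · intro hx
      exact ⟨x, hx, h2 x (Finset.mem_of_mem_erase hx) (Finset.ne_of_mem_erase hx)⟩
  have hmem2 : ∀ z, (z = φ η ∨ z ∈ b.erase η) → z ∈ b2 := by
    intro z hz
    rw [hb2e, Finset.mem_insert]
    exact hz
  have hmem3 : ∀ z ∈ b2, (z = φ η ∨ z ∈ b.erase η) := by
    intro z hz
    rw [hb2e, Finset.mem_insert] at hz
    exact hz
  have hφη : φ η ∉ b.erase η := by
    intro h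
    have h6 := h2 (φ η) (Finset.mem_of_mem_erase h) (Finset.ne_of_mem_erase h)
    have h7 := φ.injective h6
    rw [h7] at h1
    exact lt_irrefl _ h1
  have hNN : NN e b2 < NN e b := by
    unfold NN
    rw [Finset.sum_image (nu_inj e he).injOn, Finset.sum_image (nu_inj e he).injOn, hb2e,
      Finset.sum_insert hφη, ← Finset.add_sum_erase b _ hηb]
    have h6 : nu e (φ η) < nu e η := (nu_lt_iff e).mpr h1
    have h7 : 2 ^ nu e (φ η) < 2 ^ nu e η := Nat.pow_lt_pow_right (by norm_num) h6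
    omega
  -- the faces
  set ρ : Finset (FreeGroup α × Subgroup (FreeGroup α)) :=
    {(η, Subgroup.closure ((b : Set (FreeGroup α)) \ {η})),
      (ξ, Subgroup.closure ((b : Set (FreeGroup α)) \ {ξ}))} with hρ
  refine ⟨ρ, Finset.card_le_two, ?_, ⟨b2, hb2B, hb2n⟩, hNN, ?_⟩
  · intro v hv
    rw [Finset.coe_sdiff]
    refine ⟨hσ hv, ?_⟩
    rw [hρ, Finset.mem_coe, Finset.mem_insert, Finset.mem_singleton]
    have hvP : v.1 ∈ P := ⟨v, hv, rfl⟩
    rintro (h | h)
    · apply hη.2
      have : v.1 = η := by rw [h]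
      exact this ▸ hvP
    · apply hξ.2
      have : v.1 = ξ := by rw [h]
      exact this ▸ hvP
  · intro v hv
    rw [Finset.mem_sdiff, mem_DD] at hv
    obtain ⟨⟨hv1, hv2⟩, hvρ⟩ := hv
    have hvη : v.1 ≠ η := by
      intro h
      apply hvρ
      rw [hρ, Finset.mem_insert]
      left
      rw [← h, ← hv2]
    have hvξ : v.1 ≠ ξ := by
      intro h
      apply hvρ
      rw [hρ, Finset.mem_insert, Finset.mem_singleton]
      right
      rw [← h, ← hv2]
    have hvb2 : v.1 ∈ b2 := by
      rw [hb2e]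
      exact Finset.mem_insert_of_mem (Finset.mem_erase.mpr ⟨hvη, hv1⟩)
    have hvφ : v.1 ≠ φ η := by
      intro h
      exact hφη (h ▸ Finset.mem_erase.mpr ⟨hvη, hv1⟩)
    rw [mem_DD]
    refine ⟨hvb2, ?_⟩
    rw [hv2]
    apply le_antisymm
    · rw [Subgroup.closure_le]
      rintro z ⟨hz, hzv⟩
      by_cases hzη : z = η
      · rw [hzη]
        refine Subgroup.closure_mono ?_ h4
        rintro w (rfl | ⟨rfl, hξη⟩)
        · exact ⟨Finset.mem_coe.mpr (hmem2 _ (Or.inl rfl)), fun h => hvφ h.symm⟩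
        · exact ⟨Finset.mem_coe.mpr (hmem2 _ (Or.inr (Finset.mem_erase.mpr ⟨hξη, hξb⟩))),
            fun h => hvξ h.symm⟩
      · exact Subgroup.subset_closure
          ⟨Finset.mem_coe.mpr (hmem2 _ (Or.inr (Finset.mem_erase.mpr ⟨hzη, hz⟩))), hzv⟩
    · rw [Subgroup.closure_le]
      rintro z ⟨hz, hzv⟩
      rcases hmem3 z (Finset.mem_coe.mp hz) with rfl | hz
      · refine Subgroup.closure_mono ?_ h3
        rintro w (rfl | rfl)
        · exact ⟨hηb, fun h => hvη h.symm⟩
        · exact ⟨hξb, fun h => hvξ h.symm⟩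
      · exact Subgroup.subset_closure ⟨Finset.mem_of_mem_erase hz, hzv⟩

end Pool.Agent.TOR96
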