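import Mathlib

set_option autoImplicit false

namespace Pool.Agent.TOR96

open FreeGroup

variable {α : Type*} [DecidableEq α]

omit [DecidableEq α] in
theorem invRev_cons' (x : α × Bool) (l : List (α × Bool)) :
    invRev (x :: l) = invRev l ++ [(x.1, !x.2)] := by
  simp [invRev]

theorem reduce_toWord' (u : List (α × Bool)) (h : IsReduced u) : reduce u = u := h.reduce_eq

/-- cancellation of reduced words -/
theorem cancelL : ∀ (v u : List (α × Bool)), IsReduced u → IsReduced v →
    ∃ p a r : List (α × Bool), u = p ++ invRev a ∧ v = a ++ r ∧ reduce (u ++ v) = p ++ r := by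
  intro v
  induction v with
  | nil =>
    intro u hu _
    exact ⟨u, [], [], by simp, by simp, by simpa using hu.reduce_eq⟩
  | cons y v ih =>
    intro u hu hv
    rcases List.eq_nil_or_concat u with rfl | ⟨u', x, rfl⟩
    · exact ⟨[], [], y :: v, by simp, by simp, by simpa using hv.reduce_eq⟩
    · rw [List.concat_eq_append] at hu ⊢
      by_cases hxy : y = (x.1, !x.2)
      · subst hxy
        have hu' : IsReduced u' := List.IsChain.left_of_append hu
        have hv' : IsReduced v := List.IsChain.right_of_append (l₁ := [(x.1, !x.2)]) hv
        obtain ⟨p, a, r, h1, h2, h3⟩ := ih u' hu' hv'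
        refine ⟨p, (x.1, !x.2) :: a, r, ?_, ?_, ?_⟩
        · rw [invRev_cons', h1]; simp
        · rw [h2]; simp
        · rw [← h3]
          apply reduce.eq_of_red
          have : Red.Step (u' ++ (x.1, x.2) :: (x.1, !x.2) :: v) (u' ++ v) := Red.Step.not
          simpa using this.to_red
      · refine ⟨u' ++ [x], [], y :: v, by simp, by simp, ?_⟩
        apply IsReduced.reduce_eq
        have h2 : IsReduced ([x] ++ (y :: v)) := by
          simp only [List.singleton_append]
          rw [isReduced_cons_cons]
          refine ⟨?_, hv⟩
          intro h1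
          by_contra h2
          apply hxy
          ext
          · exact h1.symm
          · simp only
            cases hx : x.2 <;> cases hy : y.2 <;> simp_all
        exact hu.append_overlap h2 (by simp)

theorem cancel (g h : FreeGroup α) : ∃ p a r : List (α × Bool),
    g.toWord = p ++ invRev a ∧ h.toWord = a ++ r ∧ (g * h).toWord = p ++ r := by
  obtain ⟨p, a, r, h1, h2, h3⟩ := cancelL h.toWord g.toWord isReduced_toWord isReduced_toWord
  exact ⟨p, a, r, h1, h2, by rw [toWord_mul]; exact h3⟩

/-- number of cancelled letters in the product -/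
def cc (g h : FreeGroup α) : ℕ := (g.norm + h.norm - (g * h).norm) / 2

theorem cc_spec (g h : FreeGroup α) : ∃ p a r : List (α × Bool),
    g.toWord = p ++ invRev a ∧ h.toWord = a ++ r ∧ (g * h).toWord = p ++ r ∧ a.length = cc g h := by
  obtain ⟨p, a, r, h1, h2, h3⟩ := cancel g h
  refine ⟨p, a, r, h1, h2, h3, ?_⟩
  unfold cc FreeGroup.norm
  rw [h1, h2, h3]
  simp only [List.length_append, invRev_length]
  omega

theorem norm_cc (g h : FreeGroup α) : (g * h).norm + 2 * cc g h = g.norm + h.norm := by
  obtain ⟨p, a, r, h1, h2, h3, h4⟩ := cc_spec g h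
  unfold FreeGroup.norm
  rw [h1, h2, h3, ← h4]
  simp only [List.length_append, invRev_length]
  omega

theorem cc_le_left (g h : FreeGroup α) : cc g h ≤ g.norm := by
  obtain ⟨p, a, r, h1, h2, h3, h4⟩ := cc_spec g h
  unfold FreeGroup.norm
  rw [h1, ← h4]
  simp only [List.length_append, invRev_length]
  omega

theorem cc_le_right (g h : FreeGroup α) : cc g h ≤ h.norm := by
  obtain ⟨p, a, r, h1, h2, h3, h4⟩ := cc_spec g h
  unfold FreeGroup.norm
  rw [h2, ← h4]
  simp only [List.length_append]
  omega

theorem toWord_mul_cc (g h : FreeGroup α) :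
    (g * h).toWord = g.toWord.take (g.norm - cc g h) ++ h.toWord.drop (cc g h) := by
  obtain ⟨p, a, r, h1, h2, h3, h4⟩ := cc_spec g h
  have e : g.norm - cc g h = p.length := by
    unfold FreeGroup.norm
    rw [h1, ← h4]
    simp
  rw [e, ← h4, h1, h2, h3]
  simp

theorem drop_cc (g h : FreeGroup α) :
    g.toWord.drop (g.norm - cc g h) = invRev (h.toWord.take (cc g h)) := by
  obtain ⟨p, a, r, h1, h2, h3, h4⟩ := cc_spec g h
  have e : g.norm - cc g h = p.length := by
    unfold FreeGroup.norm
    rw [h1, ← h4]
    simp
  rw [e, ← h4, h1, h2]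
  simp

theorem take_cc (g h : FreeGroup α) :
    g⁻¹.toWord.take (cc g h) = h.toWord.take (cc g h) := by
  obtain ⟨p, a, r, h1, h2, h3, h4⟩ := cc_spec g h
  rw [toWord_inv, h1, h2, ← h4, invRev_append, invRev_invRev]
  simp

theorem cc_inv (g h : FreeGroup α) : cc h⁻¹ g⁻¹ = cc g h := by
  have : h⁻¹ * g⁻¹ = (g * h)⁻¹ := by group
  unfold cc
  rw [this, norm_inv_eq, norm_inv_eq, norm_inv_eq, add_comm]

/-- product with a longer left factor -/
theorem step_word (y q q' : FreeGroup α) (s : ℕ) (Y : List (α × Bool))
    (hy : y.toWord = Y ++ q.toWord.drop s) (hs : s + cc q q' < q.norm) :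
    (y * q').toWord = y.toWord.take (y.norm - cc q q') ++ q'.toWord.drop (cc q q') := by
  have hc := cc_le_left q q'
  set c := cc q q' with hcdef
  have hlen : q.toWord.length = q.norm := rfl
  have hly : y.toWord.length = y.norm := rfl
  have hlY : y.norm = Y.length + (q.norm - s) := by
    rw [← hly, hy]; simp [hlen]
  -- the word y = Y ++ M ++ C with C the cancelled part
  have e1 : q.toWord.drop s = (q.toWord.take (q.norm - c)).drop s ++ q.toWord.drop (q.norm - c) := by
    conv_lhs => rw [← List.take_append_drop (q.norm - c) q.toWord]
    rw [List.drop_append_of_le_length]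
    simp [hlen]; omega
  have e2 : y.toWord.take (y.norm - c) = Y ++ (q.toWord.take (q.norm - c)).drop s := by
    rw [hy, e1, ← List.append_assoc]
    rw [List.take_append_of_le_length]
    · rw [List.take_of_length_le]
      simp [hlen]; omega
    · simp [hlen]; omega
  have e3 : y.toWord = y.toWord.take (y.norm - c) ++ q.toWord.drop (q.norm - c) := by
    rw [e2, List.append_assoc, ← e1, ← hy]
  have hne : (q.toWord.take (q.norm - c)).drop s ≠ [] := by
    intro h
    have := congrArg List.length h
    simp [hlen] at this
    omega
  have hred : IsReduced (y.toWord.take (y.norm - c) ++ q'.toWord.drop c) := by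
    rw [e2]
    have h1 : IsReduced (Y ++ (q.toWord.take (q.norm - c)).drop s) := by
      rw [← e2]
      have h0 := isReduced_toWord (x := y)
      rw [← List.take_append_drop (y.norm - c) y.toWord] at h0
      exact List.IsChain.left_of_append h0
    have h2 : IsReduced ((q.toWord.take (q.norm - c)).drop s ++ q'.toWord.drop c) := by
      have h3 := isReduced_toWord (x := q * q')
      rw [toWord_mul_cc, ← hcdef] at h3
      rw [← List.take_append_drop s (q.toWord.take (q.norm - c)), List.append_assoc] at h3
      exact List.IsChain.right_of_append h3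
    exact h1.append_overlap h2 hne
  have hmk : y * q' = mk (y.toWord.take (y.norm - c) ++ q'.toWord.drop c) := by
    have h1 : y = mk (y.toWord.take (y.norm - c) ++ q.toWord.drop (q.norm - c)) := by
      rw [← e3, mk_toWord]
    have h2 : q' = mk (q'.toWord.take c ++ q'.toWord.drop c) := by
      rw [List.take_append_drop, mk_toWord]
    have h3 : q.toWord.drop (q.norm - c) = invRev (q'.toWord.take c) := drop_cc q q'
    conv_lhs => rw [h1, h2, h3]
    rw [← mul_mk, ← mul_mk, ← mul_mk, ← inv_mk]
    group
  rw [hmk, toWord_mk, hred.reduce_eq]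

theorem step_norm (y q q' : FreeGroup α) (s : ℕ) (Y : List (α × Bool))
    (hy : y.toWord = Y ++ q.toWord.drop s) (hs : s + cc q q' < q.norm) :
    (y * q').norm + 2 * cc q q' = y.norm + q'.norm := by
  have h := congrArg List.length (step_word y q q' s Y hy hs)
  have hc := cc_le_right q q'
  have hly : y.toWord.length = y.norm := rfl
  have hlq : q'.toWord.length = q'.norm := rfl
  have hlY : y.norm = Y.length + (q.norm - s) := by
    rw [← hly, hy]; simp [FreeGroup.norm]
  have : (y * q').toWord.length = (y * q').norm := rfl
  rw [this] at h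
  simp [hly, hlq] at h
  omega

/-- no element is cancelled by half in its square -/
theorem cc_self (x : FreeGroup α) (hx : x ≠ 1) : 2 * cc x x < x.norm := by
  by_contra hlt
  push Not at hlt
  have hn : 0 < x.norm := by
    rw [Nat.pos_iff_ne_zero]
    intro h; exact hx (norm_eq_zero.mp h)
  set c := cc x x with hc
  have hcn : c ≤ x.norm := cc_le_left x x
  set w := x.toWord with hw
  have hlen : w.length = x.norm := rfl
  have h1 : (invRev w).take c = w.take c := by
    have := take_cc x x
    rwa [toWord_inv] at this
  -- entrywise
  have h2 : ∀ i, i < c → ∀ (hi : i < w.length), (invRev w)[i]? = w[i]? := by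
    intro i hi _
    have := congrArg (fun l => l[i]?) h1
    simpa [List.getElem?_take, hi] using this
  have h3 : ∀ i, (hi : i < w.length) →
      (invRev w)[i]? = some ((w[w.length - 1 - i]'(by omega)).1, !(w[w.length - 1 - i]'(by omega)).2) := by
    intro i hi
    unfold invRev
    rw [List.getElem?_reverse (by simpa using hi)]
    simp only [List.length_map]
    rw [List.getElem?_map, List.getElem?_eq_getElem (by omega)]
    simp
  rcases Nat.even_or_odd' x.norm with ⟨m, hm | hm⟩
  · -- even: adjacent letters cancel
    have hi : m - 1 < c := by omega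
    have hl : m - 1 < w.length := by omega
    have hl2 : m < w.length := by omega
    have e := h2 (m - 1) hi hl
    rw [h3 (m - 1) hl] at e
    rw [List.getElem?_eq_getElem hl] at e
    have e4 : w.length - 1 - (m - 1) = m := by omega
    simp only [e4, Option.some.injEq] at e
    have hred : IsReduced w := isReduced_toWord
    rw [FreeGroup.IsReduced, List.isChain_iff_getElem] at hred
    have h5 := hred (m - 1) (by omega)
    have e5 : m - 1 + 1 = m := by omega
    simp only [e5] at h5
    rw [← e] at h5
    have := h5 rfl
    simp at this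
  · -- odd: middle letter is its own inverse
    have hi : m < c := by omega
    have hl : m < w.length := by omega
    have e := h2 m hi hl
    rw [h3 m hl] at e
    rw [List.getElem?_eq_getElem hl] at e
    have e4 : w.length - 1 - m = m := by omega
    simp only [e4, Option.some.injEq] at e
    have := congrArg Prod.snd e
    simp at this

end Pool.Agent.TOR96
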