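import Pool.Agent.Helper96_TOR.Euc
import Pool.Agent.Helper96_TOR.Bad

set_option autoImplicit false

namespace Pool.Agent.TOR96

open Pool.Agent.TOR.H58 Finsupp

variable {F : Type*} [Group F]

/-- relative simplices are simplices -/
theorem RW.weaken {b P P' : Set F} {s : Set (F × Subgroup F)} (hP : P ⊆ P') (hb : P' ⊆ b)
    (hs : RW P' (Subgroup.closure (b \ P')) s) : RW P (Subgroup.closure (b \ P)) s := by
  obtain ⟨b1, h1, h2, h3, h4⟩ := hs
  refine ⟨b1, h1, hP.trans h2, ?_, fun v hv => ?_⟩
  · rw [closure_split h2 hP, h3, closure_split hb hP]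
  · obtain ⟨h5, h6, h7⟩ := h4 v hv
    exact ⟨h5, fun h => h6 (hP h), h7⟩

/-- the cone point -/
theorem cone_point {b P P' : Set F} (hP : P ⊆ P') (hP' : P' ⊆ b)
    {φ : F ≃* F} {t : F} (ht : t ∈ P' \ P) (hφ : AT b (P' \ P) φ)
    (s : Set (F × Subgroup F)) (hs : RW P' (Subgroup.closure (b \ P')) s) :
    RW P (Subgroup.closure (b \ P))
      (insert (φ t, (Subgroup.closure (b \ {t})).map φ.toMonoidHom) s) := by
  obtain ⟨b1, hb1, h2, h3, h4⟩ := hs
  set T : Set F := P' \ P with hT
  have hTb : T ⊆ b := fun x hx => hP' hx.1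
  -- the subgroups fixed by φ
  have f1 : ∀ x ∈ Subgroup.closure (b \ T), φ x = x := by
    intro x hx
    have : Subgroup.closure (b \ T) ≤ MonoidHom.eqLocus φ.toMonoidHom (MonoidHom.id F) := by
      rw [Subgroup.closure_le]
      exact hφ.1
    exact this hx
  have fP : ∀ x ∈ P, φ x = x := fun x hx =>
    hφ.1 x ⟨hP' (hP hx), fun h => h.2 hx⟩
  have fC : ∀ x ∈ Subgroup.closure (b1 \ P'), φ x = x := by
    intro x hx
    rw [h3] at hx
    exact f1 x (Subgroup.closure_mono (Set.sdiff_subset_sdiff_right Set.sdiff_subset) hx)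
  have fb1 : ∀ x ∈ b1 \ T, φ x = x := by
    intro x hx
    by_cases h : x ∈ P
    · exact fP x h
    · exact fC x (Subgroup.subset_closure ⟨hx.1, fun h' => hx.2 ⟨h', h⟩⟩)
  have fK : ∀ X : Set F, X ⊆ b1 → T ⊆ X →
      (Subgroup.closure X).map φ.toMonoidHom = Subgroup.closure X := by
    intro X hX hTX
    have h5 : X = T ∪ (X \ T) := by
      rw [Set.union_sdiff_self, Set.union_eq_self_of_subset_left hTX]
    have h6 : (Subgroup.closure (X \ T)).map φ.toMonoidHom = Subgroup.closure (X \ T) := by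
      rw [MonoidHom.map_closure]
      congr 1
      ext x
      constructor
      · rintro ⟨y, hy, rfl⟩
        change φ y ∈ X \ T
        rw [fb1 y ⟨hX hy.1, hy.2⟩]
        exact hy
      · intro hx
        exact ⟨x, hx, fb1 x ⟨hX hx.1, hx.2⟩⟩
    rw [h5, Subgroup.closure_union, Subgroup.map_sup, hφ.2, h6]
  have hcl : ∀ X ⊆ P', Subgroup.closure (b1 \ X) = Subgroup.closure (b \ X) := by
    intro X hX
    rw [closure_split h2 hX, closure_split hP' hX, h3]
  have hφt : φ t ∉ P := by
    intro h
    have h5 := φ.injective (fP _ h)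
    exact ht.2 (h5 ▸ h)
  refine ⟨φ '' b1, hb1.image φ, ?_, ?_, ?_⟩
  · intro x hx
    exact ⟨x, h2 (hP hx), fP x hx⟩
  · have h5 : φ '' b1 \ P = φ '' (b1 \ P) := by
      ext x
      constructor
      · rintro ⟨⟨y, hy, rfl⟩, h⟩
        exact ⟨y, ⟨hy, fun h' => h (by rw [fP y h']; exact h')⟩, rfl⟩
      · rintro ⟨y, ⟨hy, h⟩, rfl⟩
        refine ⟨⟨y, hy, rfl⟩, fun h' => h ?_⟩
        have h6 := φ.injective (fP _ h')
        rwa [h6] at h'
    have h6 := fK (b1 \ P) Set.sdiff_subset (fun x hx => ⟨h2 hx.1, hx.2⟩)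
    rw [MonoidHom.map_closure] at h6
    rw [h5, ← hcl P hP]
    exact h6
  · rintro v (rfl | hv)
    · refine ⟨⟨t, h2 ht.1, rfl⟩, hφt, ?_⟩
      change (Subgroup.closure (b \ {t})).map φ.toMonoidHom = Subgroup.closure (φ '' b1 \ {φ t})
      rw [← hcl {t} (Set.singleton_subset_iff.mpr ht.1), MonoidHom.map_closure]
      congr 1
      ext x
      constructor
      · rintro ⟨y, ⟨hy, h⟩, rfl⟩
        exact ⟨⟨y, hy, rfl⟩, fun h' => h (φ.injective h')⟩
      · rintro ⟨⟨y, hy, rfl⟩, h⟩
        exact ⟨y, ⟨hy, fun h' => h (congrArg φ h')⟩, rfl⟩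
    · obtain ⟨h5, h6, h7⟩ := h4 v hv
      have h8 : φ v.1 = v.1 := fb1 v.1 ⟨h5, fun h => h6 h.1⟩
      refine ⟨⟨v.1, h5, h8⟩, fun h => h6 (hP h), ?_⟩
      have h9 := fK (b1 \ {v.1}) Set.sdiff_subset (fun x hx => ⟨h2 hx.1, fun h => by
        have h10 : x = v.1 := h
        exact h6 (h10 ▸ hx.1)⟩)
      rw [h7, ← h9, MonoidHom.map_closure]
      congr 1
      ext x
      constructor
      · rintro ⟨y, ⟨hy, h⟩, rfl⟩
        refine ⟨⟨y, hy, rfl⟩, fun h' => h ?_⟩
        have h10 : φ y = v.1 := h'
        rw [← h8] at h10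
        exact φ.injective h10
      · rintro ⟨⟨y, hy, rfl⟩, h⟩
        refine ⟨y, ⟨hy, fun h' => h ?_⟩, rfl⟩
        have h10 : y = v.1 := h'
        change φ y = v.1
        rw [h10, h8]

theorem IsB.fin_card {b b' : Set F} (hb : IsB b) (hb' : IsB b') (hf : b.Finite) :
    b'.Finite ∧ b'.ncard = b.ncard := by
  obtain ⟨e⟩ := hb.equiv hb'
  have h1 : Finite b := hf
  have h2 : Finite b' := Finite.of_equiv _ e
  exact ⟨Set.toFinite b', by rw [← Nat.card_coe_set_eq, ← Nat.card_coe_set_eq, Nat.card_congr e]⟩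

/-- THE COMPLEX OF SPLIT SYSTEMS ORTHOGONAL TO (w, f), relative version. -/
theorem wvf_acl {M : Type*} [AddCommGroup M] (f : F →* Multiplicative ℤ) (w : F) :
    ∀ (m : ℕ) (b P : Set F), IsB b → b.Finite → P ⊆ b → P.ncard + 4 * m + 3 ≤ b.ncard →
      AcL M (fun l => (∀ a ∈ l, gd f w a) ∧ RW P (Subgroup.closure (b \ P)) {a | a ∈ l}) m := by
  intro m
  induction m using Nat.strong_induction_on with
  | _ m ih =>
  intro b P hb hbf hP hn
  have hPf : P.Finite := hbf.subset hP
  by_cases hm : m = 0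
  · subst hm
    -- a good vertex
    have h1 : 3 ≤ (b \ P).ncard := by
      rw [Set.ncard_sdiff hP hPf]
      omega
    obtain ⟨T, hT, hT3⟩ := Set.exists_subset_card_eq h1
    have hTb : T ⊆ b := fun x hx => (hT hx).1
    obtain ⟨φ, t, ht, hφ, hg⟩ := exists_handle hb hTb hT3 f w
    have e1 : (P ∪ T) \ P = T := by
      rw [Set.union_sdiff_left]
      ext x
      exact ⟨fun h => h.1, fun h => ⟨h, (hT h).2⟩⟩
    intro c hc h0
    refine cone_chain (φ t, (Subgroup.closure (b \ {t})).map φ.toMonoidHom) c hc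
      (fun l hl hlen _ => ?_) h0
    have : l = [] := List.length_eq_zero_iff.mp hlen
    subst this
    refine ⟨fun a ha => ?_, ?_⟩
    · have : a = (φ t, (Subgroup.closure (b \ {t})).map φ.toMonoidHom) := by simpa using ha
      rw [this]
      exact hg
    · have h2 : P ∪ T ⊆ b := Set.union_subset hP hTb
      have h3 := cone_point (P' := P ∪ T) Set.subset_union_left h2 (t := t) (φ := φ)
        (by rw [e1]; exact ht) (by rw [e1]; exact hφ) ∅
        ⟨b, hb, h2, rfl, by simp⟩
      refine RW.mono ?_ h3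
      intro a ha
      have : a = (φ t, (Subgroup.closure (b \ {t})).map φ.toMonoidHom) := by simpa using ha
      exact Or.inl this
  -- the subgroup of boundaries
  set B : AddSubgroup (List (F × Subgroup F) →₀ M) :=
    (Sup M (fun l => ((∀ a ∈ l, gd f w a) ∧ RW P (Subgroup.closure (b \ P)) {a | a ∈ l}) ∧
      l.length = m + 1)).map bd with hB
  have claim : ∀ t : ℕ, t ≤ 3 → ∀ (b' P' : Set F), IsB b' → P ⊆ P' → P' ⊆ b' →
      Subgroup.closure (b' \ P) = Subgroup.closure (b \ P) → (P' \ P).ncard = 3 - t →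
      ∀ c ∈ Sup M (fun l => ((∀ a ∈ l, gd f w a) ∧
        KL (RW P' (Subgroup.closure (b' \ P'))) l) ∧ l.length = m), bd c = 0 → c ∈ B := by
    intro t
    induction t with
    | zero =>
      intro _ b' P' hb' hPP' hP' hcl hcard c hc h0
      obtain ⟨φ, t, ht, hφ, hg⟩ := exists_handle hb' (Set.sdiff_subset.trans hP') hcard f w
      obtain ⟨d, hd, hdc⟩ := cone_chain
        (L := fun l => (∀ a ∈ l, gd f w a) ∧ RW P (Subgroup.closure (b \ P)) {a | a ∈ l})
        (m := m) (φ t, (Subgroup.closure (b' \ {t})).map φ.toMonoidHom) c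
        (Sup_mono (fun l hl => ⟨⟨hl.1.1, by
          rw [← hcl]
          exact RW.weaken hPP' hP' hl.1.2⟩, hl.2⟩) hc) (fun l hl hlen hcl' => by
          obtain ⟨⟨h1, h2⟩, h3⟩ := hc l hcl'
          refine ⟨fun a ha => ?_, ?_⟩
          · rcases List.mem_cons.mp ha with h | h
            · rw [h]; exact hg
            · exact h1 a h
          · rw [← hcl]
            refine RW.mono ?_ (cone_point hPP' hP' ht hφ _ h2)
            intro a ha
            rcases List.mem_cons.mp ha with h | h
            · exact Or.inl h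
            · exact Or.inr h) h0
      exact ⟨d, hd, hdc⟩
    | succ t iht =>
      intro ht3 b' P' hb' hPP' hP' hcl hcard c hc h0
      have hb'f := hb.fin_card hb' hbf
      have hP'f : P'.Finite := hb'f.1.subset hP'
      have hPc : P'.ncard = P.ncard + (3 - (t + 1)) := by
        rw [← hcard, Set.ncard_sdiff hPP' hPf]
        have := Set.ncard_le_ncard hPP' hP'f
        omega
      have hbc := Set.ncard_sdiff hP' hP'f
      have hle := Set.ncard_le_ncard hP' hb'f.1
      refine bad_red (good := gd f w) (K := RW P' (Subgroup.closure (b' \ P')))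
        (fun s t h ht => RW.mono h ht) ?_ ?_ B ?_ ?_ c hc h0
      · refine rw_acl go_ordy hb' hP' (hb'f.1.subset Set.sdiff_subset) rfl m ?_
        rw [hbc]
        omega
      · intro ρ hρ hKρ hρ2 hρm
        obtain ⟨b1, h1, h2, h3, h4⟩ := hKρ
        have hb1f := hb.fin_card h1 hbf
        have hlink := RW.link (ρ := {a | a ∈ ρ}) (List.finite_toSet ρ) h1 h2 h3 h4
        have hsub : P' ∪ Prod.fst '' {a | a ∈ ρ} ⊆ b1 := by
          rintro x (hx | ⟨v, hv, rfl⟩)
          · exact h2 hx
          · exact (h4 v hv).1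
        have hcρ : (P' ∪ Prod.fst '' {a | a ∈ ρ}).ncard ≤ P'.ncard + ρ.length := by
          refine (Set.ncard_union_le _ _).trans (Nat.add_le_add_left ?_ _)
          refine (Set.ncard_image_le (List.finite_toSet ρ)).trans ?_
          classical
          have h5 : {a | a ∈ ρ} = ((ρ.toFinset : Finset _) : Set (F × Subgroup F)) := by
            ext a; simp
          rw [h5, Set.ncard_coe_finset]
          exact List.toFinset_card_le ρ
        have h5 := ih (m + 1 - ρ.length) (by omega) b1 (P' ∪ Prod.fst '' {a | a ∈ ρ}) h1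
          hb1f.1 hsub (by omega)
        refine AcL.congr (fun l => ?_) h5
        constructor
        · rintro ⟨h6, h7⟩
          exact ⟨h6, ((hlink _).mpr h7).1⟩
        · rintro ⟨h6, h7⟩
          refine ⟨h6, (hlink _).mp ⟨h7, ?_⟩⟩
          rw [Set.disjoint_left]
          intro a ha ha'
          exact hρ a ha' (h6 a ha)
      · intro d hd
        refine ⟨d, Sup_mono (fun l hl => ⟨⟨hl.1.1, ?_⟩, hl.2⟩) hd, rfl⟩
        rw [← hcl]
        exact RW.weaken hPP' hP' hl.1.2
      · intro r hr y hy hy0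
        by_cases hy1 : y = 0
        · rw [hy1]; exact AddSubgroup.zero_mem _
        obtain ⟨l0, hl0⟩ := Finsupp.ne_iff.mp hy1
        obtain ⟨b1, h1, h2, h3, h4⟩ := (hy l0 hl0).1.2
        have h4r := h4 r (Set.mem_insert _ _)
        have hlink := RW.link (ρ := {r}) (Set.finite_singleton r) h1 h2 h3
          (fun v hv => by
            have : v = r := hv
            rw [this]; exact h4r)
        rw [Set.image_singleton] at hlink
        have hsub : P' ∪ {r.1} ⊆ b1 := by
          rintro x (hx | hx)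
          · exact h2 hx
          · have : x = r.1 := hx
            rw [this]; exact h4r.1
        refine iht (by omega) b1 (P' ∪ {r.1}) h1 (hPP'.trans Set.subset_union_left) hsub ?_ ?_ y
          (Sup_mono (fun l hl => ⟨⟨hl.1.1, ?_⟩, hl.2⟩) hy) hy0
        · rw [closure_split h2 hPP', h3, ← hcl, closure_split hP' hPP']
        · have h5 : (P' ∪ {r.1}) \ P = insert r.1 (P' \ P) := by
            ext x
            simp only [Set.mem_sdiff, Set.mem_union, Set.mem_singleton_iff, Set.mem_insert_iff]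
            constructor
            · rintro ⟨h | h, h'⟩
              · exact Or.inr ⟨h, h'⟩
              · exact Or.inl h
            · rintro (h | ⟨h, h'⟩)
              · exact ⟨Or.inr h, fun h' => h4r.2.1 (hPP' (h ▸ h'))⟩
              · exact ⟨Or.inl h, h'⟩
          rw [h5, Set.ncard_insert_of_notMem (fun h => h4r.2.1 h.1)
            (hP'f.subset Set.sdiff_subset), hcard]
          omega
        · refine (hlink _).mp ⟨?_, ?_⟩
          · refine RW.mono ?_ hl.1.2
            rintro a (ha | ha)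
            · exact Or.inr ha
            · exact Or.inl ha
          · rw [Set.disjoint_left]
            intro a ha ha'
            have : a = r := ha'
            exact hr (this ▸ hl.1.1 a ha)
  intro c hc h0
  exact claim 3 le_rfl b P hb subset_rfl hP rfl (by simp) c hc h0

end Pool.Agent.TOR96
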